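import Mathlib
import Pool.Agent.Lib.H55D.Defs
import Pool.Agent.Lib.H55D.X3

/-!
# H55E: quadratic twists

The rank part and the 2-part of the conjecture of Birch and Swinnerton-Dyer for the quadratic twists
E_d : (2y+1)^2 = 4x^3 + d^3 of y^2 + y = x^3, over number fields K such that K(sqrt -3) is contained in a
Galois 2-extension of the field of cube roots of unity unramified outside the good primes.
On top of H55N (LV_twist) and H55D, see PROOF.md. For d = 1 this is H55D.
-/

open NumberField IsDedekindDomain

namespace H55E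

open H55B H55C

/-- Admissible integers: squarefree, 1 mod 4, all prime factors l are 1 mod 3 and 2 is not a cube modulo l. -/
structure AdmD (d : ℤ) : Prop where
  sq : Squarefree d
  four : d % 4 = 1
  good : ∀ l : ℕ, l.Prime → (l : ℤ) ∣ d → l % 3 = 1 ∧ ¬ ∃ x : ZMod l, x ^ 3 = 2

/-- The quadratic twist of y^2 + y = x^3 by d = 1 mod 4: y^2 + y = x^3 + (d^3 - 1)/4, that is
(2y+1)^2 = 4x^3 + d^3, a global minimal model for admissible d. -/
def Ed (d : ℤ) : WeierstrassCurve ℚ := ⟨0, 0, 1, 0, ((d : ℚ) ^ 3 - 1) / 4⟩

/-- The image of the local Kummer map of E_d: m is 2(2x + dT) up to squares for a point (x, y) of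
E_d over k which is not of order two (4x^3 + d^3 = (2y+1)^2, with roots -dT/2 of the left side, T^3 = 2). -/
def LocImd (d : ℤ) (k : Type) [Field k] (m : Cub k) : Prop :=
  ∃ x y : k, 4 * (y ^ 2 + y) = 4 * x ^ 3 + (d : k) ^ 3 - 1 ∧ 2 * y + 1 ≠ 0 ∧
    ∃ b : Cub k, m * (2 * (2 * AdjoinRoot.of _ x + (d : Cub k) * AdjoinRoot.root _)) = b ^ 2

/-- Representatives of the 2-Selmer group of E_d over K: invertible elements of the cubic algebra of
square norm, everywhere locally in the image of the Kummer map. -/
def Seld (d : ℤ) (K : Type) [Field K] [NumberField K] : Set (Cub K) :=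
  {m | IsUnit m ∧ (∃ n : K, Algebra.norm K m = n ^ 2) ∧
    ∀ w : HeightOneSpectrum (𝓞 K),
      LocImd d (w.adicCompletion K) (cmap (algebraMap K (w.adicCompletion K)) m)}

/-- The 2-Selmer group of E_d over K is trivial and E_d(K) is finite of odd order. -/
def SelTwod (d : ℤ) (K : Type) [Field K] [NumberField K] : Prop :=
  (∀ m ∈ Seld d K, ∃ b : Cub K, m = b ^ 2) ∧
  Finite ((Ed d).baseChange K).toAffine.Point ∧
  Odd (Nat.card ((Ed d).baseChange K).toAffine.Point)

open Classical in
/-- Points of E_d over the completion with nonsingular reduction (of the minimal equation above): the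
partial derivatives 3x^2 and 2y + 1 do not both reduce to 0. -/
def E0d (d : ℤ) (K : Type) [Field K] [NumberField K] (w : HeightOneSpectrum (𝓞 K)) :
    Set ((Ed d).baseChange (w.adicCompletion K)).toAffine.Point :=
  {P | P = 0 ∨ ∃ (x y : w.adicCompletion K)
    (h : ((Ed d).baseChange (w.adicCompletion K)).toAffine.Nonsingular x y),
    P = WeierstrassCurve.Affine.Point.some x y h ∧
      (1 ≤ Valued.v (3 * x ^ 2) ∨ 1 ≤ Valued.v (2 * y + 1))}

open Classical in
/-- The Tamagawa number: the index of the subgroup of points with nonsingular reduction. -/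
noncomputable def tamd (d : ℤ) (K : Type) [Field K] [NumberField K] (w : HeightOneSpectrum (𝓞 K)) : ℕ :=
  (AddSubgroup.closure (E0d d K w)).index

open Classical in
/-- The analytic order of the Tate-Shafarevich group of E_d over K predicted by the formula of Birch and
Swinnerton-Dyer in rank 0; L1 is the value of the L-function at 1, L the period lattice of dx/(2y+1),
Omr its real period, Om twice the area of a period parallelogram. -/
noncomputable def shaAnd (d : ℤ) (K : Type) [Field K] [NumberField K] (L : PeriodPair) (L1 : ℂ) : ℂ :=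
  L1 * (Real.sqrt |(NumberField.discr K : ℝ)| : ℝ) *
    (Nat.card ((Ed d).baseChange K).toAffine.Point : ℂ) ^ 2 /
    ((H55D.Omr L : ℂ) ^ NumberField.InfinitePlace.nrRealPlaces K *
      (Om L : ℂ) ^ NumberField.InfinitePlace.nrComplexPlaces K *
      ∏ᶠ w : HeightOneSpectrum (𝓞 K), (tamd d K w : ℂ))

/-- The rank part and the 2-part of the conjecture of Birch and Swinnerton-Dyer for E_d over K, in
analytic rank 0 and with trivial 2-Selmer group: SelTwod d K, the L-series converges absolutely
for Re s > 3/2 and continues analytically to Re s > 1/2 with nonzero value at 1, and the analytic order of the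
Tate-Shafarevich group is a 2-adic unit (for the period lattice L of dx/(2y+1): g2 = 0, g3 = -d^3, which exists). -/
def BSD2d (d : ℤ) (K : Type) [Field K] [NumberField K] : Prop :=
  SelTwod d K ∧ (∃ L : PeriodPair, L.g₂ = 0 ∧ L.g₃ = -(d : ℂ) ^ 3) ∧
  ∃ Λ : ℂ → ℂ, AnalyticOnNhd ℂ Λ {s | 1 / 2 < s.re} ∧
    (∀ s : ℂ, 3 / 2 < s.re →
      LSeriesSummable (fun n => ((((Ed d).baseChange K).LFunction n : ℤ) : ℂ)) s ∧
      Λ s = ((Ed d).baseChange K).LSeries s) ∧
    Λ 1 ≠ 0 ∧
    ∀ L : PeriodPair, L.g₂ = 0 → L.g₃ = -(d : ℂ) ^ 3 → Unit2 (shaAnd d K L (Λ 1))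

/-- K is unramified over the rationals at the primes dividing d (so that the model of E_d is
minimal over K as well). -/
def UnrAt (d : ℤ) (K : Type) [Field K] [NumberField K] : Prop :=
  ∀ w : HeightOneSpectrum (𝓞 K), (d : 𝓞 K) ∈ w.asIdeal → w.asIdeal.ramificationIdx ℤ = 1

/-- The class of fields: K embeds in a Galois extension L of 2-power degree of the field F of cube roots
of unity, L/F unramified outside the good primes. -/
def Cls (K : Type) [Field K] [NumberField K] : Prop :=
  ∃ (L : Type) (_ : Field L) (_ : NumberField L) (_ : Algebra F L) (_ : Algebra K L),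
    TwoExt L ∧ UnrOut L

/-- K is contained in a Galois extension of the rationals of 2-power degree unramified outside the
primes l = 1 mod 3 modulo which 2 is not a cube. -/
def SubQ (K : Type) [Field K] [NumberField K] : Prop :=
  ∃ (L : Type) (_ : Field L) (_ : NumberField L) (_ : Algebra K L),
    IsGalois ℚ L ∧ (∃ k : ℕ, Module.finrank ℚ L = 2 ^ k) ∧ H55D.UnrQ L

/-- The quadratic character of d on ideals: the Jacobi symbol of the norm modulo d. -/
noncomputable def chd (d : ℤ) (K : Type) [Field K] [NumberField K] : Ideal (𝓞 K) →*₀ ℂ where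
  toFun a := if a = ⊥ then 0 else (jacobiSym (Ideal.absNorm a) d.natAbs : ℂ)
  map_zero' := if_pos rfl
  map_one' := by
    have h : (1 : Ideal (𝓞 K)) ≠ ⊥ := one_ne_zero
    rw [if_neg h, map_one, Nat.cast_one, jacobiSym.one_left, Int.cast_one]
  map_mul' a b := by
    by_cases ha : a = ⊥
    · rw [if_pos ha, zero_mul, if_pos]
      rw [ha, ← Ideal.zero_eq_bot, zero_mul]
    by_cases hb : b = ⊥
    · rw [if_pos hb, mul_zero, if_pos]
      rw [hb, ← Ideal.zero_eq_bot, mul_zero]
    have hab : a * b ≠ ⊥ := mul_ne_zero_iff.2 ⟨ha, hb⟩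
    rw [if_neg ha, if_neg hb, if_neg hab, map_mul, Nat.cast_mul, jacobiSym.mul_left, Int.cast_mul]

/-- The local Euler factor of E_d at w, with complex coefficients. -/
noncomputable def LEFd (d : ℤ) (K : Type) [Field K] [NumberField K] (w : HeightOneSpectrum (𝓞 K)) :
    ArithmeticFunction ℂ :=
  (((((Ed d).baseChange K).baseChange (w.adicCompletion K)).localEulerFactor
    (w.adicCompletionIntegers K) : ArithmeticFunction ℤ) : ArithmeticFunction ℂ)

theorem Ed_one : Ed 1 = E27 := by
  ext <;> simp [Ed, E27]

end H55E
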