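import Mathlib
import Pool.Agent.Lib.H55E.Defs
import Pool.Agent.Lib.H13E.Q1

open NumberField IsDedekindDomain

namespace H55E

open H55B H55C

/-! Chunk X2 (M). AdmD.ne_zero, natAbs coprime to 6 (S). not_sq: d <> 1 is squarefree and d % 4 = 1 so d <> -1: a prime l divides d exactly; w above l: w.valuation (d) = exp(-1) as w is unramified over Z
(UnrAt), an odd valuation. UnrAt_up: w a prime of K containing d, w₀ below in K₀, ramification index over Z of w₀ is 1; e(w|w₀) = 1 because K = K₀(ζ), ζ^2 + ζ + 1 = 0, and w does not contain 3 (3 and d are coprime): an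
element of the inertia group of w over w₀ (K/K₀ is Galois of degree 2) fixes ζ: otherwise 2ζ + 1 in w, -3 in w. Multiplicativity of the ramification index. -/

theorem AdmD.ne_zero {d : ℤ} (hd : AdmD d) : d ≠ 0 := by
  rintro rfl
  have := hd.four
  omega

theorem AdmD.coprime_six {d : ℤ} (hd : AdmD d) : IsCoprime d 6 := by
  have h2 : IsCoprime (2 : ℤ) d := by
    rw [Int.prime_two.irreducible.coprime_iff_not_dvd]
    have := hd.four
    omega
  have h3 : IsCoprime (3 : ℤ) d := by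
    rw [Int.prime_three.irreducible.coprime_iff_not_dvd]
    intro h
    have h1 := hd.good 3 Nat.prime_three (by exact_mod_cast h)
    omega
  have h6 : (6 : ℤ) = 2 * 3 := by norm_num
  rw [h6]
  exact (h2.mul_left h3).symm

/-- an integer prime number in a prime ideal with ramification index one is not in the square -/
theorem X2_sq (K : Type) [Field K] [NumberField K] (w : HeightOneSpectrum (𝓞 K))
    (he : w.asIdeal.ramificationIdx ℤ = 1) (l : ℕ) (hl : l.Prime) (hlw : (l : 𝓞 K) ∈ w.asIdeal) :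
    (l : 𝓞 K) ∉ w.asIdeal ^ 2 := by
  intro h2
  have hwp := w.isPrime
  have hlp : (Ideal.span {(l : ℤ)}).IsPrime :=
    (Ideal.span_singleton_prime (by exact_mod_cast hl.ne_zero)).2 (Nat.prime_iff_prime_int.1 hl)
  have hlb : Ideal.span {(l : ℤ)} ≠ ⊥ := by
    rw [Ne, Ideal.span_singleton_eq_bot]
    exact_mod_cast hl.ne_zero
  have hlm : (Ideal.span {(l : ℤ)}).IsMaximal := hlp.isMaximal hlb
  have hover : w.asIdeal.LiesOver (Ideal.span {(l : ℤ)}) := by
    refine ⟨?_⟩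
    refine hlm.eq_of_le (Ideal.IsPrime.ne_top inferInstance) ?_
    rw [Ideal.span_singleton_le_iff_mem]
    show algebraMap ℤ (𝓞 K) l ∈ w.asIdeal
    simpa using hlw
  have hle : (Ideal.span {(l : ℤ)}).map (algebraMap ℤ (𝓞 K)) ≤ w.asIdeal ^ 2 := by
    rw [Ideal.map_span, Set.image_singleton, Ideal.span_singleton_le_iff_mem]
    simpa using h2
  have hne := (Ideal.ramificationIdx'_ne_one_iff (hle.trans (Ideal.pow_le_self two_ne_zero))).2 hle
  rw [Ideal.ramificationIdx'_eq_ramificationIdx (Ideal.span {(l : ℤ)}) w.asIdeal hlb] at hne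
  exact hne he

/-- a prime number in w dividing d, and the complementary factor is not in w -/
theorem X2_factor (K : Type) [Field K] [NumberField K] (d : ℤ) (hd : AdmD d)
    (w : HeightOneSpectrum (𝓞 K)) (hw : (d : 𝓞 K) ∈ w.asIdeal) :
    ∃ (l : ℕ) (m : ℤ), l.Prime ∧ d = l * m ∧ (l : 𝓞 K) ∈ w.asIdeal ∧ (m : 𝓞 K) ∉ w.asIdeal := by
  have hwp := w.isPrime
  have hw' : ((d.natAbs : ℕ) : 𝓞 K) ∈ w.asIdeal := by
    rcases Int.natAbs_eq d with h | h
    · have h1 : (d : 𝓞 K) = ((d.natAbs : ℕ) : 𝓞 K) := by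
        conv_lhs => rw [h]
        rw [Int.cast_natCast]
      rwa [← h1]
    · have h1 : (d : 𝓞 K) = -((d.natAbs : ℕ) : 𝓞 K) := by
        conv_lhs => rw [h]
        rw [Int.cast_neg, Int.cast_natCast]
      have h2 := w.asIdeal.neg_mem hw
      rwa [h1, neg_neg] at h2
  obtain ⟨l, hl, hlw⟩ := H55D.X3_prime w.asIdeal d.natAbs (Int.natAbs_ne_zero.2 hd.ne_zero) hw'
  -- integers in w are the multiples of l
  have hint : ∀ m : ℤ, (m : 𝓞 K) ∈ w.asIdeal → (l : ℤ) ∣ m := by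
    intro m hm
    by_contra hdiv
    have hco : IsCoprime (l : ℤ) m :=
      ((Nat.prime_iff_prime_int.1 hl).irreducible.coprime_iff_not_dvd).2 hdiv
    obtain ⟨a, b, hab⟩ := hco
    apply hwp.ne_top
    rw [Ideal.eq_top_iff_one]
    have h1 : (1 : 𝓞 K) = (a : 𝓞 K) * (l : 𝓞 K) + (b : 𝓞 K) * (m : 𝓞 K) := by
      have h2 := congrArg (fun z : ℤ => (z : 𝓞 K)) hab
      push_cast at h2
      exact h2.symm
    rw [h1]
    exact w.asIdeal.add_mem (w.asIdeal.mul_mem_left _ hlw) (w.asIdeal.mul_mem_left _ hm)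
  obtain ⟨m, hm⟩ := hint d hw
  refine ⟨l, m, hl, hm, hlw, fun hmw => ?_⟩
  obtain ⟨n, hn⟩ := hint m hmw
  have h1 : (l : ℤ) * l ∣ d := ⟨n, by rw [hm, hn]; ring⟩
  have h2 := hd.sq l h1
  exact (Nat.prime_iff_prime_int.1 hl).not_isUnit h2

theorem val_d (K : Type) [Field K] [NumberField K] (d : ℤ) (hd : AdmD d) (hA : UnrAt d K)
    (w : HeightOneSpectrum (𝓞 K)) (hw : (d : 𝓞 K) ∈ w.asIdeal) :
    w.valuation K (d : K) = WithZero.exp (-1 : ℤ) := by
  have he := hA w hw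
  obtain ⟨l, m, hl, hlm, hlw, hmw⟩ := X2_factor K d hd w hw
  have hl2 := X2_sq K w he l hl hlw
  have h0 : w.valuation K (d : K) = w.intValuation (d : 𝓞 K) := by
    rw [← w.valuation_of_algebraMap (K := K)]
    congr 1
  have h1 : w.intValuation (d : 𝓞 K) = w.intValuation (l : 𝓞 K) := by
    have h2 : w.intValuation (m : 𝓞 K) = 1 :=
      le_antisymm (w.intValuation_le_one _) (not_lt.1 fun h =>
        hmw ((w.intValuation_lt_one_iff_mem _).1 h))
    rw [hlm]
    push_cast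
    rw [map_mul, h2, mul_one]
  have h2 : w.intValuation (l : 𝓞 K) ≤ WithZero.exp (-((1 : ℕ) : ℤ)) :=
    (w.intValuation_le_pow_iff_mem _ 1).2 (by rwa [pow_one])
  have h3 : ¬ w.intValuation (l : 𝓞 K) ≤ WithZero.exp (-((2 : ℕ) : ℤ)) := fun h =>
    hl2 ((w.intValuation_le_pow_iff_mem _ 2).1 h)
  rw [h0, h1]
  have hl0 : (l : 𝓞 K) ≠ 0 := by exact_mod_cast hl.ne_zero
  have hne : w.intValuation (l : 𝓞 K) ≠ 0 := w.intValuation_ne_zero _ hl0
  obtain ⟨k, hk⟩ : ∃ k : ℤ, w.intValuation (l : 𝓞 K) = WithZero.exp k :=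
    ⟨WithZero.log (w.intValuation (l : 𝓞 K)), (WithZero.exp_log hne).symm⟩
  rw [hk, WithZero.exp_le_exp] at h2 h3
  rw [hk]
  congr 1
  push_cast at h2 h3
  omega

theorem not_sq (K : Type) [Field K] [NumberField K] (d : ℤ) (hd : AdmD d) (h1 : d ≠ 1)
    (hA : UnrAt d K) : ¬ IsSquare (d : K) := by
  rintro ⟨r, hr⟩
  have hnu : d.natAbs ≠ 1 := by
    intro h
    have := hd.four
    omega
  obtain ⟨l, hl, hld⟩ := Nat.exists_prime_and_dvd hnu
  have hlp : (Ideal.span {(l : ℤ)}).IsPrime :=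
    (Ideal.span_singleton_prime (by exact_mod_cast hl.ne_zero)).2 (Nat.prime_iff_prime_int.1 hl)
  have hlb : Ideal.span {(l : ℤ)} ≠ ⊥ := by
    rw [Ne, Ideal.span_singleton_eq_bot]
    exact_mod_cast hl.ne_zero
  have hlm : (Ideal.span {(l : ℤ)}).IsMaximal := hlp.isMaximal hlb
  obtain ⟨P, hPm, hPl⟩ := Ideal.exists_maximal_ideal_liesOver_of_isIntegral (S := 𝓞 K)
    (Ideal.span {(l : ℤ)})
  have hPb : P ≠ ⊥ := Ideal.ne_bot_of_liesOver_of_ne_bot hlb P
  let w : HeightOneSpectrum (𝓞 K) := ⟨P, hPm.isPrime, hPb⟩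
  have hlP : (l : 𝓞 K) ∈ P := by
    have h1 : (l : ℤ) ∈ P.under ℤ := by
      rw [← hPl.over]
      exact Ideal.mem_span_singleton_self _
    have h2 : algebraMap ℤ (𝓞 K) l ∈ P := h1
    simpa using h2
  have hdw : (d : 𝓞 K) ∈ w.asIdeal := by
    obtain ⟨m, hm⟩ := Int.natCast_dvd.2 hld
    rw [hm]
    push_cast
    exact P.mul_mem_right _ hlP
  have hv := val_d K d hd hA w hdw
  rw [hr, map_mul] at hv
  have hr0 : w.valuation K r ≠ 0 := by
    intro h
    rw [h, mul_zero] at hv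
    exact WithZero.exp_ne_zero hv.symm
  obtain ⟨k, hk⟩ : ∃ k : ℤ, w.valuation K r = WithZero.exp k :=
    ⟨WithZero.log (w.valuation K r), (WithZero.exp_log hr0).symm⟩
  rw [hk, ← WithZero.exp_add, WithZero.exp_inj] at hv
  omega

theorem X2_card {K₀ K : Type} [Field K₀] [NumberField K₀] [Field K] [NumberField K] [Algebra K₀ K]
    [IsGalois K₀ K] (w : HeightOneSpectrum (𝓞 K)) :
    Nat.card (w.asIdeal.inertia (K ≃ₐ[K₀] K)) = w.asIdeal.ramificationIdx (𝓞 K₀) := by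
  have hwm := w.isMaximal
  have hwp := w.isPrime
  have hp : (w.asIdeal.under (𝓞 K₀)).IsPrime := inferInstance
  have hne : w.asIdeal.under (𝓞 K₀) ≠ ⊥ := by
    intro h
    exact w.ne_bot (Ideal.eq_bot_of_comap_eq_bot (R := 𝓞 K₀) (I := w.asIdeal) h)
  let v : HeightOneSpectrum (𝓞 K₀) := ⟨w.asIdeal.under (𝓞 K₀), hp, hne⟩
  have hvm := v.isMaximal
  have hl : w.asIdeal.LiesOver v.asIdeal := ⟨rfl⟩
  rw [Ideal.card_inertia_eq_ramificationIdxIn (G := K ≃ₐ[K₀] K) v.asIdeal w.asIdeal,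
    Ideal.ramificationIdxIn_eq_ramificationIdx v.asIdeal w.asIdeal (K ≃ₐ[K₀] K)]

theorem UnrAt_up {K₀ K : Type} [Field K₀] [NumberField K₀] [Field K] [NumberField K] [Algebra F K]
    [Algebra K₀ K] (hQ : H13E.Quad K₀ K) (d : ℤ) (hd : AdmD d) (hA : UnrAt d K₀) : UnrAt d K := by
  intro w hw
  have hwp := w.isPrime
  have hG := H13E.quad_galois hQ
  have hp : (w.asIdeal.under (𝓞 K₀)).IsPrime := inferInstance
  have hne : w.asIdeal.under (𝓞 K₀) ≠ ⊥ := by
    intro h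
    exact w.ne_bot (Ideal.eq_bot_of_comap_eq_bot (R := 𝓞 K₀) (I := w.asIdeal) h)
  let w₀ : HeightOneSpectrum (𝓞 K₀) := ⟨w.asIdeal.under (𝓞 K₀), hp, hne⟩
  have hl : w.asIdeal.LiesOver w₀.asIdeal := ⟨rfl⟩
  have hw₀ : (d : 𝓞 K₀) ∈ w₀.asIdeal := by
    show algebraMap (𝓞 K₀) (𝓞 K) (d : 𝓞 K₀) ∈ w.asIdeal
    rwa [map_intCast]
  have h3 : (3 : 𝓞 K) ∉ w.asIdeal := by
    intro h3
    obtain ⟨a, b, hab⟩ := hd.coprime_six
    apply hwp.ne_top
    rw [Ideal.eq_top_iff_one]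
    have h1 : (1 : 𝓞 K) = (a : 𝓞 K) * (d : 𝓞 K) + ((b : 𝓞 K) * 2) * 3 := by
      have h2 := congrArg (fun z : ℤ => (z : 𝓞 K)) hab
      push_cast at h2
      linear_combination -h2
    rw [h1]
    exact w.asIdeal.add_mem (w.asIdeal.mul_mem_left _ hw) (w.asIdeal.mul_mem_left _ h3)
  have hone : w.asIdeal.ramificationIdx (𝓞 K₀) = 1 := by
    rw [← X2_card (K₀ := K₀) w, Subgroup.card_eq_one, Subgroup.eq_bot_iff_forall]
    intro g hg
    obtain ⟨c, -, hc, -, hall, -⟩ := H13E.exists_c hQ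
    rcases hall g with h | h
    · exact h
    · exfalso
      rw [h] at hg
      have hg' : ∀ y : 𝓞 K, c • y - y ∈ w.asIdeal := hg
      have h1 := hg' (algebraMap O (𝓞 K) om)
      have h2 : c • (algebraMap O (𝓞 K) om) = (algebraMap O (𝓞 K) om) ^ 2 := by
        apply NumberField.RingOfIntegers.ext
        show c (algebraMap O K om) = _
        rw [hc, cj_om, map_pow]
        rfl
      rw [h2] at h1
      have hrel : (algebraMap O (𝓞 K) om) ^ 2 + algebraMap O (𝓞 K) om + 1 = 0 := by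
        have h := congrArg (algebraMap O (𝓞 K)) om_rel
        simpa only [map_add, map_pow, map_one, map_zero] using h
      apply h3
      have h4 : (3 : 𝓞 K) = ((algebraMap O (𝓞 K) om) ^ 2 - algebraMap O (𝓞 K) om) *
          (-(algebraMap O (𝓞 K) om) ^ 2 + algebraMap O (𝓞 K) om) := by
        generalize algebraMap O (𝓞 K) om = z at hrel
        linear_combination (z ^ 2 - 3 * z + 3) * hrel
      rw [h4]
      exact w.asIdeal.mul_mem_right _ h1
  rw [Ideal.ramificationIdx_tower (R := ℤ) (S := 𝓞 K₀) w₀.asIdeal w.asIdeal, hA w₀ hw₀, hone]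

end H55E
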