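import Mathlib
import Pool.Agent.Lib.H55D.S2

open NumberField IsDedekindDomain

namespace H55E

open H55B H55C

/-! Chunk S2 (M): descent of squares in a quadratic extension k'/k (see H55D/S2 and H55N/DS, where this is done). s in k' with s^2 = a in k, a not a square in k, every
element of k' is u + v s uniquely (complete the square). gamma = the automorphism s -> -s of k'/k, acting on the coefficients of Cub k' = k'[T]/(T^3-2), a field because 2 is not a cube in k'.
gamma(b)^2 = b^2, so gamma b = b or gamma b = -b. gamma b = b: b = cmap c, m = c^2 by injectivity of cmap. gamma b = -b: b = s cmap c, m = a c^2; norms: n^2 = a^3 N(c)^2, nonzero because m is a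
unit, so a is a square in k, contradiction. -/

open Polynomial in
theorem sq_descent (k k' : Type) [Field k] [CharZero k] [Field k'] [Algebra k k']
    (h2 : Module.finrank k k' = 2) (hirr : ¬ ∃ x : k', x ^ 3 = 2) (m : Cub k) (hm : IsUnit m)
    (n : k) (hn : Algebra.norm k m = n ^ 2) (b : Cub k') (hb : cmap (algebraMap k k') m = b ^ 2) :
    ∃ c : Cub k, m = c ^ 2 := by
  haveI : FiniteDimensional k k' := Module.finite_of_finrank_pos (by rw [h2]; norm_num)
  haveI : Algebra.IsQuadraticExtension k k' := ⟨h2⟩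
  haveI : CharZero k' := charZero_of_injective_algebraMap (algebraMap k k').injective
  haveI : IsGalois k k' := inferInstance
  have hcard : Nat.card (k' ≃ₐ[k] k') = 2 := by rw [IsGalois.card_aut_eq_finrank, h2]
  haveI : Finite (k' ≃ₐ[k] k') := Nat.finite_of_card_ne_zero (by rw [hcard]; norm_num)
  haveI : Nontrivial (k' ≃ₐ[k] k') := Finite.one_lt_card_iff_nontrivial.1 (by rw [hcard]; norm_num)
  obtain ⟨c, hc⟩ := exists_ne (1 : k' ≃ₐ[k] k')
  have hall : ∀ f : k' ≃ₐ[k] k', f = 1 ∨ f = c := by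
    intro f
    by_contra hcon
    push Not at hcon
    haveI : Fintype (k' ≃ₐ[k] k') := Fintype.ofFinite _
    classical
    have h3 : ({1, c, f} : Finset (k' ≃ₐ[k] k')).card = 3 := by
      rw [Finset.card_insert_of_notMem, Finset.card_insert_of_notMem, Finset.card_singleton]
      · simpa using hcon.2.symm
      · simp only [Finset.mem_insert, Finset.mem_singleton, not_or]
        exact ⟨hc.symm, hcon.1.symm⟩
    have h4 : ({1, c, f} : Finset (k' ≃ₐ[k] k')).card ≤ Fintype.card (k' ≃ₐ[k] k') :=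
      Finset.card_le_univ _
    rw [h3, ← Nat.card_eq_fintype_card, hcard] at h4
    omega
  have hcc : ∀ x, c (c x) = x := by
    intro x
    rcases hall (c * c) with h | h
    · exact DFunLike.congr_fun h x
    · exact absurd (mul_eq_left.1 h) hc
  have hfix : ∀ x : k', c x = x → ∃ a : k, algebraMap k k' a = x := by
    intro x hx
    refine (IsGalois.mem_range_algebraMap_iff_fixed x).2 fun f => ?_
    rcases hall f with rfl | rfl
    · rfl
    · exact hx
  obtain ⟨x0, hx0⟩ : ∃ x : k', c x ≠ x := by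
    by_contra hcon
    push Not at hcon
    exact hc (AlgEquiv.ext hcon)
  set s : k' := x0 - c x0 with hs
  have hs0 : s ≠ 0 := sub_ne_zero.2 hx0.symm
  have hcs : c s = -s := by
    rw [hs, map_sub, hcc, neg_sub]
  obtain ⟨a, ha⟩ := hfix (s ^ 2) (by rw [map_pow, hcs, neg_sq])
  have ha0 : a ≠ 0 := by
    rintro rfl
    rw [map_zero] at ha
    exact pow_ne_zero 2 hs0 ha.symm
  have hirr' : Fact (Irreducible (X ^ 3 - C 2 : k'[X])) :=
    ⟨X_pow_sub_C_irreducible_of_prime Nat.prime_three fun x hx => hirr ⟨x, hx⟩⟩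
  set g : Cub k' →+* Cub k' := cmap (c : k' →+* k') with hg
  have hgf : ∀ z : Cub k, g (cmap (algebraMap k k') z) = cmap (algebraMap k k') z := by
    intro z
    exact H55D.DS2_comp _ _ _ (fun x => c.commutes x) z
  have hfixg : ∀ z : Cub k', g z = z → ∃ d : Cub k, cmap (algebraMap k k') d = z := by
    intro z hz
    obtain ⟨a₁, a₂, a₃, rfl⟩ := H55D.DS2_span z
    rw [hg, H55D.DS2_map] at hz
    have h1 : (AdjoinRoot.of _ (c a₁ - a₁) + AdjoinRoot.of _ (c a₂ - a₂) * AdjoinRoot.root _ +
        AdjoinRoot.of _ (c a₃ - a₃) * AdjoinRoot.root _ ^ 2 : Cub k') = 0 := by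
      rw [map_sub, map_sub, map_sub]
      have hz' : (AdjoinRoot.of _ (c a₁) + AdjoinRoot.of _ (c a₂) * AdjoinRoot.root _ +
        AdjoinRoot.of _ (c a₃) * AdjoinRoot.root _ ^ 2 : Cub k') = AdjoinRoot.of _ a₁ +
        AdjoinRoot.of _ a₂ * AdjoinRoot.root _ + AdjoinRoot.of _ a₃ * AdjoinRoot.root _ ^ 2 := hz
      linear_combination hz'
    obtain ⟨h2, h3, h4⟩ := H55D.DS2_indep _ _ _ h1
    obtain ⟨b₁, hb₁⟩ := hfix a₁ (sub_eq_zero.1 h2)
    obtain ⟨b₂, hb₂⟩ := hfix a₂ (sub_eq_zero.1 h3)
    obtain ⟨b₃, hb₃⟩ := hfix a₃ (sub_eq_zero.1 h4)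
    exact ⟨AdjoinRoot.of _ b₁ + AdjoinRoot.of _ b₂ * AdjoinRoot.root _ +
      AdjoinRoot.of _ b₃ * AdjoinRoot.root _ ^ 2, by rw [H55D.DS2_map, hb₁, hb₂, hb₃]⟩
  have hsq : g b ^ 2 = b ^ 2 := by
    rw [← map_pow, ← hb, hgf]
  have h0 : (g b - b) * (g b + b) = 0 := by linear_combination hsq
  rcases mul_eq_zero.1 h0 with h1 | h1
  · obtain ⟨d, hd⟩ := hfixg b (sub_eq_zero.1 h1)
    refine ⟨d, ?_⟩
    rw [← sub_eq_zero]
    apply H55D.DS2_inj (algebraMap k k')
    rw [map_sub, map_pow, hd, hb, sub_self]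
  · exfalso
    have hgs : g (AdjoinRoot.of _ s) = -AdjoinRoot.of _ s := by
      rw [hg, H55D.DS2_of, ← map_neg]
      exact congrArg _ hcs
    have h2 : g (AdjoinRoot.of _ s * b) = AdjoinRoot.of _ s * b := by
      rw [map_mul, hgs]
      linear_combination (-AdjoinRoot.of (X ^ 3 - C 2 : k'[X]) s) * h1
    obtain ⟨d, hd⟩ := hfixg _ h2
    have h3 : AdjoinRoot.of _ a * m = d ^ 2 := by
      rw [← sub_eq_zero]
      apply H55D.DS2_inj (algebraMap k k')
      rw [map_sub, map_pow, hd, map_mul, H55D.DS2_of, hb, mul_pow, ha, map_pow, sub_self]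
    have h4 := congrArg (Algebra.norm k) h3
    rw [map_mul, map_pow, H55D.DS2_norm_of, hn] at h4
    have hn0 : n ≠ 0 := by
      intro h5
      have h6 := hm.map (Algebra.norm k)
      rw [hn, h5, zero_pow two_ne_zero] at h6
      exact not_isUnit_zero h6
    set N : k := Algebra.norm k d with hN
    have h5 : a = (N / (a * n)) ^ 2 := by
      field_simp
      linear_combination h4
    have h6 : (s - algebraMap k k' (N / (a * n))) * (s + algebraMap k k' (N / (a * n))) = 0 := by
      have h7 : s ^ 2 = (algebraMap k k' (N / (a * n))) ^ 2 := by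
        rw [← ha, ← map_pow, ← h5]
      linear_combination h7
    have h8 : c s = s := by
      rcases mul_eq_zero.1 h6 with h7 | h7
      · rw [sub_eq_zero.1 h7]
        exact c.commutes _
      · rw [eq_neg_of_add_eq_zero_left h7, map_neg]
        exact congrArg _ (c.commutes _)
    rw [hcs] at h8
    exact hs0 (self_eq_neg.1 h8.symm)

/-- 2 is not a cube in a number field of 2-power degree over F. -/
theorem no_cube (K : Type) [Field K] [NumberField K] [Algebra F K] (k : ℕ)
    (hk : Module.finrank F K = 2 ^ k) : ¬ ∃ x : K, x ^ 3 = 2 := by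
  rintro ⟨x, hx⟩
  exact a5_no_cube K k hk x hx

end H55E
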