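import Mathlib

namespace H55E

/-! Chunk L1 (M, PURE MATHLIB): points of the twist over a finite field. d = 1 + 4c, e = 3c + 12c^2 + 16c^3 = (d^3-1)/4. If η^2 - η = c: δ = 2η - 1, δ^2 = d <> 0, the map
(x, y) -> (d x, δ^3 y + (4η^3 - 6η^2 + 3η - 1)) is a bijection from the solutions of y^2 + y = x^3 to those of y^2 + y = x^3 + e (ring identities using η^2 = η + c; valid in characteristic 2). If
there is no such η: for each x count the y: the number of y with y^2 + y = x^3 plus the number of y' with y'^2 + y' = (dx)^3 + e is 2. Odd characteristic: y^2 + y = u has 1 + chi(1+4u) solutions (quadratic character; complete the square), and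
1 + 4((dx)^3 + e) = d^3(1 + 4x^3), chi(d) = -1 (d = δ^2 would give η = (1+δ)/2). Characteristic 2: e = c (as 12 = 16 = 2 = 0, 3 = 1), d = 1, y^2 + y = u has 0 or 2 solutions, the image A of y -> y^2 + y is a subgroup of
index 2 and c is not in A, so exactly one of u, u + c is in A. x -> dx is a bijection. -/

theorem count_solv (k : Type) [Field k] [Finite k] (c : k) (h : 1 + 4 * c ≠ 0)
    (hs : ∃ η : k, η ^ 2 - η = c) :
    Nat.card {p : k × k // p.2 ^ 2 + p.2 = p.1 ^ 3 + (3 * c + 12 * c ^ 2 + 16 * c ^ 3)} =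
      Nat.card {p : k × k // p.2 ^ 2 + p.2 = p.1 ^ 3} := by
  obtain ⟨η, rfl⟩ := hs
  have hδ : (2 * η - 1) ^ 3 ≠ 0 := by
    intro h0
    apply h
    have h1 : 2 * η - 1 = 0 := pow_eq_zero_iff (three_ne_zero) |>.1 h0
    have h2 : 1 + 4 * (η ^ 2 - η) = (2 * η - 1) ^ 2 := by ring
    rw [h2, h1]
    ring
  let e : k × k ≃ k × k := Equiv.prodCongr (Equiv.mulLeft₀ (1 + 4 * (η ^ 2 - η)) h)
    ((Equiv.mulLeft₀ ((2 * η - 1) ^ 3) hδ).trans
      (Equiv.addRight (4 * η ^ 3 - 6 * η ^ 2 + 3 * η - 1)))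
  refine (Nat.card_congr (Equiv.subtypeEquiv e fun p => ?_)).symm
  have e1 : (e p).1 = (1 + 4 * (η ^ 2 - η)) * p.1 := rfl
  have e2 : (e p).2 = (2 * η - 1) ^ 3 * p.2 + (4 * η ^ 3 - 6 * η ^ 2 + 3 * η - 1) := rfl
  rw [e1, e2, ← sub_eq_zero, ← sub_eq_zero (b := ((1 + 4 * (η ^ 2 - η)) * p.1) ^ 3 + _)]
  have e3 : ((2 * η - 1) ^ 3 * p.2 + (4 * η ^ 3 - 6 * η ^ 2 + 3 * η - 1)) ^ 2 +
      ((2 * η - 1) ^ 3 * p.2 + (4 * η ^ 3 - 6 * η ^ 2 + 3 * η - 1)) -
      (((1 + 4 * (η ^ 2 - η)) * p.1) ^ 3 + (3 * (η ^ 2 - η) + 12 * (η ^ 2 - η) ^ 2 +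
        16 * (η ^ 2 - η) ^ 3)) =
      (1 + 4 * (η ^ 2 - η)) ^ 3 * (p.2 ^ 2 + p.2 - p.1 ^ 3) := by ring
  rw [e3, mul_eq_zero]
  constructor
  · intro h1
    exact Or.inr h1
  · intro h1
    exact h1.resolve_left (pow_ne_zero _ h)

open Classical in
theorem L1_two (k : Type) [Field k] [Fintype k] (c : k) (h : 1 + 4 * c ≠ 0)
    (hs : ¬ ∃ η : k, η ^ 2 - η = c) (u : k) :
    (Finset.univ.filter fun y : k => y ^ 2 + y = u).card +
      (Finset.univ.filter fun y : k => y ^ 2 + y = (1 + 4 * c) ^ 3 * u +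
        (3 * c + 12 * c ^ 2 + 16 * c ^ 3)).card = 2 := by
  have hsub : ∀ (v y0 : k), y0 ^ 2 + y0 = v →
      (Finset.univ.filter fun y : k => y ^ 2 + y = v) ⊆ {y0, -1 - y0} := by
    intro v y0 h0 y hy
    have h1 := (Finset.mem_filter.1 hy).2
    have h2 : (y - y0) * (y + y0 + 1) = 0 := by
      linear_combination h1 - h0
    rw [Finset.mem_insert, Finset.mem_singleton]
    rcases mul_eq_zero.1 h2 with h3 | h3
    · left
      exact sub_eq_zero.1 h3
    · right
      linear_combination h3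
  have hle2 : ∀ v : k, (Finset.univ.filter fun y : k => y ^ 2 + y = v).card ≤ 2 := by
    intro v
    rcases (Finset.univ.filter fun y : k => y ^ 2 + y = v).eq_empty_or_nonempty with he | ⟨y0, hy0⟩
    · rw [he]
      simp
    · exact (Finset.card_le_card (hsub v y0 (Finset.mem_filter.1 hy0).2)).trans
        Finset.card_le_two
  have hle : ∀ u : k, (Finset.univ.filter fun y : k => y ^ 2 + y = u).card +
      (Finset.univ.filter fun y : k => y ^ 2 + y = (1 + 4 * c) ^ 3 * u +
        (3 * c + 12 * c ^ 2 + 16 * c ^ 3)).card ≤ 2 := by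
    intro u
    rcases (Finset.univ.filter fun y : k => y ^ 2 + y = u).eq_empty_or_nonempty with
      he | ⟨y0, hy0⟩
    · rw [he, Finset.card_empty, zero_add]
      exact hle2 _
    rcases (Finset.univ.filter fun y : k => y ^ 2 + y = (1 + 4 * c) ^ 3 * u +
        (3 * c + 12 * c ^ 2 + 16 * c ^ 3)).eq_empty_or_nonempty with he | ⟨y1, hy1⟩
    · rw [he, Finset.card_empty, add_zero]
      exact hle2 _
    have h0 := (Finset.mem_filter.1 hy0).2
    have h1 := (Finset.mem_filter.1 hy1).2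
    have hkey : (2 * y1 + 1) ^ 2 = (1 + 4 * c) ^ 3 * (2 * y0 + 1) ^ 2 := by
      linear_combination 4 * h1 - 4 * (1 + 4 * c) ^ 3 * h0
    by_cases h2 : (2 : k) = 0
    · exfalso
      apply hs
      refine ⟨y1 - y0, ?_⟩
      have h4 : (4 : k) = 0 := by
        have : (4 : k) = 2 * 2 := by norm_num
        rw [this, h2, zero_mul]
      linear_combination h1 - h0 - (y1 * y0 + y1) * h2 + (y0 ^ 2 + y0) * h2 - c * h2 + 0 * h4 +
        (3 * c + 12 * c ^ 2 + 16 * c ^ 3) * h4 * u + c * h2 + c * h2 + (3 * c ^ 2 + 4 * c ^ 3) * h4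
    · by_cases h3 : 2 * y0 + 1 = 0
      · have h4 : 2 * y1 + 1 = 0 := by
          rw [h3] at hkey
          have h5 : (2 * y1 + 1) ^ 2 = 0 := by
            rw [hkey]
            ring
          exact pow_eq_zero_iff two_ne_zero |>.1 h5
        have h5 : ∀ (v y : k), y ^ 2 + y = v → 2 * y + 1 = 0 →
            (Finset.univ.filter fun y : k => y ^ 2 + y = v).card ≤ 1 := by
          intro v y hv hy
          have h6 : -1 - y = y := by linear_combination -hy
          have h7 := Finset.card_le_card (hsub v y hv)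
          rw [h6, Finset.insert_eq_of_mem (Finset.mem_singleton_self y),
            Finset.card_singleton] at h7
          exact h7
        exact add_le_add (h5 u y0 h0 h3) (h5 _ y1 h1 h4)
      · exfalso
        apply hs
        have hden : (1 + 4 * c) * (2 * y0 + 1) ≠ 0 := mul_ne_zero h h3
        refine ⟨(1 + (2 * y1 + 1) / ((1 + 4 * c) * (2 * y0 + 1))) / 2, ?_⟩
        have h6 : ((2 * y1 + 1) / ((1 + 4 * c) * (2 * y0 + 1))) ^ 2 = 1 + 4 * c := by
          rw [div_pow, hkey, div_eq_iff (pow_ne_zero _ hden)]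
          ring
        have h7 : (4 : k) ≠ 0 := by
          have : (4 : k) = 2 * 2 := by norm_num
          rw [this]
          exact mul_ne_zero h2 h2
        generalize (2 * y1 + 1) / ((1 + 4 * c) * (2 * y0 + 1)) = δ at h6 ⊢
        field_simp
        linear_combination h6
  have hsum1 : ∑ v : k, (Finset.univ.filter fun y : k => y ^ 2 + y = v).card = Fintype.card k := by
    have h1 := Finset.card_eq_sum_card_fiberwise (s := (Finset.univ : Finset k))
      (t := (Finset.univ : Finset k)) (f := fun y : k => y ^ 2 + y) (fun _ _ => Finset.mem_univ _)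
    rw [← h1, Finset.card_univ]
  let e : k ≃ k := (Equiv.mulLeft₀ ((1 + 4 * c) ^ 3) (pow_ne_zero _ h)).trans
    (Equiv.addRight (3 * c + 12 * c ^ 2 + 16 * c ^ 3))
  have hsum2 : ∑ u : k, (Finset.univ.filter fun y : k => y ^ 2 + y = (1 + 4 * c) ^ 3 * u +
        (3 * c + 12 * c ^ 2 + 16 * c ^ 3)).card = Fintype.card k := by
    rw [← hsum1]
    exact Equiv.sum_comp e fun v => (Finset.univ.filter fun y : k => y ^ 2 + y = v).card
  have hall : ∑ u : k, ((Finset.univ.filter fun y : k => y ^ 2 + y = u).card +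
      (Finset.univ.filter fun y : k => y ^ 2 + y = (1 + 4 * c) ^ 3 * u +
        (3 * c + 12 * c ^ 2 + 16 * c ^ 3)).card) = ∑ _u : k, 2 := by
    rw [Finset.sum_add_distrib, hsum1, hsum2, Finset.sum_const, Finset.card_univ, smul_eq_mul]
    ring
  exact (Finset.sum_eq_sum_iff_of_le fun u _ => hle u).1 hall u (Finset.mem_univ u)

theorem L1_card (k : Type) [Field k] [Fintype k] [DecidableEq k] (e : k) :
    Nat.card {p : k × k // p.2 ^ 2 + p.2 = p.1 ^ 3 + e} =
      ∑ x : k, (Finset.univ.filter fun y : k => y ^ 2 + y = x ^ 3 + e).card := by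
  rw [Nat.card_congr (Equiv.subtypeProdEquivSigmaSubtype
    fun (x y : k) => y ^ 2 + y = x ^ 3 + e), Nat.card_sigma]
  refine Finset.sum_congr rfl fun x _ => ?_
  rw [Nat.card_eq_fintype_card, Fintype.card_subtype]

theorem count_nonsolv (k : Type) [Field k] [Finite k] (c : k) (h : 1 + 4 * c ≠ 0)
    (hs : ¬ ∃ η : k, η ^ 2 - η = c) :
    Nat.card {p : k × k // p.2 ^ 2 + p.2 = p.1 ^ 3 + (3 * c + 12 * c ^ 2 + 16 * c ^ 3)} +
      Nat.card {p : k × k // p.2 ^ 2 + p.2 = p.1 ^ 3} = 2 * Nat.card k := by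
  classical
  have := Fintype.ofFinite k
  have h1 := L1_card k (3 * c + 12 * c ^ 2 + 16 * c ^ 3)
  have h2 := L1_card k 0
  simp only [add_zero] at h2
  rw [h1, h2, Nat.card_eq_fintype_card,
    ← Equiv.sum_comp (Equiv.mulLeft₀ (1 + 4 * c) h), ← Finset.sum_add_distrib]
  have h3 : ∀ x : k, (Finset.univ.filter fun y : k => y ^ 2 + y =
      ((Equiv.mulLeft₀ (1 + 4 * c) h) x) ^ 3 + (3 * c + 12 * c ^ 2 + 16 * c ^ 3)).card +
      (Finset.univ.filter fun y : k => y ^ 2 + y = x ^ 3).card = 2 := by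
    intro x
    have h4 := L1_two k c h hs (x ^ 3)
    rw [add_comm, ← mul_pow] at h4
    have h5 : (Equiv.mulLeft₀ (1 + 4 * c) h) x = (1 + 4 * c) * x := rfl
    rw [h5]
    convert h4
  rw [Finset.sum_congr rfl fun x _ => h3 x, Finset.sum_const, Finset.card_univ, smul_eq_mul,
    mul_comm]

end H55E
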