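import Mathlib

namespace H55E

/-! Chunk L2 (M, PURE MATHLIB): k a finite field with q = l^f elements, d = 1 mod 4 nonzero in k. f even: all elements of the prime field have roots of X^2 - X - c in k (the field with l^2 elements is
contained in k), and the Jacobi symbol of l^f is a square = 1 (l is prime to d). f odd: solvable in k iff solvable in F_l. l odd: iff d is a square mod l, iff (d/l) = 1, and (d/l) = J(l | |d|) by quadratic reciprocity for Jacobi symbols
(jacobiSym.quadratic_reciprocity etc.; d = 1 mod 4; for d < 0, |d| = 3 mod 4 and J(-1 | l) compensates the sign). l = 2: iff (d-1)/4 is even iff d = 1 mod 8 iff |d| = 1, 7 mod 8 iff J(2 | |d|) = 1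
(jacobiSym.at_two, ZMod.χ₈). -/

open NumberTheorySymbols in
theorem L2_recip (d : ℤ) (h4 : d % 4 = 1) (b : ℕ) (hb : Odd b) :
    jacobiSym d b = jacobiSym b d.natAbs := by
  rcases le_total 0 d with hd | hd
  · obtain ⟨n, rfl⟩ := Int.eq_ofNat_of_zero_le hd
    have hn : n % 4 = 1 := by omega
    rw [Int.natAbs_natCast]
    exact jacobiSym.quadratic_reciprocity_one_mod_four hn hb
  · obtain ⟨n, hn⟩ := Int.eq_ofNat_of_zero_le (neg_nonneg.2 hd)
    obtain rfl : d = -(n : ℤ) := by omega
    have hn3 : n % 4 = 3 := by omega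
    have hodd : Odd n := Nat.odd_iff.2 (by omega)
    rw [Int.natAbs_neg, Int.natAbs_natCast, jacobiSym.neg _ hb]
    rcases Nat.odd_mod_four_iff.1 (Nat.odd_iff.1 hb) with hb1 | hb3
    · rw [ZMod.χ₄_nat_one_mod_four hb1, one_mul]
      exact jacobiSym.quadratic_reciprocity_one_mod_four' hodd hb1
    · rw [ZMod.χ₄_nat_three_mod_four hb3,
        jacobiSym.quadratic_reciprocity_three_mod_four hn3 hb3]
      ring

theorem L2_pow (k : Type) [Field k] (l : ℕ) [Fact l.Prime] [CharP k l] (hl : l ≠ 2) (d : ℤ)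
    (h0 : (d : k) ≠ 0) (f : ℕ) : (d : k) ^ (l ^ f / 2) = ((legendreSym l d ^ f : ℤ) : k) := by
  have hodd : l % 2 = 1 := (Fact.out : l.Prime).eq_two_or_odd.resolve_left hl
  have h0' : (d : ZMod l) ≠ 0 := by
    intro h
    apply h0
    have h1 := congrArg (ZMod.castHom (dvd_refl l) k) h
    rwa [map_intCast, map_zero] at h1
  have hε := legendreSym.eq_one_or_neg_one l h0'
  have hεl : ((legendreSym l d : ℤ) : k) ^ l = ((legendreSym l d : ℤ) : k) := by
    rcases hε with h | h
    · rw [h]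
      simp
    · rw [h]
      push_cast
      exact Odd.neg_one_pow (Nat.odd_iff.2 hodd)
  have h1 : ((legendreSym l d : ℤ) : k) = (d : k) ^ (l / 2) := by
    have h2 := congrArg (ZMod.castHom (dvd_refl l) k) (legendreSym.eq_pow l d)
    rwa [map_intCast, map_pow, map_intCast] at h2
  induction f with
  | zero => simp
  | succ f ih =>
    have h3 : l ^ (f + 1) / 2 = l * (l ^ f / 2) + l / 2 := by
      have h4 : (l ^ f) % 2 = 1 := by
        simp [Nat.pow_mod, hodd]
      obtain ⟨a, ha⟩ : ∃ a, l ^ f = 2 * a + 1 := ⟨l ^ f / 2, by omega⟩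
      obtain ⟨b, hb⟩ : ∃ b, l = 2 * b + 1 := ⟨l / 2, by omega⟩
      have h5 : l ^ (f + 1) = 2 * (l * a + b) + 1 := by
        rw [pow_succ, ha]
        nlinarith
      have h6 : l ^ f / 2 = a := by omega
      have h7 : l / 2 = b := by omega
      rw [h5, h6, h7]
      omega
    rw [h3, pow_add, pow_mul', ih, ← h1]
    push_cast
    rw [← pow_mul, mul_comm f l, pow_mul, hεl, pow_succ]

theorem L2_odd (k : Type) [Field k] [Finite k] (l : ℕ) [Fact l.Prime] [CharP k l] (hl : l ≠ 2)
    (f : ℕ) (hf : Nat.card k = l ^ f)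
    (d : ℤ) (h4 : d % 4 = 1) (h0 : (d : k) ≠ 0) :
    ((∃ η : k, η ^ 2 - η = (((d - 1) / 4 : ℤ) : k)) ∧ jacobiSym (Nat.card k) d.natAbs = 1) ∨
    ((¬ ∃ η : k, η ^ 2 - η = (((d - 1) / 4 : ℤ) : k)) ∧ jacobiSym (Nat.card k) d.natAbs = -1) := by
  classical
  have := Fintype.ofFinite k
  have hodd : l % 2 = 1 := (Fact.out : l.Prime).eq_two_or_odd.resolve_left hl
  have h2 : (2 : k) ≠ 0 := by
    intro h
    have h1 : ((2 : ℕ) : k) = 0 := by exact_mod_cast h
    rw [CharP.cast_eq_zero_iff k l] at h1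
    have h3 := Nat.le_of_dvd (by norm_num) h1
    have h5 := (Fact.out : l.Prime).two_le
    omega
  have hc : (4 : k) * (((d - 1) / 4 : ℤ) : k) + 1 = (d : k) := by
    have h1 : 4 * ((d - 1) / 4) + 1 = d := by omega
    have h3 := congrArg (fun z : ℤ => (z : k)) h1
    push_cast at h3
    exact h3
  have hiff : (∃ η : k, η ^ 2 - η = (((d - 1) / 4 : ℤ) : k)) ↔ IsSquare (d : k) := by
    constructor
    · rintro ⟨η, hη⟩
      refine ⟨2 * η - 1, ?_⟩
      rw [← hc, ← hη]
      ring
    · rintro ⟨r, hr⟩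
      refine ⟨(1 + r) / 2, ?_⟩
      have h7 : (4 : k) ≠ 0 := by
        have : (4 : k) = 2 * 2 := by norm_num
        rw [this]
        exact mul_ne_zero h2 h2
      apply mul_left_cancel₀ h7
      have h8 : (4 : k) * (((1 + r) / 2) ^ 2 - (1 + r) / 2) = r * r - 1 := by
        field_simp
        ring
      rw [h8, ← hr, ← hc]
      ring
  have hchar : ringChar k ≠ 2 := by
    rw [ringChar.eq k l]
    exact hl
  have h0' : (d : ZMod l) ≠ 0 := by
    intro h
    apply h0
    have h1 := congrArg (ZMod.castHom (dvd_refl l) k) h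
    rwa [map_intCast, map_zero] at h1
  have hJ : jacobiSym (Nat.card k) d.natAbs = legendreSym l d ^ f := by
    rw [← L2_recip d h4 (Nat.card k) (by
      rw [hf]
      exact (Nat.odd_iff.2 hodd).pow), hf, jacobiSym.pow_right, ← jacobiSym.legendreSym.to_jacobiSym]
  have hsq : IsSquare (d : k) ↔ ((legendreSym l d ^ f : ℤ) : k) = 1 := by
    rw [FiniteField.isSquare_iff hchar h0, ← Nat.card_eq_fintype_card, hf, L2_pow k l hl d h0 f]
  rw [hiff, hJ, hsq]
  have hε : legendreSym l d ^ f = 1 ∨ legendreSym l d ^ f = -1 := by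
    rcases legendreSym.eq_one_or_neg_one l h0' with h | h
    · left
      rw [h, one_pow]
    · rw [h]
      exact neg_one_pow_eq_or ℤ f
  rcases hε with h | h
  · left
    rw [h]
    simp
  · right
    rw [h]
    refine ⟨?_, rfl⟩
    push_cast
    intro h1
    apply h2
    linear_combination -h1

theorem L2_even (k : Type) [Field k] [Finite k] [CharP k 2]
    (f : ℕ) (hf : Nat.card k = 2 ^ f) (d : ℤ) (h4 : d % 4 = 1) :
    ((∃ η : k, η ^ 2 - η = (((d - 1) / 4 : ℤ) : k)) ∧ jacobiSym (Nat.card k) d.natAbs = 1) ∨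
    ((¬ ∃ η : k, η ^ 2 - η = (((d - 1) / 4 : ℤ) : k)) ∧ jacobiSym (Nat.card k) d.natAbs = -1) := by
  classical
  have := Fintype.ofFinite k
  have h2 : (2 : k) = 0 := by
    have h := CharP.cast_eq_zero k 2
    exact_mod_cast h
  have hodd : Odd d.natAbs := Nat.odd_iff.2 (by omega)
  have hJ : jacobiSym (Nat.card k) d.natAbs = ZMod.χ₈ d.natAbs ^ f := by
    rw [hf]
    push_cast
    rw [jacobiSym.pow_left, jacobiSym.at_two hodd]
  rw [hJ, ZMod.χ₈_nat_eq_if_mod_eight, if_neg (by omega)]
  by_cases h8 : d % 8 = 1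
  · left
    refine ⟨⟨0, ?_⟩, ?_⟩
    · obtain ⟨m, hm⟩ : ∃ m, (d - 1) / 4 = 2 * m := ⟨(d - 1) / 8, by omega⟩
      rw [hm]
      push_cast
      rw [h2]
      ring
    · rw [if_pos (by omega), one_pow]
  have hc : (((d - 1) / 4 : ℤ) : k) = 1 := by
    obtain ⟨m, hm⟩ : ∃ m, (d - 1) / 4 = 2 * m + 1 := ⟨(d - 5) / 8, by omega⟩
    rw [hm]
    push_cast
    rw [h2]
    ring
  rw [hc, if_neg (by omega)]
  have hroot : (∃ η : k, η ^ 2 - η = 1) ↔ Even f := by
    have hunits : Fintype.card kˣ = 2 ^ f - 1 := by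
      rw [Fintype.card_units, ← Nat.card_eq_fintype_card, hf]
    constructor
    · rintro ⟨η, hη⟩
      by_contra hne
      rw [Nat.not_even_iff_odd] at hne
      obtain ⟨m, rfl⟩ := hne
      have h3 : η ^ 3 = 1 := by
        linear_combination (η + 1) * hη + (η + 0) * h2
      have hη0 : η ≠ 0 := by
        rintro rfl
        simp at h3
      have hη1 : η ≠ 1 := by
        rintro rfl
        simp at hη
      let u : kˣ := Units.mk0 η hη0
      have hu3 : orderOf u = 3 := by
        apply orderOf_eq_prime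
        · apply Units.ext
          rw [Units.val_pow_eq_pow_val]
          exact h3
        · intro h
          exact hη1 (congrArg Units.val h)
      have h5 := orderOf_dvd_card (x := u)
      rw [hu3, hunits] at h5
      have h6 : 2 ^ (2 * m + 1) % 3 = 2 := by
        rw [pow_add, pow_mul, Nat.mul_mod, Nat.pow_mod]
        norm_num
      have h7 : 0 < 2 ^ (2 * m + 1) := by positivity
      generalize 2 ^ (2 * m + 1) = q at h5 h6 h7
      omega
    · rintro ⟨m, rfl⟩
      have h6 : 2 ^ (m + m) % 3 = 1 := by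
        rw [← two_mul, pow_mul, Nat.pow_mod]
        norm_num
      have h5 : 3 ∣ Fintype.card kˣ := by
        rw [hunits]
        have h7 : 0 < 2 ^ (m + m) := by positivity
        omega
      have : Fact (Nat.Prime 3) := ⟨Nat.prime_three⟩
      obtain ⟨u, hu⟩ := exists_prime_orderOf_dvd_card 3 h5
      refine ⟨u, ?_⟩
      have h8 : (u : k) ^ 3 = 1 := by
        have h9 := pow_orderOf_eq_one u
        rw [hu] at h9
        have h10 := congrArg Units.val h9
        rwa [Units.val_pow_eq_pow_val] at h10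
      have h11 : (u : k) ≠ 1 := by
        intro h
        have h12 : u = 1 := Units.ext h
        rw [h12, orderOf_one] at hu
        omega
      have h13 : ((u : k) - 1) * ((u : k) ^ 2 + u + 1) = 0 := by linear_combination h8
      have h14 := (mul_eq_zero.1 h13).resolve_left (sub_ne_zero.2 h11)
      linear_combination h14 - (u + 1) * h2
  rw [hroot]
  rcases Nat.even_or_odd f with hf' | hf'
  · left
    exact ⟨hf', hf'.neg_one_pow⟩
  · right
    exact ⟨Nat.not_even_iff_odd.2 hf', hf'.neg_one_pow⟩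

theorem solv_jacobi (k : Type) [Field k] [Finite k] (d : ℤ) (h4 : d % 4 = 1) (h0 : (d : k) ≠ 0) :
    ((∃ η : k, η ^ 2 - η = (((d - 1) / 4 : ℤ) : k)) ∧ jacobiSym (Nat.card k) d.natAbs = 1) ∨
    ((¬ ∃ η : k, η ^ 2 - η = (((d - 1) / 4 : ℤ) : k)) ∧ jacobiSym (Nat.card k) d.natAbs = -1) := by
  have := Fintype.ofFinite k
  obtain ⟨l, hl⟩ := CharP.exists k
  obtain ⟨n, hp, hn⟩ := FiniteField.card k l
  rw [← Nat.card_eq_fintype_card] at hn
  have : Fact l.Prime := ⟨hp⟩
  by_cases h2 : l = 2
  · subst h2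
    exact L2_even k n hn d h4
  · exact L2_odd k l h2 n hn d h4 h0

end H55E
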