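import Mathlib
import Pool.Agent.Lib.H55D.Q3
import Pool.Agent.Lib.H55E.Defs

open NumberField IsDedekindDomain Polynomial

namespace H55E

open H55B H55C

/-! Chunk L3 (M): good reduction: H55B/F1 (good_local) with the curve y^2 + y = x^3 + a, a in R, 27 (1+4a)^2 a unit (discriminant -27 (1+4a)^2, b2 = b4 = 0, b6 = 1 + 4a); adapt F1 (F1_core, F1_good, F1_count). loc_good_d: as
H55D.loc_good0: a = (d^3-1)/4 = 3c + 12c^2 + 16c^3 with c = (d-1)/4 in Z; 1 + 4a = d^3. -/

theorem L3_Δ (K : Type*) [CommRing K] (a : K) :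
    (⟨0, 0, 1, 0, a⟩ : WeierstrassCurve K).Δ = -27 * (1 + 4 * a) ^ 2 := by
  simp [WeierstrassCurve.Δ, WeierstrassCurve.b₂, WeierstrassCurve.b₄, WeierstrassCurve.b₆,
    WeierstrassCurve.b₈]

theorem L3_isUnit {R : Type*} [CommRing R] (a : R) (h3 : IsUnit (3 : R))
    (ha : IsUnit (1 + 4 * a)) : IsUnit (-27 * (1 + 4 * a) ^ 2) :=
  (F1_isUnit27 h3).mul (ha.pow 2)

theorem L3_good (R : Type*) [CommRing R] [IsDomain R] [IsDiscreteValuationRing R] (K : Type*)
    [Field K] [Algebra R K] [IsFractionRing R K] (a : R) (h3 : IsUnit (3 : R))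
    (ha : IsUnit (1 + 4 * a)) :
    ((⟨0, 0, 1, 0, algebraMap R K a⟩ : WeierstrassCurve K).minimal R).HasGoodReduction R := by
  set W : WeierstrassCurve K := ⟨0, 0, 1, 0, algebraMap R K a⟩ with hW
  obtain ⟨C, hC⟩ : ∃ C : WeierstrassCurve.VariableChange K, W.minimal R = C • W := ⟨_, rfl⟩
  have hmin : WeierstrassCurve.IsMinimal R (W.minimal R) := inferInstance
  rw [WeierstrassCurve.hasGoodReduction_iff]
  refine ⟨hmin, ?_⟩
  have hWint : WeierstrassCurve.IsIntegral R W := by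
    refine ⟨⟨⟨0, 0, 1, 0, a⟩, ?_⟩⟩
    rw [hW]
    ext <;> simp [WeierstrassCurve.baseChange]
  have hback : C⁻¹ • W.minimal R = W := by rw [hC, inv_smul_smul]
  have hmax := hmin.val_Δ_maximal
  have hj : WeierstrassCurve.IsIntegral R (C⁻¹ • W.minimal R) := by rw [hback]; exact hWint
  have hval : (WeierstrassCurve.valuation_Δ_aux R (C⁻¹ • W.minimal R)).1 = 1 := by
    rw [hback]
    rw [WeierstrassCurve.valuation_Δ_aux_eq_of_isIntegral, hW, L3_Δ]
    have := F1_val_unit R K (L3_isUnit a h3 ha)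
    have e : algebraMap R K (-27 * (1 + 4 * a) ^ 2) = -27 * (1 + 4 * algebraMap R K a) ^ 2 := by
      simp only [map_mul, map_neg, map_pow, map_add, map_one, map_ofNat]
    rw [e] at this
    exact this
  have hle : WeierstrassCurve.valuation_Δ_aux R ((1 : WeierstrassCurve.VariableChange K) •
      W.minimal R) ≤ WeierstrassCurve.valuation_Δ_aux R (C⁻¹ • W.minimal R) := by
    rw [← Subtype.coe_le_coe, hval]
    exact (WeierstrassCurve.valuation_Δ_aux R _).2
  have hge := hmax.2 hj hle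
  rw [← Subtype.coe_le_coe, hval] at hge
  change 1 ≤ (WeierstrassCurve.valuation_Δ_aux R ((1 : WeierstrassCurve.VariableChange K) •
      W.minimal R)).1 at hge
  rw [one_smul, WeierstrassCurve.valuation_Δ_aux_eq_of_isIntegral] at hge
  refine le_antisymm ?_ hge
  obtain ⟨r, hr⟩ := WeierstrassCurve.Δ_integral_of_isIntegral R (W.minimal R)
  rw [← hr]
  exact IsDedekindDomain.HeightOneSpectrum.valuation_le_one _ _

theorem L3_core (R : Type*) [CommRing R] [IsDomain R] [IsDiscreteValuationRing R] (K : Type*)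
    [Field K] [Algebra R K] [IsFractionRing R K] (a : R) (h3 : IsUnit (3 : R))
    (ha : IsUnit (1 + 4 * a)) :
    ∃ C : WeierstrassCurve.VariableChange R,
      WeierstrassCurve.integralModel R
          ((⟨0, 0, 1, 0, algebraMap R K a⟩ : WeierstrassCurve K).minimal R) =
        C • (⟨0, 0, 1, 0, a⟩ : WeierstrassCurve R) := by
  set W : WeierstrassCurve K := ⟨0, 0, 1, 0, algebraMap R K a⟩ with hW
  obtain ⟨C, hC⟩ : ∃ C : WeierstrassCurve.VariableChange K, W.minimal R = C • W := ⟨_, rfl⟩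
  set I := WeierstrassCurve.integralModel R (W.minimal R) with hI
  have inj : Function.Injective (algebraMap R K) := IsFractionRing.injective R K
  -- the discriminant of the integral model is a unit
  have hΔ : IsUnit I.Δ := by
    have hg := (L3_good R K a h3 ha).goodReduction
    rw [← WeierstrassCurve.integralModel_Δ_eq R] at hg
    by_contra h
    have := (IsDedekindDomain.HeightOneSpectrum.valuation_lt_one_iff_mem
      (K := K) (IsDiscreteValuationRing.maximalIdeal R) I.Δ).2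
      ((IsLocalRing.mem_maximalIdeal _).2 h)
    exact absurd hg this.ne
  have eΔ : algebraMap R K I.Δ =
      ((C.u⁻¹ : Kˣ) : K) ^ 12 * (-27 * (1 + 4 * algebraMap R K a) ^ 2) := by
    rw [hI, WeierstrassCurve.integralModel_Δ_eq, hC, WeierstrassCurve.variableChange_Δ, hW, L3_Δ]
  have eb₈ : algebraMap R K I.b₈ = ((C.u⁻¹ : Kˣ) : K) ^ 8 *
      (3 * C.r * (1 + 4 * algebraMap R K a) + 3 * C.r ^ 4) := by
    rw [hI, WeierstrassCurve.integralModel_b₈_eq, hC, WeierstrassCurve.variableChange_b₈, hW]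
    simp [WeierstrassCurve.b₂, WeierstrassCurve.b₄, WeierstrassCurve.b₆, WeierstrassCurve.b₈]
  have ea₂ : algebraMap R K I.a₂ = ((C.u⁻¹ : Kˣ) : K) ^ 2 * (3 * C.r - C.s ^ 2) := by
    rw [hI, WeierstrassCurve.integralModel_a₂_eq, hC, WeierstrassCurve.variableChange_a₂, hW]
    simp
  have ea₆ : algebraMap R K I.a₆ = ((C.u⁻¹ : Kˣ) : K) ^ 6 *
      (algebraMap R K a + C.r ^ 3 - C.t - C.t ^ 2) := by
    rw [hI, WeierstrassCurve.integralModel_a₆_eq, hC, WeierstrassCurve.variableChange_a₆, hW]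
    simp
  set u : K := (C.u : K) with hu
  have hu0 : u ≠ 0 := C.u.ne_zero
  have huinv : ((C.u⁻¹ : Kˣ) : K) = u⁻¹ := Units.val_inv_eq_inv_val _
  rw [huinv] at eΔ eb₈ ea₂ ea₆
  obtain ⟨d, hd⟩ := hΔ
  obtain ⟨m, hm⟩ := L3_isUnit a h3 ha
  have hm' : algebraMap R K m = -27 * (1 + 4 * algebraMap R K a) ^ 2 := by
    rw [hm]
    simp only [map_mul, map_neg, map_pow, map_add, map_one, map_ofNat]
  -- u is integral
  have hdm : algebraMap R K d = u⁻¹ ^ 12 * algebraMap R K m := by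
    rw [hd, eΔ, hm']
  have hu12 : u ^ 12 = algebraMap R K ((m : R) * ((d⁻¹ : Rˣ) : R)) := by
    rw [map_mul]
    have h1 : algebraMap R K d * algebraMap R K ((d⁻¹ : Rˣ) : R) = 1 := by
      rw [← map_mul, Units.mul_inv, map_one]
    have h2 : u ^ 12 * algebraMap R K d = algebraMap R K m := by
      rw [hdm, inv_pow, mul_inv_cancel_left₀ (pow_ne_zero _ hu0)]
    calc u ^ 12 = u ^ 12 * (algebraMap R K d * algebraMap R K ((d⁻¹ : Rˣ) : R)) := by rw [h1, mul_one]
      _ = (u ^ 12 * algebraMap R K d) * algebraMap R K ((d⁻¹ : Rˣ) : R) := by ring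
      _ = _ := by rw [h2]
  have huinv12 : u⁻¹ ^ 12 = algebraMap R K ((d : R) * ((m⁻¹ : Rˣ) : R)) := by
    rw [map_mul]
    have h1 : algebraMap R K m * algebraMap R K ((m⁻¹ : Rˣ) : R) = 1 := by
      rw [← map_mul, Units.mul_inv, map_one]
    rw [hdm, mul_assoc, h1, mul_one]
  obtain ⟨u₀, hu₀⟩ : ∃ u₀ : R, algebraMap R K u₀ = u := by
    apply IsIntegrallyClosed.exists_algebraMap_eq_of_isIntegral_pow (n := 12) (by norm_num)
    rw [hu12]; exact isIntegral_algebraMap
  obtain ⟨v₀, hv₀⟩ : ∃ v₀ : R, algebraMap R K v₀ = u⁻¹ := by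
    apply IsIntegrallyClosed.exists_algebraMap_eq_of_isIntegral_pow (n := 12) (by norm_num)
    rw [huinv12]; exact isIntegral_algebraMap
  have huv : u₀ * v₀ = 1 := by
    apply inj
    rw [map_mul, hu₀, hv₀, map_one, mul_inv_cancel₀ hu0]
  -- r
  obtain ⟨w3, hw3⟩ := h3
  have hw3' : algebraMap R K ((w3⁻¹ : Rˣ) : R) * 3 = 1 := by
    have : (3 : K) = algebraMap R K (w3 : R) := by rw [hw3, map_ofNat]
    rw [this, ← map_mul, Units.inv_mul, map_one]
  have hr4 : C.r ^ 4 + algebraMap R K (1 + 4 * a) * C.r =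
      algebraMap R K (((w3⁻¹ : Rˣ) : R) * (u₀ ^ 8 * I.b₈)) := by
    rw [map_mul, map_mul, map_pow, hu₀, eb₈]
    have e1 : algebraMap R K (1 + 4 * a) = 1 + 4 * algebraMap R K a := by
      simp only [map_mul, map_add, map_one, map_ofNat]
    have : u ^ 8 * (u⁻¹ ^ 8 * (3 * C.r * (1 + 4 * algebraMap R K a) + 3 * C.r ^ 4)) =
        3 * ((1 + 4 * algebraMap R K a) * C.r + C.r ^ 4) := by
      field_simp
    rw [this, ← mul_assoc, hw3', one_mul, e1]; ring
  obtain ⟨r₀, hr₀⟩ : ∃ r₀ : R, algebraMap R K r₀ = C.r := by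
    rw [← IsIntegrallyClosed.isIntegral_iff]
    refine ⟨Polynomial.X ^ 4 + Polynomial.C (1 + 4 * a) * Polynomial.X -
      Polynomial.C (((w3⁻¹ : Rˣ) : R) * (u₀ ^ 8 * I.b₈)), ?_, ?_⟩
    · monicity!
    · simp only [Polynomial.eval₂_sub, Polynomial.eval₂_add, Polynomial.eval₂_pow,
        Polynomial.eval₂_X, Polynomial.eval₂_C, Polynomial.eval₂_mul]
      rw [hr4, sub_self]
  obtain ⟨s₀, hs₀⟩ : ∃ s₀ : R, algebraMap R K s₀ = C.s := by
    apply IsIntegrallyClosed.exists_algebraMap_eq_of_isIntegral_pow (n := 2) (by norm_num)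
    have : C.s ^ 2 = algebraMap R K (3 * r₀ - u₀ ^ 2 * I.a₂) := by
      rw [map_sub, map_mul, map_mul, map_pow, hu₀, hr₀, ea₂]
      have : u ^ 2 * (u⁻¹ ^ 2 * (3 * C.r - C.s ^ 2)) = 3 * C.r - C.s ^ 2 := by
        field_simp
      rw [this, map_ofNat]; ring
    rw [this]; exact isIntegral_algebraMap
  obtain ⟨t₀, ht₀⟩ : ∃ t₀ : R, algebraMap R K t₀ = C.t := by
    rw [← IsIntegrallyClosed.isIntegral_iff]
    have ht2 : C.t ^ 2 + C.t = algebraMap R K (a + r₀ ^ 3 - u₀ ^ 6 * I.a₆) := by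
      rw [map_sub, map_mul, map_add, map_pow, map_pow, hu₀, hr₀, ea₆]
      have : u ^ 6 * (u⁻¹ ^ 6 * (algebraMap R K a + C.r ^ 3 - C.t - C.t ^ 2)) =
          algebraMap R K a + C.r ^ 3 - C.t - C.t ^ 2 := by
        field_simp
      rw [this]; ring
    refine ⟨Polynomial.X ^ 2 + Polynomial.X - Polynomial.C (a + r₀ ^ 3 - u₀ ^ 6 * I.a₆), ?_, ?_⟩
    · monicity!
    · simp only [Polynomial.eval₂_sub, Polynomial.eval₂_add, Polynomial.eval₂_pow,
        Polynomial.eval₂_X, Polynomial.eval₂_C]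
      rw [ht2, sub_self]
  refine ⟨⟨⟨u₀, v₀, huv, by rw [mul_comm]; exact huv⟩, r₀, s₀, t₀⟩, ?_⟩
  have hmapinj : Function.Injective
      (fun E : WeierstrassCurve R => E.map (algebraMap R K)) := WeierstrassCurve.map_injective inj
  apply hmapinj
  show I.map (algebraMap R K) = (_ : WeierstrassCurve R).map (algebraMap R K)
  rw [← WeierstrassCurve.map_variableChange]
  have e1 : I.map (algebraMap R K) = W.minimal R := WeierstrassCurve.baseChange_integralModel_eq R _
  rw [e1, hC]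
  congr 1
  · ext
    · show u = algebraMap R K u₀
      rw [hu₀]
    · exact hr₀.symm
    · exact hs₀.symm
    · exact ht₀.symm
  · rw [hW]
    ext <;> simp [WeierstrassCurve.map]

theorem L3_count (k : Type*) [Field k] [Finite k] (D : WeierstrassCurve.VariableChange k) (a : k)
    (h27 : -27 * (1 + 4 * a) ^ 2 ≠ 0) :
    Nat.card ((D • (⟨0, 0, 1, 0, a⟩ : WeierstrassCurve k)).toAffine.Point) =
      Nat.card {p : k × k // p.2 ^ 2 + p.2 = p.1 ^ 3 + a} + 1 := by
  set E : WeierstrassCurve k := D • (⟨0, 0, 1, 0, a⟩ : WeierstrassCurve k) with hE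
  have hΔ : E.Δ ≠ 0 := by
    rw [hE, WeierstrassCurve.variableChange_Δ, L3_Δ]
    exact mul_ne_zero (pow_ne_zero _ (D.u⁻¹).ne_zero) h27
  rw [Nat.card_congr E.toAffine.nonsingularPointEquiv]
  have h1 : Nat.card (WithZero {xy : k × k // E.toAffine.Nonsingular xy.fst xy.snd}) =
      Nat.card {xy : k × k // E.toAffine.Nonsingular xy.fst xy.snd} + 1 := by
    have : Finite {xy : k × k // E.toAffine.Nonsingular xy.fst xy.snd} := inferInstance
    exact Finite.card_option
  rw [h1]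
  congr 1
  have hu0 : (D.u : k) ≠ 0 := D.u.ne_zero
  have huinv : ((D.u⁻¹ : kˣ) : k) = (D.u : k)⁻¹ := Units.val_inv_eq_inv_val _
  have key : ∀ x y : k, E.toAffine.Nonsingular x y ↔
      ((D.u : k) ^ 3 * y + (D.u : k) ^ 2 * D.s * x + D.t) ^ 2 +
        ((D.u : k) ^ 3 * y + (D.u : k) ^ 2 * D.s * x + D.t) =
        ((D.u : k) ^ 2 * x + D.r) ^ 3 + a := by
    intro x y
    rw [← WeierstrassCurve.Affine.equation_iff_nonsingular_of_Δ_ne_zero (W := E.toAffine) hΔ,
      WeierstrassCurve.Affine.equation_iff']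
    have h6 : (D.u : k) ^ 6 ≠ 0 := pow_ne_zero _ hu0
    rw [← mul_right_inj' h6, mul_zero, ← sub_eq_zero (a := _ + _)]
    have : ∀ a b : k, a = b → (a = 0 ↔ b = 0) := fun a b h => by rw [h]
    apply this
    rw [hE]
    simp only [WeierstrassCurve.variableChange_a₁, WeierstrassCurve.variableChange_a₂,
      WeierstrassCurve.variableChange_a₃, WeierstrassCurve.variableChange_a₄,
      WeierstrassCurve.variableChange_a₆, huinv]
    field_simp
    ring
  refine Nat.card_congr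
    ⟨fun p => ⟨((D.u : k) ^ 2 * p.1.1 + D.r,
        (D.u : k) ^ 3 * p.1.2 + (D.u : k) ^ 2 * D.s * p.1.1 + D.t), (key _ _).1 p.2⟩,
      fun q => ⟨(((D.u : k)⁻¹) ^ 2 * (q.1.1 - D.r),
        ((D.u : k)⁻¹) ^ 3 * (q.1.2 - D.s * (q.1.1 - D.r) - D.t)), ?_⟩, ?_, ?_⟩
  · rw [key]
    have e1 : (D.u : k) ^ 2 * (((D.u : k)⁻¹) ^ 2 * (q.1.1 - D.r)) + D.r = q.1.1 := by
      field_simp; ring
    have e2 : (D.u : k) ^ 3 * (((D.u : k)⁻¹) ^ 3 * (q.1.2 - D.s * (q.1.1 - D.r) - D.t)) +
        (D.u : k) ^ 2 * D.s * (((D.u : k)⁻¹) ^ 2 * (q.1.1 - D.r)) + D.t = q.1.2 := by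
      field_simp; ring
    simp only [e1, e2]
    exact q.2
  · rintro ⟨⟨x, y⟩, h⟩
    simp only [Subtype.mk.injEq, Prod.mk.injEq]
    constructor
    · field_simp <;> ring
    · field_simp <;> ring
  · rintro ⟨⟨x, y⟩, h⟩
    simp only [Subtype.mk.injEq, Prod.mk.injEq]
    constructor
    · field_simp <;> ring
    · field_simp <;> ring

theorem good_local_a (R : Type*) [CommRing R] [IsDomain R] [IsDiscreteValuationRing R] (K : Type*)
    [Field K] [Algebra R K] [IsFractionRing R K] [Finite (IsLocalRing.ResidueField R)] (a : R)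
    (h3 : IsUnit (3 : R)) (ha : IsUnit (1 + 4 * a)) :
    (⟨0, 0, 1, 0, algebraMap R K a⟩ : WeierstrassCurve K).localPolynomial R =
      1 - C ((Nat.card (IsLocalRing.ResidueField R) : ℤ) -
        Nat.card {p : IsLocalRing.ResidueField R × IsLocalRing.ResidueField R //
          p.2 ^ 2 + p.2 = p.1 ^ 3 + IsLocalRing.residue R a}) * X +
        C (Nat.card (IsLocalRing.ResidueField R) : ℤ) * X ^ 2 := by
  obtain ⟨D, hD⟩ := L3_core R K a h3 ha
  have hred : ((⟨0, 0, 1, 0, algebraMap R K a⟩ : WeierstrassCurve K).minimal R).reduction R =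
      (D.map (IsLocalRing.residue R)) •
        (⟨0, 0, 1, 0, IsLocalRing.residue R a⟩ :
          WeierstrassCurve (IsLocalRing.ResidueField R)) := by
    unfold WeierstrassCurve.reduction
    rw [hD, ← WeierstrassCurve.map_variableChange]
    have : (⟨0, 0, 1, 0, a⟩ : WeierstrassCurve R).map (IsLocalRing.residue R) =
        (⟨0, 0, 1, 0, IsLocalRing.residue R a⟩ :
          WeierstrassCurve (IsLocalRing.ResidueField R)) := by
      ext <;> simp [WeierstrassCurve.map]
    rw [this]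
  have h27 : -27 * (1 + 4 * IsLocalRing.residue R a) ^ 2 ≠ 0 := by
    have h := (L3_isUnit a h3 ha).map (IsLocalRing.residue R)
    have h' := h.ne_zero
    have e : IsLocalRing.residue R (-27 * (1 + 4 * a) ^ 2) =
        -27 * (1 + 4 * IsLocalRing.residue R a) ^ 2 := by
      simp only [map_mul, map_neg, map_pow, map_add, map_one, map_ofNat]
    rw [e] at h'
    exact h'
  have hcount := L3_count (IsLocalRing.ResidueField R) (D.map (IsLocalRing.residue R))
    (IsLocalRing.residue R a) h27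
  unfold WeierstrassCurve.localPolynomial
  rw [if_pos (L3_good R K a h3 ha), hred, hcount]
  push_cast
  congr 3
  congr 1
  ring

theorem L3_cnt (k k' : Type) [Field k] [Finite k] [Field k'] [Finite k']
    (h : Nat.card k = Nat.card k') (c : ℤ) :
    Nat.card {p : k × k // p.2 ^ 2 + p.2 = p.1 ^ 3 +
        (3 * ((c : ℤ) : k) + 12 * ((c : ℤ) : k) ^ 2 + 16 * ((c : ℤ) : k) ^ 3)} =
      Nat.card {p : k' × k' // p.2 ^ 2 + p.2 = p.1 ^ 3 +
        (3 * ((c : ℤ) : k') + 12 * ((c : ℤ) : k') ^ 2 + 16 * ((c : ℤ) : k') ^ 3)} := by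
  classical
  let _ := Fintype.ofFinite k
  let _ := Fintype.ofFinite k'
  have e : k ≃+* k' := FiniteField.ringEquivOfCardEq (by
    rw [← Nat.card_eq_fintype_card, ← Nat.card_eq_fintype_card, h])
  refine Nat.card_congr ((Equiv.prodCongr e.toEquiv e.toEquiv).subtypeEquiv ?_)
  rintro ⟨x, y⟩
  show y ^ 2 + y = x ^ 3 + (3 * ((c : ℤ) : k) + 12 * ((c : ℤ) : k) ^ 2 + 16 * ((c : ℤ) : k) ^ 3) ↔
    (e y) ^ 2 + e y = (e x) ^ 3 +
      (3 * ((c : ℤ) : k') + 12 * ((c : ℤ) : k') ^ 2 + 16 * ((c : ℤ) : k') ^ 3)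
  rw [← e.injective.eq_iff]
  simp only [map_add, map_mul, map_pow, map_ofNat, map_intCast]

theorem loc_good_d (K : Type) [Field K] [NumberField K] (w : HeightOneSpectrum (𝓞 K))
    (h3 : (3 : 𝓞 K) ∉ w.asIdeal) (d : ℤ) (h4 : d % 4 = 1) (hd : (d : 𝓞 K) ∉ w.asIdeal)
    (k : Type) [Field k] [Finite k] (hk : Nat.card k = Ideal.absNorm w.asIdeal) :
    (((Ed d).baseChange K).baseChange (w.adicCompletion K)).localPolynomial
      (w.adicCompletionIntegers K) =
      1 - C ((Ideal.absNorm w.asIdeal : ℤ) - Nat.card {p : k × k // p.2 ^ 2 + p.2 = p.1 ^ 3 +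
        (3 * (((d - 1) / 4 : ℤ) : k) + 12 * (((d - 1) / 4 : ℤ) : k) ^ 2 +
          16 * (((d - 1) / 4 : ℤ) : k) ^ 3)}) * X +
        C (Ideal.absNorm w.asIdeal : ℤ) * X ^ 2 := by
  obtain ⟨hfin, hcard⟩ := residue_card K w
  obtain ⟨c, hc⟩ : ∃ c : ℤ, d = 4 * c + 1 := ⟨d / 4, by omega⟩
  have hc' : (d - 1) / 4 = c := by omega
  rw [hc']
  set a : w.adicCompletionIntegers K := 3 * ((c : ℤ) : w.adicCompletionIntegers K) +
    12 * ((c : ℤ) : w.adicCompletionIntegers K) ^ 2 +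
      16 * ((c : ℤ) : w.adicCompletionIntegers K) ^ 3 with ha
  have h1a : 1 + 4 * a = ((d : ℤ) : w.adicCompletionIntegers K) ^ 3 := by
    rw [ha, hc]
    push_cast
    ring
  have hau : IsUnit (1 + 4 * a) := by
    rw [h1a]
    apply IsUnit.pow
    by_contra hcon
    rw [← residue_ker K w, RingHom.mem_ker, RingHom.comp_apply, map_intCast] at hd
    apply hd
    rw [IsLocalRing.residue_eq_zero_iff, IsLocalRing.mem_maximalIdeal]
    exact hcon
  have hcurve : ((Ed d).baseChange K).baseChange (w.adicCompletion K) =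
      ⟨0, 0, 1, 0, algebraMap (w.adicCompletionIntegers K) (w.adicCompletion K) a⟩ := by
    have e6 : algebraMap (w.adicCompletionIntegers K) (w.adicCompletion K) a =
        algebraMap K (w.adicCompletion K) (algebraMap ℚ K (((d : ℚ) ^ 3 - 1) / 4)) := by
      have e7 : ((d : ℚ) ^ 3 - 1) / 4 = 3 * (c : ℚ) + 12 * (c : ℚ) ^ 2 + 16 * (c : ℚ) ^ 3 := by
        rw [hc]
        push_cast
        ring
      rw [e7, ha]
      simp only [map_add, map_mul, map_pow, map_ofNat, map_intCast]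
    rw [e6]
    ext <;> simp [Ed, WeierstrassCurve.baseChange]
  have hres : IsLocalRing.residue (w.adicCompletionIntegers K) a =
      3 * ((c : ℤ) : IsLocalRing.ResidueField (w.adicCompletionIntegers K)) +
        12 * ((c : ℤ) : IsLocalRing.ResidueField (w.adicCompletionIntegers K)) ^ 2 +
          16 * ((c : ℤ) : IsLocalRing.ResidueField (w.adicCompletionIntegers K)) ^ 3 := by
    rw [ha]
    simp only [map_add, map_mul, map_pow, map_ofNat, map_intCast]
  rw [hcurve, good_local_a (w.adicCompletionIntegers K) (w.adicCompletion K) a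
    (H55D.DQ3_unit K w 3 h3) hau, hcard, hres,
    L3_cnt (IsLocalRing.ResidueField (w.adicCompletionIntegers K)) k (by rw [hcard, hk])]

end H55E
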