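import Mathlib
import Pool.Agent.Lib.H55B.I2
import Pool.Agent.Lib.H55E.Defs

open NumberField IsDedekindDomain

namespace H55E

open H55B H55C

/-! Chunk L4 (S/M): bad reduction, as DQ5_bad (H55D/Q5) and H55B/F2 bad_local for the curve y^2 + y = x^3 + a: c4 = 0, discriminant -27 (1+4a)^2 = -27 d^6, valuation not divisible by 12. -/

theorem L4_Δ (K : Type*) [Field K] (a : K) :
    (⟨0, 0, 1, 0, a⟩ : WeierstrassCurve K).Δ = -(27 * (1 + 4 * a) ^ 2) := by
  simp [WeierstrassCurve.Δ, WeierstrassCurve.b₂, WeierstrassCurve.b₄, WeierstrassCurve.b₆,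
    WeierstrassCurve.b₈]

theorem L4_c₄ (K : Type*) [Field K] (a : K) :
    (⟨0, 0, 1, 0, a⟩ : WeierstrassCurve K).c₄ = 0 := by
  simp [WeierstrassCurve.c₄, WeierstrassCurve.b₂, WeierstrassCurve.b₄]

theorem L4_bad_local (R : Type*) [CommRing R] [IsDomain R] [IsDiscreteValuationRing R] (K : Type*)
    [Field K] [Algebra R K] [IsFractionRing R K] (a : K)
    (h : ∀ u : K, u ≠ 0 →
      (IsDiscreteValuationRing.maximalIdeal R).valuation K (27 * (1 + 4 * a) ^ 2) ≠
      ((IsDiscreteValuationRing.maximalIdeal R).valuation K u) ^ 12) :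
    (⟨0, 0, 1, 0, a⟩ : WeierstrassCurve K).localPolynomial R = 1 := by
  set W : WeierstrassCurve K := ⟨0, 0, 1, 0, a⟩ with hW
  obtain ⟨C, hC⟩ : ∃ C : WeierstrassCurve.VariableChange K, W.minimal R = C • W :=
    ⟨_, rfl⟩
  have hgood : ¬ (W.minimal R).HasGoodReduction R := by
    intro hg
    have h1 := hg.goodReduction
    rw [hC, WeierstrassCurve.variableChange_Δ, hW, L4_Δ, map_mul, map_pow, Valuation.map_neg] at h1
    apply h (C.u : K) C.u.ne_zero
    have h2 : (IsDiscreteValuationRing.maximalIdeal R).valuation K ((C.u⁻¹ : Kˣ) : K) =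
        ((IsDiscreteValuationRing.maximalIdeal R).valuation K (C.u : K))⁻¹ := by
      rw [Units.val_inv_eq_inv_val, map_inv₀]
    rw [h2, inv_pow] at h1
    have h3 : ((IsDiscreteValuationRing.maximalIdeal R).valuation K (C.u : K)) ^ 12 ≠ 0 :=
      pow_ne_zero _ ((Valuation.ne_zero_iff _).2 C.u.ne_zero)
    exact (inv_mul_eq_one₀ h3).1 h1 |>.symm
  have hmult : ¬ (W.minimal R).HasMultiplicativeReduction R := by
    intro hm
    have h1 := hm.multiplicativeReduction
    rw [hC, WeierstrassCurve.variableChange_c₄, hW, L4_c₄, mul_zero, map_zero] at h1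
    exact zero_ne_one h1
  have hsplit : ¬ (W.minimal R).HasSplitMultiplicativeReduction R := fun hs =>
    hmult hs.toHasMultiplicativeReduction
  unfold WeierstrassCurve.localPolynomial
  rw [if_neg hgood, if_neg hsplit, if_neg hmult]

theorem LEFd_bad (K : Type) [Field K] [NumberField K] (w : HeightOneSpectrum (𝓞 K)) (d : ℤ) (n : ℤ)
    (hn : ∀ k : ℤ, n ≠ 12 * k) (h : w.valuation K (27 * (d : K) ^ 6) = WithZero.exp n) :
    LEFd d K w = 1 := by
  have hP : (((Ed d).baseChange K).baseChange (w.adicCompletion K)).localPolynomial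
      (w.adicCompletionIntegers K) = 1 := by
    have hcurve : ((Ed d).baseChange K).baseChange (w.adicCompletion K) =
        ⟨0, 0, 1, 0, algebraMap K (w.adicCompletion K) (((d : K) ^ 3 - 1) / 4)⟩ := by
      ext <;> simp [Ed, WeierstrassCurve.baseChange]
    rw [hcurve]
    apply L4_bad_local
    intro u hu h1
    have h27 : (27 * (1 + 4 * algebraMap K (w.adicCompletion K) (((d : K) ^ 3 - 1) / 4)) ^ 2 :
        w.adicCompletion K) = algebraMap K (w.adicCompletion K) (27 * (d : K) ^ 6) := by
      have e : (27 * (d : K) ^ 6 : K) = 27 * (1 + 4 * (((d : K) ^ 3 - 1) / 4)) ^ 2 := by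
        ring
      rw [e]
      simp only [map_mul, map_pow, map_add, map_one, map_ofNat]
    rw [h27, valuation_compl, h] at h1
    set val := (IsDiscreteValuationRing.maximalIdeal (w.adicCompletionIntegers K)).valuation
      (w.adicCompletion K) u with hval
    have h0 : val ≠ 0 := (Valuation.ne_zero_iff _).mpr hu
    rw [← WithZero.exp_log h0, ← WithZero.exp_nsmul, WithZero.exp_inj] at h1
    simp only [nsmul_eq_mul] at h1
    push_cast at h1
    exact hn _ h1
  unfold LEFd
  rw [WeierstrassCurve.localEulerFactor, WeierstrassCurve.localPowerSeries, hP]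
  have : PowerSeries.invOfUnit ((1 : Polynomial ℤ) : PowerSeries ℤ) 1 = 1 := by
    have h := PowerSeries.mul_invOfUnit ((1 : Polynomial ℤ) : PowerSeries ℤ) 1 (by simp)
    simpa using h
  rw [this, map_one]
  simp

end H55E
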