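import Mathlib
import Pool.Agent.Lib.H55E.X2
import Pool.Agent.Lib.H55N.H2

open NumberField IsDedekindDomain

namespace H55E

open H55B H55C H55N

/-! Chunk L8 (M): chd is a quadratic character modulo (d). ne: d <> 0. good: if d in w, v below w, then v contains a prime factor l of d, l = 1 mod 3 and 2 not a cube mod l: v is good (O/v has l elements, see H55D/X3 or H55B.prime_types). val:
N a prime to d (a coprime to (d): if a prime l divides d and N a, some prime w divides a and l, so w contains a and d), jacobiSym.eq_one_or_neg_one. zero: a not coprime to (d) (or a = 0): a prime w contains a and d, N w is a power of a prime l dividing N a and d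
(w contains some prime factor of d, which is the characteristic of the residue field): jacobiSym = 0 (jacobiSym.eq_zero_iff). per: N (x) = |norm x|, the norm of x from K to Q is positive (K is totally complex as it contains F: complex_places in H55C, or norm = norm from F of an element = |.|^2),
and norm x = norm y mod d if x = y mod d (Algebra.norm as a determinant of multiplication, compare H55N/F files or use a basis over Z: the norm is a polynomial with integer coefficients), jacobiSym.mod_left. If y is not coprime to (d) then neither is x. -/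

theorem L8_prime {R : Type} [CommRing R] (P : Ideal R) [hP : P.IsPrime] (d : ℤ) (hd : d ≠ 0)
    (h : (d : R) ∈ P) : ∃ l : ℕ, l.Prime ∧ (l : ℤ) ∣ d ∧ (l : R) ∈ P := by
  have h1 : ((d.natAbs : ℕ) : R) ∈ P := by
    have h3 : ((d.natAbs : ℕ) : R) = (((d.natAbs : ℕ) : ℤ) : R) := by rw [Int.cast_natCast]
    rw [h3]
    rcases Int.natAbs_eq d with h2 | h2
    · rw [← h2]
      exact h
    · have h4 : ((d.natAbs : ℕ) : ℤ) = -d := by omega
      rw [h4, Int.cast_neg]
      exact P.neg_mem h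
  obtain ⟨r, hr, hrP⟩ := H55D.X3_prime P d.natAbs (Int.natAbs_ne_zero.2 hd) h1
  refine ⟨r, hr, ?_, hrP⟩
  by_contra hnd
  have hc : IsCoprime (r : ℤ) d :=
    (Nat.prime_iff_prime_int.1 hr).irreducible.coprime_iff_not_dvd.2 hnd
  obtain ⟨a, b, hab⟩ := hc
  apply hP.ne_top
  rw [Ideal.eq_top_iff_one]
  have h5 : (1 : R) = (a : R) * (r : R) + (b : R) * (d : R) := by
    have h6 := congrArg (Int.cast : ℤ → R) hab.symm
    push_cast at h6
    exact h6
  rw [h5]
  exact P.add_mem (P.mul_mem_left _ hrP) (P.mul_mem_left _ h)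

theorem L8_dvd {R : Type} [CommRing R] (P : Ideal R) [hP : P.IsPrime] (l n : ℕ) (hl : l.Prime)
    (h : (l : R) ∈ P) (hn : (n : R) ∈ P) : l ∣ n := by
  by_contra hnd
  have hc : IsCoprime (l : ℤ) (n : ℤ) := by
    rw [Nat.isCoprime_iff_coprime]
    exact (Nat.Prime.coprime_iff_not_dvd hl).2 hnd
  obtain ⟨a, b, hab⟩ := hc
  apply hP.ne_top
  rw [Ideal.eq_top_iff_one]
  have h5 : (1 : R) = (a : R) * (l : R) + (b : R) * (n : R) := by
    have h6 := congrArg (Int.cast : ℤ → R) hab.symm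
    push_cast at h6
    exact h6
  rw [h5]
  exact P.add_mem (P.mul_mem_left _ h) (P.mul_mem_left _ hn)

theorem L8_gcd {K : Type} [Field K] [NumberField K] (a : Ideal (𝓞 K)) (ha : a ≠ ⊥) (d : ℤ)
    (hc : IsCoprime a (Ideal.span {(d : 𝓞 K)})) : Nat.Coprime (Ideal.absNorm a) d.natAbs := by
  apply Nat.coprime_of_dvd
  intro l hl hla hld
  have hN0 : Ideal.absNorm a ≠ 0 := fun h => ha (Ideal.absNorm_eq_zero_iff.1 h)
  have hcard : Nat.card (𝓞 K ⧸ a) = Ideal.absNorm a := rfl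
  have hfin : Finite (𝓞 K ⧸ a) := Nat.finite_of_card_ne_zero (by rw [hcard]; exact hN0)
  have hlf : Fact l.Prime := ⟨hl⟩
  obtain ⟨x, hx⟩ := exists_prime_addOrderOf_dvd_card' l (G := 𝓞 K ⧸ a) (by rw [hcard]; exact hla)
  have hlx : (l : 𝓞 K ⧸ a) * x = 0 := by
    have h1 := addOrderOf_nsmul_eq_zero x
    rw [hx, nsmul_eq_mul] at h1
    exact h1
  have hx0 : x ≠ 0 := by
    rintro rfl
    rw [addOrderOf_zero] at hx
    exact hl.one_lt.ne hx
  obtain ⟨i, hi, j, hj, hij⟩ := Ideal.isCoprime_iff_exists.1 hc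
  obtain ⟨t, ht⟩ := Ideal.mem_span_singleton.1 hj
  have hld' : (l : ℤ) ∣ d := by
    rw [← Int.dvd_natAbs]
    exact_mod_cast hld
  obtain ⟨k, hk⟩ := hld'
  apply hx0
  have h1 : (Ideal.Quotient.mk a) (i + j) = 1 := by rw [hij, map_one]
  rw [map_add, Ideal.Quotient.eq_zero_iff_mem.2 hi, zero_add, ht, hk] at h1
  push_cast at h1
  rw [map_mul, map_mul, map_natCast] at h1
  calc x = (l : 𝓞 K ⧸ a) * (Ideal.Quotient.mk a) (k : 𝓞 K) * (Ideal.Quotient.mk a) t * x := by
        rw [h1, one_mul]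
    _ = (Ideal.Quotient.mk a) (k : 𝓞 K) * (Ideal.Quotient.mk a) t * ((l : 𝓞 K ⧸ a) * x) := by ring
    _ = 0 := by rw [hlx, mul_zero]

theorem L8_not {K : Type} [Field K] [NumberField K] (a : Ideal (𝓞 K)) (ha : a ≠ ⊥) (d : ℤ)
    (hd : d ≠ 0) (hc : ¬ IsCoprime a (Ideal.span {(d : 𝓞 K)})) :
    ¬ Nat.Coprime (Ideal.absNorm a) d.natAbs := by
  rw [Ideal.isCoprime_iff_sup_eq] at hc
  obtain ⟨P, hP, hle⟩ := Ideal.exists_le_maximal _ hc
  have hPp := hP.isPrime
  have hdP : (d : 𝓞 K) ∈ P :=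
    hle (le_sup_right (a := a) (Ideal.mem_span_singleton_self (d : 𝓞 K)))
  have haP : ((Ideal.absNorm a : ℕ) : 𝓞 K) ∈ P :=
    hle (le_sup_left (b := Ideal.span {(d : 𝓞 K)}) (Ideal.absNorm_mem a))
  obtain ⟨l, hl, hld, hlP⟩ := L8_prime P d hd hdP
  have h1 := L8_dvd P l _ hl hlP haP
  intro h
  have h2 : l ∣ d.natAbs := by
    rw [← Int.dvd_natAbs] at hld
    exact_mod_cast hld
  have h3 := Nat.dvd_gcd h1 h2
  rw [Nat.Coprime] at h
  rw [h] at h3
  exact hl.one_lt.ne' (Nat.dvd_one.1 h3)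

theorem L8_zero {K : Type} [Field K] [NumberField K] (d : ℤ) (hd : d ≠ 0) (a : Ideal (𝓞 K))
    (hc : ¬ IsCoprime a (Ideal.span {(d : 𝓞 K)})) : chd d K a = 0 := by
  show (if a = ⊥ then 0 else (jacobiSym (Ideal.absNorm a) d.natAbs : ℂ)) = 0
  by_cases ha : a = ⊥
  · rw [if_pos ha]
  · rw [if_neg ha]
    have h1 := L8_not a ha d hd hc
    have hne : NeZero d.natAbs := ⟨Int.natAbs_ne_zero.2 hd⟩
    have h2 : jacobiSym (Ideal.absNorm a) d.natAbs = 0 := by
      rw [jacobiSym.eq_zero_iff_not_coprime]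
      rw [Int.gcd_natCast_natCast]
      exact h1
    rw [h2, Int.cast_zero]

theorem L8_val {K : Type} [Field K] [NumberField K] (d : ℤ) (a : Ideal (𝓞 K)) (ha : a ≠ ⊥)
    (hc : IsCoprime a (Ideal.span {(d : 𝓞 K)})) : chd d K a = 1 ∨ chd d K a = -1 := by
  have h0 : chd d K a = (jacobiSym (Ideal.absNorm a) d.natAbs : ℂ) := if_neg ha
  have h1 := L8_gcd a ha d hc
  have h2 := jacobiSym.eq_one_or_neg_one (a := ((Ideal.absNorm a : ℕ) : ℤ)) (b := d.natAbs) (by
    rw [Int.gcd_natCast_natCast]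
    exact h1)
  rw [h0]
  rcases h2 with h2 | h2
  · left
    rw [h2, Int.cast_one]
  · right
    rw [h2, Int.cast_neg, Int.cast_one]

theorem L8_Nm (d : ℤ) (X Y : O) (h : (d : O) ∣ X - Y) : (Nm X : ℤ) % d.natAbs = (Nm Y : ℤ) % d.natAbs := by
  obtain ⟨a, b, rfl⟩ := exists_repr X
  obtain ⟨a', b', rfl⟩ := exists_repr Y
  obtain ⟨t, ht⟩ := h
  obtain ⟨u, v, rfl⟩ := exists_repr t
  have h1 : ((a - a' : ℤ) : O) + ((b - b' : ℤ) : O) * om = ((d * u : ℤ) : O) + ((d * v : ℤ) : O) * om := by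
    push_cast
    linear_combination ht
  obtain ⟨h2, h3⟩ := repr_unique h1
  rw [Nm_repr, Nm_repr]
  apply Int.ModEq.symm
  rw [Int.modEq_iff_dvd]
  have h4 : a = a' + d * u := by linarith
  have h5 : b = b' + d * v := by linarith
  rw [Int.natAbs_dvd]
  rw [h4, h5]
  exact ⟨2 * a' * u + d * u ^ 2 - (a' * v + b' * u + d * u * v) + 2 * b' * v + d * v ^ 2, by ring⟩

theorem chd_qchr (K : Type) [Field K] [NumberField K] [Algebra F K] (d : ℤ) (hd : AdmD d) :
    QChr (Ideal.span {(d : 𝓞 K)}) (chd d K) := by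
  have hd0 := hd.ne_zero
  refine ⟨?_, ?_, L8_val d, L8_zero d hd0, ?_⟩
  · rw [Ne, Ideal.span_singleton_eq_bot]
    exact_mod_cast hd0
  · intro w v hw hv
    have hdw : (d : 𝓞 K) ∈ w.asIdeal := hw (Ideal.mem_span_singleton_self _)
    have hwp := w.isPrime
    obtain ⟨l, hl, hld, hlw⟩ := L8_prime w.asIdeal d hd0 hdw
    obtain ⟨h1, h2⟩ := hd.good l hl hld
    refine H55D.X3_good v l hl ?_ h1 h2
    rw [hv]
    show algebraMap O (𝓞 K) (l : O) ∈ w.asIdeal
    rwa [map_natCast]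
  · intro x y hx hy hxc hxy
    have hx1 : Ideal.span {x} ≠ ⊥ := by rwa [Ne, Ideal.span_singleton_eq_bot]
    have hy1 : Ideal.span {y} ≠ ⊥ := by rwa [Ne, Ideal.span_singleton_eq_bot]
    have ex : chd d K (Ideal.span {x}) =
      (jacobiSym (Ideal.absNorm (Ideal.span {x})) d.natAbs : ℂ) := if_neg hx1
    have ey : chd d K (Ideal.span {y}) =
      (jacobiSym (Ideal.absNorm (Ideal.span {y})) d.natAbs : ℂ) := if_neg hy1
    have h1 : x - y ∈ Ideal.span {algebraMap O (𝓞 K) (d : O)} := by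
      rw [map_intCast]
      exact hxy
    have h2 := L8_Nm d _ _ (norm_congr (d : O) x y h1)
    have e1 : Ideal.absNorm (Ideal.span {x}) = Nm (Algebra.intNorm O (𝓞 K) x) := by
      rw [← Ideal.absNorm_relNorm O, Ideal.relNorm_singleton]
      rfl
    have e2 : Ideal.absNorm (Ideal.span {y}) = Nm (Algebra.intNorm O (𝓞 K) y) := by
      rw [← Ideal.absNorm_relNorm O, Ideal.relNorm_singleton]
      rfl
    rw [ex, ey, e1, e2, jacobiSym.mod_left, h2, ← jacobiSym.mod_left]

end H55E
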