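import Mathlib
import Pool.Agent.Lib.H55E.L1
import Pool.Agent.Lib.H55E.L2
import Pool.Agent.Lib.H55E.L3
import Pool.Agent.Lib.H55E.L4
import Pool.Agent.Lib.H55E.L8
import Pool.Agent.Lib.H55N.H7

open NumberField IsDedekindDomain

namespace H55E

open H55B H55C H55N

/-! Chunk L5 (M): the local factors of E_d over K containing F. w above 3: valuation of 27 d^6 is exp(-6) (val_three, d prime to 3): LEFd_bad; Psi = 0 (H7_three). w above d: valuation of d is exp(-1) (val_d), of 27 it is 1: exp(-6), LEFd_bad; chd = 0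
(the norm and d have a common factor: jacobiSym = 0). Other w: k = the residue field, q = N w, N_d, N_1 the numbers of affine points; loc_good_d, H55D.loc_good0 and H55B.loc_good: q - N_1 = Psi + conj Psi, Psi conj Psi = q (compare
coefficients; in the form of b8_LEF, Psi_prime, psiF_prime, see H7_LEF); solv_jacobi with count_solv / count_nonsolv: q - N_d = chd (q - N_1), chd^2 = 1. So the polynomial is (1 - chd Psi X)(1 - chd conj Psi X). -/

theorem L5_euler (K : Type) [Field K] [NumberField K] (w : HeightOneSpectrum (𝓞 K)) (d : ℤ)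
    (a b : ℂ)
    (hP : ((((Ed d).baseChange K).baseChange (w.adicCompletion K)).localPolynomial
      (w.adicCompletionIntegers K)).map (Int.castRingHom ℂ) =
        (1 - Polynomial.C a * Polynomial.X) * (1 - Polynomial.C b * Polynomial.X)) :
    LEFd d K w = ArithmeticFunction.ofPowerSeries (Ideal.absNorm w.asIdeal)
        ((1 - PowerSeries.C a * PowerSeries.X)⁻¹ : PowerSeries ℂ) *
      ArithmeticFunction.ofPowerSeries (Ideal.absNorm w.asIdeal)
        ((1 - PowerSeries.C b * PowerSeries.X)⁻¹ : PowerSeries ℂ) := by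
  have hq := b8_one_lt w
  have hP0 : ((((Ed d).baseChange K).baseChange (w.adicCompletion K)).localPolynomial
      (w.adicCompletionIntegers K)).coeff 0 = 1 := by
    have := congrArg (fun P : Polynomial ℂ => P.coeff 0) hP
    simp only [Polynomial.coeff_map, Polynomial.mul_coeff_zero] at this
    simpa using this
  unfold LEFd
  rw [WeierstrassCurve.localEulerFactor, (residue_card K w).2, I2_cast_ofPS hq,
    WeierstrassCurve.localPowerSeries, I2_map_invOfUnit _ hP0, hP]
  have h1 : (((1 - Polynomial.C a * Polynomial.X) * (1 - Polynomial.C b * Polynomial.X) :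
      Polynomial ℂ) : PowerSeries ℂ) = (1 - PowerSeries.C a * PowerSeries.X) *
        (1 - PowerSeries.C b * PowerSeries.X) := by
    simp
  rw [h1, PowerSeries.mul_inv_rev, map_mul, mul_comm]

theorem L5_not {K : Type} [Field K] [NumberField K] (w : HeightOneSpectrum (𝓞 K)) (d : ℤ)
    (hd : AdmD d) (h3 : (3 : 𝓞 K) ∈ w.asIdeal) : (d : 𝓞 K) ∉ w.asIdeal := by
  intro h
  obtain ⟨a, b, hab⟩ := hd.coprime_six
  apply w.isPrime.ne_top
  rw [Ideal.eq_top_iff_one]
  have h5 : (1 : 𝓞 K) = (a : 𝓞 K) * (d : 𝓞 K) + (b : 𝓞 K) * 2 * 3 := by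
    have h6 := congrArg (Int.cast : ℤ → 𝓞 K) hab.symm
    push_cast at h6
    rw [h6]
    ring
  rw [h5]
  exact w.asIdeal.add_mem (w.asIdeal.mul_mem_left _ h) (w.asIdeal.mul_mem_left _ h3)

theorem L5_val {K : Type} [Field K] [NumberField K] (w : HeightOneSpectrum (𝓞 K)) (x : 𝓞 K)
    (hx : x ∉ w.asIdeal) : w.valuation K (x : K) = 1 := by
  refine le_antisymm (w.valuation_le_one x) ?_
  by_contra h4
  exact hx ((w.valuation_lt_one_iff_mem (K := K) x).mp (not_le.mp h4))

theorem L5_one (q : ℕ) : ArithmeticFunction.ofPowerSeries q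
    ((1 - PowerSeries.C (0 : ℂ) * PowerSeries.X)⁻¹ : PowerSeries ℂ) = 1 := by
  rw [H7_ps, map_one]

theorem L5_poly (K : Type) [Field K] [NumberField K] [Algebra F K] (d : ℤ)
    (hd : AdmD d) (w : HeightOneSpectrum (𝓞 K)) (h3 : (3 : 𝓞 K) ∉ w.asIdeal)
    (hdw : (d : 𝓞 K) ∉ w.asIdeal) (a b : ℂ)
    (hab : ((((E27.baseChange K).baseChange (w.adicCompletion K)).localPolynomial
      (w.adicCompletionIntegers K)).map (Int.castRingHom ℂ)) =
      (1 - Polynomial.C a * Polynomial.X) * (1 - Polynomial.C b * Polynomial.X)) :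
    (((((Ed d).baseChange K).baseChange (w.adicCompletion K)).localPolynomial
      (w.adicCompletionIntegers K)).map (Int.castRingHom ℂ)) =
      (1 - Polynomial.C (a * chd d K w.asIdeal) * Polynomial.X) *
        (1 - Polynomial.C (b * chd d K w.asIdeal) * Polynomial.X) := by
  obtain ⟨hfin, hcard⟩ := residue_card K w
  set k := IsLocalRing.ResidueField (w.adicCompletionIntegers K) with hk
  have h0 : (d : k) ≠ 0 := by
    rw [← residue_ker K w, RingHom.mem_ker, RingHom.comp_apply, map_intCast, map_intCast] at hdw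
    exact hdw
  set c : k := (((d - 1) / 4 : ℤ) : k) with hc
  have h4 := hd.four
  have hcd : 1 + 4 * c = (d : k) := by
    have h5 : d = 1 + 4 * ((d - 1) / 4) := by omega
    rw [hc]
    conv_rhs => rw [h5]
    push_cast
    ring
  have hc0 : 1 + 4 * c ≠ 0 := by rw [hcd]; exact h0
  have e0 := H55D.loc_good0 K w h3 k hcard
  have ed := loc_good_d K w h3 d h4 hdw k hcard
  rw [← hc] at ed
  set q : ℕ := Ideal.absNorm w.asIdeal with hq
  set N1 : ℕ := Nat.card {p : k × k // p.2 ^ 2 + p.2 = p.1 ^ 3} with hN1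
  set Nd : ℕ := Nat.card {p : k × k // p.2 ^ 2 + p.2 = p.1 ^ 3 +
    (3 * c + 12 * c ^ 2 + 16 * c ^ 3)} with hNd
  rw [e0] at hab
  have c1 : (q : ℂ) - N1 = a + b := by
    have h := congrArg (fun P : Polynomial ℂ => P.coeff 1) hab
    simp [Polynomial.coeff_one, mul_sub, sub_mul, Polynomial.coeff_C] at h
    have e3 : (Polynomial.C a * Polynomial.X * (Polynomial.C b * Polynomial.X) : Polynomial ℂ) =
      Polynomial.C (a * b) * Polynomial.X ^ 2 := by rw [Polynomial.C_mul]; ring
    rw [e3, Polynomial.coeff_C_mul_X_pow] at h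
    simp at h
    linear_combination -h
  have c2 : (q : ℂ) = a * b := by
    have h := congrArg (fun P : Polynomial ℂ => P.coeff 2) hab
    have e3 : ((1 - Polynomial.C a * Polynomial.X) * (1 - Polynomial.C b * Polynomial.X) :
      Polynomial ℂ) = 1 - Polynomial.C (a + b) * Polynomial.X + Polynomial.C (a * b) * Polynomial.X ^ 2 := by
      rw [Polynomial.C_mul, Polynomial.C_add]; ring
    rw [e3] at h
    simp [Polynomial.coeff_one] at h
    rw [← Polynomial.C_mul, Polynomial.coeff_C_mul_X_pow] at h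
    simpa using h
  have hchd : chd d K w.asIdeal = (jacobiSym q d.natAbs : ℂ) := if_neg w.ne_bot
  have key : ∃ ε : ℂ, ε ^ 2 = 1 ∧ chd d K w.asIdeal = ε ∧ (q : ℂ) - Nd = ε * (a + b) := by
    rcases solv_jacobi k d h4 h0 with ⟨hs, hj⟩ | ⟨hs, hj⟩
    · refine ⟨1, by norm_num, ?_, ?_⟩
      · rw [hchd, ← hcard, hj]
        norm_num
      · have h5 := count_solv k c hc0 hs
        have h6 : Nd = N1 := h5
        rw [h6, one_mul, c1]
    · refine ⟨-1, by norm_num, ?_, ?_⟩
      · rw [hchd, ← hcard, hj]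
        norm_num
      · have h5 := count_nonsolv k c hc0 hs
        rw [hcard] at h5
        have h6 : Nd + N1 = 2 * q := h5
        have h7 : (Nd : ℂ) + N1 = 2 * q := by exact_mod_cast h6
        linear_combination -c1 - h7
  obtain ⟨ε, he2, he, hqN⟩ := key
  rw [he, ed]
  have e4 : (((q : ℤ) - (Nd : ℤ) : ℤ) : ℂ) = ε * (a + b) := by
    rw [← hqN]
    push_cast
    ring
  have e5 : (((q : ℤ)) : ℂ) = a * b := by
    rw [← c2]
    push_cast
    ring
  rw [Polynomial.map_add, Polynomial.map_sub, Polynomial.map_mul, Polynomial.map_mul,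
    Polynomial.map_pow, Polynomial.map_one, Polynomial.map_C, Polynomial.map_C, Polynomial.map_X,
    eq_intCast (Int.castRingHom ℂ), eq_intCast (Int.castRingHom ℂ), e4, e5]
  have e6 : a * b = (a * ε) * (b * ε) := by linear_combination -(a * b) * he2
  have e7 : ε * (a + b) = a * ε + b * ε := by ring
  rw [e6, e7, Polynomial.C_mul (a := a * ε), Polynomial.C_add]
  ring

theorem LEFd_chd (K : Type) [Field K] [NumberField K] [Algebra F K] (hU : UnrOut K) (d : ℤ)
    (hd : AdmD d) (hA : UnrAt d K) (w : HeightOneSpectrum (𝓞 K)) :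
    LEFd d K w = ArithmeticFunction.ofPowerSeries (Ideal.absNorm w.asIdeal)
        ((1 - PowerSeries.C (Psi K w.asIdeal * chd d K w.asIdeal) * PowerSeries.X)⁻¹ :
          PowerSeries ℂ) *
      ArithmeticFunction.ofPowerSeries (Ideal.absNorm w.asIdeal)
        ((1 - PowerSeries.C ((starRingEnd ℂ) (Psi K w.asIdeal * chd d K w.asIdeal)) *
          PowerSeries.X)⁻¹ : PowerSeries ℂ) := by
  by_cases h3 : (3 : 𝓞 K) ∈ w.asIdeal
  · rw [H7_three w h3, zero_mul, map_zero (starRingEnd ℂ), L5_one, mul_one]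
    have hdw := L5_not w d hd h3
    refine LEFd_bad K w d (-6) (fun k hk => by omega) ?_
    have e1 : (27 * (d : K) ^ 6) = (3 : K) ^ 3 * (((d : 𝓞 K) : K)) ^ 6 := by
      norm_num
    rw [e1, map_mul, map_pow, map_pow, val_three hU w h3, L5_val w _ hdw, one_pow, mul_one,
      ← WithZero.exp_nsmul]
    norm_num
  · by_cases hdw : (d : 𝓞 K) ∈ w.asIdeal
    · have h0 : chd d K w.asIdeal = 0 := by
        apply L8_zero d hd.ne_zero
        rw [Ideal.isCoprime_iff_sup_eq, sup_eq_left.2 ((Ideal.span_singleton_le_iff_mem _).2 hdw)]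
        exact w.isPrime.ne_top
      rw [h0, mul_zero, map_zero (starRingEnd ℂ), L5_one, mul_one]
      refine LEFd_bad K w d (-6) (fun k hk => by omega) ?_
      have e0 : (((3 : 𝓞 K) : K)) = 3 := map_ofNat (algebraMap (𝓞 K) K) 3
      have e1 : (27 * (d : K) ^ 6) = (((3 : 𝓞 K) : K)) ^ 3 * (d : K) ^ 6 := by
        rw [e0]
        norm_num
      rw [e1, map_mul, map_pow, map_pow, L5_val w _ h3, val_d K d hd hA w hdw, one_pow, one_mul,
        ← WithZero.exp_nsmul]
      norm_num
    · obtain ⟨v, hv⟩ := H1_below w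
      have hv3 : (3 : O) ∉ v.asIdeal := by
        intro h
        apply h3
        rw [hv, Ideal.mem_comap, map_ofNat] at h
        exact h
      have h1 := L5_poly K d hd w h3 hdw _ _ (loc_good K w h3 v hv)
      have h2 := L5_euler K w d _ _ h1
      have h4 : Psi K w.asIdeal = (starRingEnd ℂ) (e (gen v)) ^ (w.asIdeal.inertiaDeg O) := by
        rw [Psi_prime w v hv, psiF_prime v hv3]
      have h5 : (starRingEnd ℂ) (chd d K w.asIdeal) = chd d K w.asIdeal := by
        have h6 : chd d K w.asIdeal = (jacobiSym (Ideal.absNorm w.asIdeal) d.natAbs : ℂ) :=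
          if_neg w.ne_bot
        rw [h6, map_intCast]
      rw [h2, h4, map_mul (starRingEnd ℂ), h5, map_pow (starRingEnd ℂ) ((starRingEnd ℂ) (e (gen v))),
        Complex.conj_conj, mul_comm]

end H55E
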