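import Mathlib
import Pool.Agent.Lib.H55E.L5

open NumberField IsDedekindDomain

namespace H55E

open H55B H55C H55N

/-! Chunk L6 (M): COPY of H55N/H7 (LFunction_Psi) with Psi K replaced by Psi K * chd d K and H7_LEF by LEFd_chd. -/

/-- The complex conjugate of the twisted character. -/
noncomputable def L6_conj (K : Type) [Field K] [NumberField K] [Algebra F K] (d : ℤ) :
    Ideal (𝓞 K) →*₀ ℂ :=
  (starRingEnd ℂ).toMonoidWithZeroHom.comp (Psi K * chd d K : Ideal (𝓞 K) →*₀ ℂ)

theorem LFunctiond (K : Type) [Field K] [NumberField K] [Algebra F K] (hU : UnrOut K) (d : ℤ)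
    (hd : AdmD d) (hA : UnrAt d K) (n : ℕ) :
    ((((Ed d).baseChange K).LFunction n : ℤ) : ℂ) =
      (AI (Psi K * chd d K : Ideal (𝓞 K) →*₀ ℂ) *
        AI (fun a => (starRingEnd ℂ) ((Psi K * chd d K : Ideal (𝓞 K) →*₀ ℂ) a))) n := by
  classical
  set L : HeightOneSpectrum (𝓞 K) → ArithmeticFunction ℤ := fun w =>
    (((Ed d).baseChange K).baseChange (w.adicCompletion K)).localEulerFactor
      (w.adicCompletionIntegers K) with hLdef
  have hL : ∀ᶠ T in Filter.atTop, (∏ w ∈ T, L w) n = ((Ed d).baseChange K).LFunction n := by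
    have hN : Northcott (fun w : HeightOneSpectrum (𝓞 K) =>
        Nat.card (IsLocalRing.ResidueField (w.adicCompletionIntegers K))) := by
      have h1 : (fun w : HeightOneSpectrum (𝓞 K) =>
        Nat.card (IsLocalRing.ResidueField (w.adicCompletionIntegers K))) =
          fun w => Ideal.absNorm w.asIdeal := funext fun w => (residue_card K w).2
      rw [h1]
      infer_instance
    exact ArithmeticFunction.tendsTo_eulerProduct_ofPowerSeries
      (fun w : HeightOneSpectrum (𝓞 K) =>
        Nat.card (IsLocalRing.ResidueField (w.adicCompletionIntegers K)))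
      (fun w => (((Ed d).baseChange K).baseChange (w.adicCompletion K)).localPowerSeries
        (w.adicCompletionIntegers K))
      (fun w => by simp [WeierstrassCurve.localPowerSeries]) n
  have hE : ∀ᶠ T : Finset (HeightOneSpectrum (𝓞 K)) in Filter.atTop,
      ∀ m ∈ Finset.range (n + 1),
      (∏ w ∈ T, ArithmeticFunction.ofPowerSeries (Ideal.absNorm w.asIdeal)
        ((1 - PowerSeries.C (Psi K w.asIdeal * chd d K w.asIdeal) * PowerSeries.X)⁻¹ :
          PowerSeries ℂ)) m =
          AI (Psi K * chd d K : Ideal (𝓞 K) →*₀ ℂ) m ∧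
      (∏ w ∈ T, ArithmeticFunction.ofPowerSeries (Ideal.absNorm w.asIdeal)
        ((1 - PowerSeries.C ((starRingEnd ℂ) (Psi K w.asIdeal * chd d K w.asIdeal)) *
          PowerSeries.X)⁻¹ : PowerSeries ℂ)) m =
          AI (fun a => (starRingEnd ℂ) ((Psi K * chd d K : Ideal (𝓞 K) →*₀ ℂ) a)) m := by
    rw [Filter.eventually_all_finset]
    intro m _
    exact (AI_euler (Psi K * chd d K : Ideal (𝓞 K) →*₀ ℂ) m).and (AI_euler (L6_conj K d) m)
  obtain ⟨T, hT1, hT2⟩ := (hL.and hE).exists
  rw [← hT1, ← ArithmeticFunction.intCoe_apply, I2_cast_prod]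
  have h1 : ∀ w ∈ T, ((L w : ArithmeticFunction ℤ) : ArithmeticFunction ℂ) =
      ArithmeticFunction.ofPowerSeries (Ideal.absNorm w.asIdeal)
        ((1 - PowerSeries.C (Psi K w.asIdeal * chd d K w.asIdeal) * PowerSeries.X)⁻¹ :
          PowerSeries ℂ) *
      ArithmeticFunction.ofPowerSeries (Ideal.absNorm w.asIdeal)
        ((1 - PowerSeries.C ((starRingEnd ℂ) (Psi K w.asIdeal * chd d K w.asIdeal)) *
          PowerSeries.X)⁻¹ : PowerSeries ℂ) := fun w _ => LEFd_chd K hU d hd hA w
  rw [Finset.prod_congr rfl h1, Finset.prod_mul_distrib]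
  refine I2_mul_congr ?_ ?_ n le_rfl
  · intro m hm
    exact (hT2 m (Finset.mem_range.2 (by omega))).1
  · intro m hm
    exact (hT2 m (Finset.mem_range.2 (by omega))).2

end H55E
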