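import Mathlib
import Pool.Agent.Lib.H55E.L6
import Pool.Agent.Lib.H55N.H8
import Pool.Agent.Lib.H13E.V1

open NumberField IsDedekindDomain

namespace H55E

open H55B H55C H55N

/-! Chunk L7 (M): COPY of H55N/H8 (L_valN) with Psi K replaced by Psi K * chd d K (norm of chd at most 1), LFunction_Psi by LFunctiond. R0 is real (H13E.R_real). -/

theorem L7_norm_le (K : Type) [Field K] [NumberField K] [Algebra F K] (d : ℤ)
    (a : Ideal (𝓞 K)) :
    ‖(Psi K * chd d K : Ideal (𝓞 K) →*₀ ℂ) a‖ ^ 2 ≤ Ideal.absNorm a := by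
  have h1 : ‖chd d K a‖ ≤ 1 := by
    show ‖(if a = ⊥ then (0 : ℂ) else (jacobiSym (Ideal.absNorm a) d.natAbs : ℂ))‖ ≤ 1
    by_cases ha : a = ⊥
    · rw [if_pos ha, norm_zero]
      exact zero_le_one
    · rw [if_neg ha]
      rcases jacobiSym.trichotomy (Ideal.absNorm a : ℤ) d.natAbs with h | h | h <;> rw [h] <;> simp
  refine le_trans ?_ (Psi_norm_le a)
  show ‖Psi K a * chd d K a‖ ^ 2 ≤ _
  rw [norm_mul]
  have h2 : ‖Psi K a‖ * ‖chd d K a‖ ≤ ‖Psi K a‖ := by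
    calc ‖Psi K a‖ * ‖chd d K a‖ ≤ ‖Psi K a‖ * 1 := by gcongr
      _ = ‖Psi K a‖ := mul_one _
  gcongr

theorem L_vald (K : Type) [Field K] [NumberField K] [Algebra F K] (hU : UnrOut K) (d : ℤ)
    (hd : AdmD d) (hA : UnrAt d K) (h : LV (Psi K * chd d K : Ideal (𝓞 K) →*₀ ℂ)) :
    ∃ Λ : ℂ → ℂ, AnalyticOnNhd ℂ Λ {s | 1 / 2 < s.re} ∧
      (∀ s : ℂ, 3 / 2 < s.re →
        LSeriesSummable (fun n => ((((Ed d).baseChange K).LFunction n : ℤ) : ℂ)) s ∧
        Λ s = ((Ed d).baseChange K).LSeries s) ∧ Λ 1 ≠ 0 ∧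
      Unit2 (Λ 1 / R0 ^ (2 * Module.finrank F K)) := by
  obtain ⟨L, hLa, hLs, hL1⟩ := h
  have hR : (starRingEnd ℂ) R0 = R0 := H13E.R_real
  have hval : Unit2 ((L 1 * (starRingEnd ℂ) (L ((starRingEnd ℂ) 1))) /
      R0 ^ (2 * Module.finrank F K)) := by
    have e1 : (L 1 * (starRingEnd ℂ) (L ((starRingEnd ℂ) 1))) /
        R0 ^ (2 * Module.finrank F K) =
        (L 1 / R0 ^ Module.finrank F K) * (starRingEnd ℂ) (L 1 / R0 ^ Module.finrank F K) := by
      rw [map_one, map_div₀, map_pow, hR, two_mul, pow_add, mul_div_mul_comm]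
    rw [e1]
    exact Unit2.mul hL1 (Unit2.conj hL1)
  refine ⟨fun z => L z * (starRingEnd ℂ) (L ((starRingEnd ℂ) z)), hLa.mul (I4_conj hLa), ?_, ?_,
    hval⟩
  · intro z hz
    have hz' : 3 / 2 < ((starRingEnd ℂ) z).re := by simpa using hz
    have h0 : (Psi K * chd d K : Ideal (𝓞 K) →*₀ ℂ) ⊥ = 0 :=
      (Psi K * chd d K : Ideal (𝓞 K) →*₀ ℂ).map_zero
    have h1 := AI_LSeries (fun a => (Psi K * chd d K : Ideal (𝓞 K) →*₀ ℂ) a) h0 z
      (tm_summable _ (L7_norm_le K d) z hz)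
    have h2 := AI_LSeries (fun a => (starRingEnd ℂ) ((Psi K * chd d K : Ideal (𝓞 K) →*₀ ℂ) a))
      (by rw [h0, map_zero]) z
      (tm_summable _ (fun a => by rw [RCLike.norm_conj]; exact L7_norm_le K d a) z hz)
    have e1 : ∑' a, tm (fun a => (Psi K * chd d K : Ideal (𝓞 K) →*₀ ℂ) a) z a = L z :=
      (hLs z hz).tsum_eq
    have e2 : ∑' a, tm (fun a => (starRingEnd ℂ) ((Psi K * chd d K : Ideal (𝓞 K) →*₀ ℂ) a)) z a =
        (starRingEnd ℂ) (L ((starRingEnd ℂ) z)) := by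
      have h3 := (Complex.hasSum_conj').2 (hLs _ hz')
      have h4 := h3.tsum_eq
      rw [← h4]
      exact tsum_congr fun a => H8_tm _ z a
    rw [e1] at h1
    rw [e2] at h2
    have h3 := ArithmeticFunction.LSeriesHasSum_mul h1 h2
    have e3 : (fun n => ((((Ed d).baseChange K).LFunction n : ℤ) : ℂ)) = fun n =>
        (AI (Psi K * chd d K : Ideal (𝓞 K) →*₀ ℂ) *
          AI (fun a => (starRingEnd ℂ) ((Psi K * chd d K : Ideal (𝓞 K) →*₀ ℂ) a))) n :=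
      funext fun n => LFunctiond K hU d hd hA n
    have key : LSeriesHasSum (fun n => ((((Ed d).baseChange K).LFunction n : ℤ) : ℂ)) z
        (L z * (starRingEnd ℂ) (L ((starRingEnd ℂ) z))) := by
      rw [e3]
      exact h3
    exact ⟨key.LSeriesSummable, key.LSeries_eq.symm⟩
  · have h1 := hval.ne_zero
    exact (div_ne_zero_iff.1 h1).1

end H55E
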