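import Mathlib
import Pool.Agent.Lib.H55D.Q4
import Pool.Agent.Lib.H55E.L1
import Pool.Agent.Lib.H55E.L2
import Pool.Agent.Lib.H55E.L3
import Pool.Agent.Lib.H55N.B1

open NumberField IsDedekindDomain

namespace H55E

open H55B H55C H55N

variable {K₀ K : Type} [Field K₀] [NumberField K₀] [Field K] [NumberField K] [Algebra F K] [Algebra K₀ K]

/-! Chunk Q1 (M): compare H55D/Q3, Q4. LEFd_norm: loc_good_d with the same finite field for both. LEFd_two: q = N w' = 2 mod 3, q^2 = N w (H13E.split_two); over the field with q elements x -> x^3 is a bijection, so every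
equation y^2 + y = x^3 + e has q solutions: LEFd K₀ w' = LEF K₀ w' (both polynomials are 1 + q X^2; w' does not contain d as the prime factors of d are 1 mod 3 and q is a power of its characteristic, 2 mod 3); over the field with q^2 elements: J(q^2) = 1, so solvable and
N_d = N_1: LEFd K w = LEF K w. H55D.LEF_two. -/

theorem Q1_loc (K : Type) [Field K] [NumberField K] (w : HeightOneSpectrum (𝓞 K)) (d : ℤ)
    (h : (((Ed d).baseChange K).baseChange (w.adicCompletion K)).localPolynomial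
      (w.adicCompletionIntegers K) =
      ((E27.baseChange K).baseChange (w.adicCompletion K)).localPolynomial
      (w.adicCompletionIntegers K)) : LEFd d K w = LEF K w := by
  unfold LEFd LEF
  rw [WeierstrassCurve.localEulerFactor, WeierstrassCurve.localEulerFactor,
    WeierstrassCurve.localPowerSeries, WeierstrassCurve.localPowerSeries, h]

theorem Q1_prime {R : Type*} [CommRing R] (P : Ideal R) [P.IsPrime] (n : ℕ) :
    n ≠ 0 → (n : R) ∈ P → ∃ l : ℕ, l.Prime ∧ l ∣ n ∧ (l : R) ∈ P := by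
  induction n using Nat.recOnMul with
  | zero => intro h; exact absurd rfl h
  | one =>
    intro _ h
    rw [Nat.cast_one] at h
    exact absurd ((Ideal.eq_top_iff_one _).2 h) (Ideal.IsPrime.ne_top inferInstance)
  | prime p hp => intro _ h; exact ⟨p, hp, dvd_rfl, h⟩
  | mul a b ha hb =>
    intro h0 h
    rw [Nat.cast_mul] at h
    rcases (Ideal.IsPrime.mem_or_mem inferInstance h : (a : R) ∈ P ∨ (b : R) ∈ P) with h1 | h1
    · obtain ⟨l, hl, hd, hm⟩ := ha (left_ne_zero_of_mul h0) h1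
      exact ⟨l, hl, hd.mul_right b, hm⟩
    · obtain ⟨l, hl, hd, hm⟩ := hb (right_ne_zero_of_mul h0) h1
      exact ⟨l, hl, hd.mul_left a, hm⟩

theorem Q1_dmem (K₀ : Type) [Field K₀] [NumberField K₀] (w' : HeightOneSpectrum (𝓞 K₀)) (d : ℤ)
    (hd : AdmD d) (h : Ideal.absNorm w'.asIdeal % 3 = 2) : (d : 𝓞 K₀) ∉ w'.asIdeal := by
  intro hmem
  have h0 : d ≠ 0 := by have := hd.four; omega
  have e : ((d.natAbs : ℕ) : 𝓞 K₀) = ((|d| : ℤ) : 𝓞 K₀) := by
    rw [← Int.natCast_natAbs, Int.cast_natCast]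
  have hn : ((d.natAbs : ℕ) : 𝓞 K₀) ∈ w'.asIdeal := by
    rcases abs_choice d with h1 | h1
    · rw [e, h1]; exact hmem
    · rw [e, h1, Int.cast_neg]; exact neg_mem hmem
  have hp := w'.isPrime
  obtain ⟨l, hl, hld, hlm⟩ := Q1_prime w'.asIdeal d.natAbs (Int.natAbs_ne_zero.2 h0) hn
  have h1 := (hd.good l hl (Int.natCast_dvd.2 hld)).1
  have h2 : Ideal.absNorm w'.asIdeal ∣ l ^ Module.finrank ℤ (𝓞 K₀) := by
    rw [← Ideal.absNorm_span_natCast]
    exact Ideal.absNorm_dvd_absNorm_of_le ((Ideal.span_singleton_le_iff_mem _).2 hlm)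
  obtain ⟨j, -, hj⟩ := (Nat.dvd_prime_pow hl).1 h2
  rw [hj, Nat.pow_mod, h1, one_pow] at h
  omega

theorem Q1_count (k : Type) [Field k] [Finite k] (h : Nat.card k % 3 = 2) (e : k) :
    Nat.card {p : k × k // p.2 ^ 2 + p.2 = p.1 ^ 3 + e} = Nat.card k := by
  classical
  let _ := Fintype.ofFinite k
  obtain ⟨m, hm⟩ : ∃ m, Nat.card k = 3 * m + 2 := ⟨Nat.card k / 3, by omega⟩
  have hpow : ∀ x : k, x ^ (3 * (2 * m + 1)) = x := by
    intro x
    have h1 : x ^ (3 * m + 2) = x := by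
      rw [← hm, Nat.card_eq_fintype_card]
      exact FiniteField.pow_card x
    have h2 : 3 * (2 * m + 1) = (3 * m + 2) + (3 * m + 1) := by ring
    rw [h2, pow_add, h1, ← pow_succ']
    exact h1
  refine Nat.card_congr ⟨fun p => p.1.2, fun y => ⟨((y ^ 2 + y - e) ^ (2 * m + 1), y), ?_⟩, ?_, ?_⟩
  · show y ^ 2 + y = ((y ^ 2 + y - e) ^ (2 * m + 1)) ^ 3 + e
    rw [← pow_mul, mul_comm (2 * m + 1) 3, hpow]
    ring
  · rintro ⟨⟨x, y⟩, hp⟩
    have hp' : y ^ 2 + y = x ^ 3 + e := hp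
    apply Subtype.ext
    show ((y ^ 2 + y - e) ^ (2 * m + 1), y) = (x, y)
    rw [hp', add_sub_cancel_right, ← pow_mul, hpow]
  · intro y
    rfl

theorem Q1_res (K : Type) [Field K] [NumberField K] (w : HeightOneSpectrum (𝓞 K)) (d : ℤ)
    (hd : (d : 𝓞 K) ∉ w.asIdeal) :
    (d : IsLocalRing.ResidueField (w.adicCompletionIntegers K)) ≠ 0 := by
  intro h
  apply hd
  rw [← residue_ker K w, RingHom.mem_ker, map_intCast]
  exact h

theorem LEFd_norm (K K₁ : Type) [Field K] [NumberField K] [Field K₁] [NumberField K₁] (d : ℤ)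
    (h4 : d % 4 = 1) (w : HeightOneSpectrum (𝓞 K)) (w₁ : HeightOneSpectrum (𝓞 K₁))
    (h3 : (3 : 𝓞 K) ∉ w.asIdeal) (h3' : (3 : 𝓞 K₁) ∉ w₁.asIdeal) (hd : (d : 𝓞 K) ∉ w.asIdeal)
    (hd' : (d : 𝓞 K₁) ∉ w₁.asIdeal) (hN : Ideal.absNorm w.asIdeal = Ideal.absNorm w₁.asIdeal) :
    LEFd d K w = LEFd d K₁ w₁ := by
  obtain ⟨hfin, hcard⟩ := residue_card K w
  have e1 := loc_good_d K w h3 d h4 hd
    (IsLocalRing.ResidueField (w.adicCompletionIntegers K)) hcard
  have e2 := loc_good_d K₁ w₁ h3' d h4 hd'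
    (IsLocalRing.ResidueField (w.adicCompletionIntegers K)) (hcard.trans hN)
  unfold LEFd
  rw [WeierstrassCurve.localEulerFactor, WeierstrassCurve.localEulerFactor, hcard,
    (residue_card K₁ w₁).2, WeierstrassCurve.localPowerSeries, WeierstrassCurve.localPowerSeries,
    e1, e2, hN]

theorem Q1_inert (K₀ : Type) [Field K₀] [NumberField K₀] (d : ℤ) (hd : AdmD d)
    (w' : HeightOneSpectrum (𝓞 K₀)) (h3 : (3 : 𝓞 K₀) ∉ w'.asIdeal)
    (h : Ideal.absNorm w'.asIdeal % 3 = 2) : LEFd d K₀ w' = LEF K₀ w' := by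
  obtain ⟨hfin, hcard⟩ := residue_card K₀ w'
  apply Q1_loc
  rw [loc_good_d K₀ w' h3 d hd.four (Q1_dmem K₀ w' d hd h)
    (IsLocalRing.ResidueField (w'.adicCompletionIntegers K₀)) hcard,
    H55D.loc_good0 K₀ w' h3 (IsLocalRing.ResidueField (w'.adicCompletionIntegers K₀)) hcard,
    Q1_count _ (by rw [hcard]; exact h), H55D.count_inert _ (by rw [hcard]; exact h)]

theorem Q1_sq (K : Type) [Field K] [NumberField K] (d : ℤ) (h4 : d % 4 = 1)
    (w : HeightOneSpectrum (𝓞 K)) (h3 : (3 : 𝓞 K) ∉ w.asIdeal) (hd : (d : 𝓞 K) ∉ w.asIdeal) (q : ℕ)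
    (hq : Ideal.absNorm w.asIdeal = q ^ 2) : LEFd d K w = LEF K w := by
  obtain ⟨hfin, hcard⟩ := residue_card K w
  apply Q1_loc
  have h0 := Q1_res K w d hd
  rw [loc_good_d K w h3 d h4 hd
    (IsLocalRing.ResidueField (w.adicCompletionIntegers K)) hcard,
    H55D.loc_good0 K w h3 (IsLocalRing.ResidueField (w.adicCompletionIntegers K)) hcard]
  have hex : ∃ η : IsLocalRing.ResidueField (w.adicCompletionIntegers K),
      η ^ 2 - η = (((d - 1) / 4 : ℤ) : IsLocalRing.ResidueField (w.adicCompletionIntegers K)) := by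
    rcases solv_jacobi (IsLocalRing.ResidueField (w.adicCompletionIntegers K)) d h4 h0 with h | h
    · exact h.1
    · exfalso
      have h5 := h.2
      rw [hcard, hq, Nat.cast_pow, jacobiSym.pow_left] at h5
      have h6 := sq_nonneg (jacobiSym (q : ℤ) d.natAbs)
      omega
  have h1 : 1 + 4 * (((d - 1) / 4 : ℤ) :
      IsLocalRing.ResidueField (w.adicCompletionIntegers K)) ≠ 0 := by
    intro h
    apply h0
    have h2 : d = 1 + 4 * ((d - 1) / 4) := by omega
    rw [h2]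
    push_cast
    exact h
  rw [count_solv _ _ h1 hex]

theorem LEFd_two (hQ : H13E.Quad K₀ K) (d : ℤ) (hd : AdmD d) (w' : HeightOneSpectrum (𝓞 K₀))
    (h3 : (3 : 𝓞 K₀) ∉ w'.asIdeal) (h : Ideal.absNorm w'.asIdeal % 3 = 2)
    (w : HeightOneSpectrum (𝓞 K)) (hw : w'.asIdeal = w.asIdeal.under (𝓞 K₀)) :
    LEFd d K w = LEFd d K₀ w' * LEFd d K₀ w' := by
  have hdm := Q1_dmem K₀ w' d hd h
  have h3w : (3 : 𝓞 K) ∉ w.asIdeal := by
    intro hc
    apply h3
    rw [hw, Ideal.mem_comap, map_ofNat]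
    exact hc
  have hdw : (d : 𝓞 K) ∉ w.asIdeal := by
    intro hc
    apply hdm
    rw [hw, Ideal.mem_comap, map_intCast]
    exact hc
  obtain ⟨w₁, hw₁, hN⟩ := H13E.split_two hQ w' h3 h
  have hww : w = w₁ := (hw₁ w).1 hw
  rw [← hww] at hN
  rw [Q1_inert K₀ d hd w' h3 h, Q1_sq K d hd.four w h3w hdw _ hN]
  exact H55D.LEF_two hQ w' h3 h w hw

end H55E
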