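import Mathlib
import Pool.Agent.Lib.H55D.Q5
import Pool.Agent.Lib.H55E.L4
import Pool.Agent.Lib.H55E.Q1
import Pool.Agent.Lib.H55E.X2

open NumberField IsDedekindDomain

namespace H55E

open H55B H55C H55N

variable {K₀ K : Type} [Field K₀] [NumberField K₀] [Field K] [NumberField K] [Algebra F K] [Algebra K₀ K]

/-! Chunk Q2 (M): compare H55D/Q5 (LEF_sq, LEF_bad). w' above 3: the valuation of 3 in K₀ is exp(-1) or exp(-2) (H55D.val0_three), so that of 27 d^6 is exp(-3) or exp(-6): LEFd_bad. w' above d: val_d (UnrAt d K₀), exp(-6): LEFd K₀ w' = 1, and the same over K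
(UnrAt_up). Other w': split (N w' = 1 mod 3, H13E.split_one): LEFd_norm; inert: LEFd_two. -/

theorem Q2_val_one (K : Type) [Field K] [NumberField K] (w : HeightOneSpectrum (𝓞 K)) (x : 𝓞 K)
    (hx : x ∉ w.asIdeal) : w.valuation K (x : K) = 1 := by
  refine le_antisymm (w.valuation_le_one x) (not_lt.1 fun h => hx ?_)
  exact (w.valuation_lt_one_iff_mem x).1 h

theorem Q2_above_d (L : Type) [Field L] [NumberField L] (d : ℤ) (hd : AdmD d) (hA : UnrAt d L)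
    (v : HeightOneSpectrum (𝓞 L)) (h3 : (3 : 𝓞 L) ∉ v.asIdeal) (hdm : (d : 𝓞 L) ∈ v.asIdeal) :
    LEFd d L v = 1 := by
  apply LEFd_bad L v d (-6) (by intro k; omega)
  have h1 := Q2_val_one L v 3 h3
  have h2 : ((3 : 𝓞 L) : L) = 3 := map_ofNat _ 3
  rw [h2] at h1
  have h27 : (27 : L) = 3 ^ 3 := by norm_num
  rw [h27, map_mul, map_pow, map_pow, h1, val_d L d hd hA v hdm, one_pow, one_mul,
    ← WithZero.exp_nsmul]
  norm_num

theorem LEFd_three (K : Type) [Field K] [NumberField K] [Algebra F K] [Algebra K₀ K] (hU : UnrOut K)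
    (d : ℤ) (hd : AdmD d) (w' : HeightOneSpectrum (𝓞 K₀)) (h : (3 : 𝓞 K₀) ∈ w'.asIdeal) :
    LEFd d K₀ w' = 1 := by
  have hdm : (d : 𝓞 K₀) ∉ w'.asIdeal := by
    intro hc
    obtain ⟨a, b, hab⟩ := hd.coprime_six
    apply w'.isPrime.ne_top
    rw [Ideal.eq_top_iff_one]
    have h1 : (1 : 𝓞 K₀) = (a : 𝓞 K₀) * (d : 𝓞 K₀) + (2 * (b : 𝓞 K₀)) * 3 := by
      have h2 := congrArg (fun z : ℤ => (z : 𝓞 K₀)) hab
      push_cast at h2
      linear_combination -h2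
    rw [h1]
    exact add_mem (Ideal.mul_mem_left _ _ hc) (Ideal.mul_mem_left _ _ h)
  have hvd : w'.valuation K₀ (d : K₀) = 1 := by
    have h1 := Q2_val_one K₀ w' d hdm
    have h2 : (((d : ℤ) : 𝓞 K₀) : K₀) = (d : K₀) := map_intCast _ d
    rwa [h2] at h1
  have h27 : (27 : K₀) = 3 ^ 3 := by norm_num
  rcases H55D.val0_three K hU w' h with h3 | h3
  · apply LEFd_bad K₀ w' d (-3) (by intro k; omega)
    rw [h27, map_mul, map_pow, map_pow, h3, hvd, one_pow, mul_one, ← WithZero.exp_nsmul]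
    norm_num
  · apply LEFd_bad K₀ w' d (-6) (by intro k; omega)
    rw [h27, map_mul, map_pow, map_pow, h3, hvd, one_pow, mul_one, ← WithZero.exp_nsmul]
    norm_num

theorem LEFd_sq (hQ : H13E.Quad K₀ K) (hU : UnrOut K) (d : ℤ) (hd : AdmD d) (hA : UnrAt d K₀)
    (w' : HeightOneSpectrum (𝓞 K₀)) (h3 : (3 : 𝓞 K₀) ∉ w'.asIdeal)
    (T : Finset (HeightOneSpectrum (𝓞 K))) (hT : ∀ w, w ∈ T ↔ w'.asIdeal = w.asIdeal.under (𝓞 K₀)) :
    ∏ w ∈ T, LEFd d K w = LEFd d K₀ w' * LEFd d K₀ w' := by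
  classical
  have hdm : ∀ w : HeightOneSpectrum (𝓞 K), w'.asIdeal = w.asIdeal.under (𝓞 K₀) →
      ((d : 𝓞 K) ∈ w.asIdeal ↔ (d : 𝓞 K₀) ∈ w'.asIdeal) := by
    intro w hw
    rw [hw, Ideal.mem_comap, map_intCast]
  by_cases hdw : (d : 𝓞 K₀) ∈ w'.asIdeal
  · rw [Q2_above_d K₀ d hd hA w' h3 hdw, mul_one]
    refine Finset.prod_eq_one fun w hw => ?_
    have hw1 := (hT w).1 hw
    exact Q2_above_d K d hd (UnrAt_up hQ d hd hA) w
      (fun hc => h3 ((H13E.q5_mem w' w hw1 3).2 hc)) ((hdm w hw1).2 hdw)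
  rcases H13E.norm_mod3 w' h3 with h | h
  · obtain ⟨w₁, w₂, hne, hall, hn1, hn2⟩ := H13E.split_one hQ w' h3 h
    have hT' : T = {w₁, w₂} := by
      ext w
      rw [hT, hall, Finset.mem_insert, Finset.mem_singleton]
    have hw1 := (hall w₁).2 (Or.inl rfl)
    have hw2 := (hall w₂).2 (Or.inr rfl)
    rw [hT', Finset.prod_pair hne,
      LEFd_norm K K₀ d hd.four w₁ w' (fun hc => h3 ((H13E.q5_mem w' w₁ hw1 3).2 hc)) h3
        (fun hc => hdw ((hdm w₁ hw1).1 hc)) hdw hn1,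
      LEFd_norm K K₀ d hd.four w₂ w' (fun hc => h3 ((H13E.q5_mem w' w₂ hw2 3).2 hc)) h3
        (fun hc => hdw ((hdm w₂ hw2).1 hc)) hdw hn2]
  · obtain ⟨w₁, hall, hn1⟩ := H13E.split_two hQ w' h3 h
    have hT' : T = {w₁} := by
      ext w
      rw [hT, hall, Finset.mem_singleton]
    rw [hT', Finset.prod_singleton]
    exact LEFd_two hQ d hd w' h3 h w₁ ((hall w₁).2 rfl)

end H55E
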