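import Mathlib
import Pool.Agent.Lib.H55D.QA
import Pool.Agent.Lib.H55E.L6
import Pool.Agent.Lib.H55E.Q3

open NumberField IsDedekindDomain

namespace H55E

open H55B H55C H55N

variable {K₀ K : Type} [Field K₀] [NumberField K₀] [Field K] [NumberField K] [Algebra F K] [Algebra K₀ K]

/-! Chunk Q4 (M): COPY of H55D/QA with Psi K replaced by Psi K * chd d K: chd depends only on absNorm a, which is invariant under the automorphism c. LFund0: LFund_sq, LFunctiond, AId_real: L(K₀)^2 = AI^2 and both have the value 1 at 1: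
H13E.sqrt_unique. -/

omit [Algebra F K] in
theorem Q4_chd (d : ℤ) (σ : 𝓞 K ≃+* 𝓞 K) (a : Ideal (𝓞 K)) :
    chd d K (a.map (σ : 𝓞 K →+* 𝓞 K)) = chd d K a := by
  show (if a.map (σ : 𝓞 K →+* 𝓞 K) = ⊥ then (0 : ℂ) else
      (jacobiSym (Ideal.absNorm (a.map (σ : 𝓞 K →+* 𝓞 K))) d.natAbs : ℂ)) =
    if a = ⊥ then 0 else (jacobiSym (Ideal.absNorm a) d.natAbs : ℂ)
  rw [H55D.DQA_absNorm]
  have hi : a.map (σ : 𝓞 K →+* 𝓞 K) = ⊥ ↔ a = ⊥ :=
    Ideal.map_eq_bot_iff_of_injective (f := (σ : 𝓞 K →+* 𝓞 K)) σ.injective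
  by_cases ha : a = ⊥
  · rw [if_pos ha, if_pos (hi.2 ha)]
  · rw [if_neg ha, if_neg (fun h => ha (hi.1 h))]

omit [Algebra F K] in
theorem Q4_conj_chd (d : ℤ) (a : Ideal (𝓞 K)) :
    (starRingEnd ℂ) (chd d K a) = chd d K a := by
  show (starRingEnd ℂ) (if a = ⊥ then (0 : ℂ) else (jacobiSym (Ideal.absNorm a) d.natAbs : ℂ)) =
    if a = ⊥ then 0 else (jacobiSym (Ideal.absNorm a) d.natAbs : ℂ)
  by_cases ha : a = ⊥
  · rw [if_pos ha, map_zero]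
  · rw [if_neg ha]
    exact map_intCast _ _

theorem AId_real (hQ : H13E.Quad K₀ K) (d : ℤ) :
    AI (fun a : Ideal (𝓞 K) => (starRingEnd ℂ) ((Psi K * chd d K : Ideal (𝓞 K) →*₀ ℂ) a)) =
      AI (Psi K * chd d K : Ideal (𝓞 K) →*₀ ℂ) := by
  obtain ⟨c, -, hc, -, -, -⟩ := H13E.exists_c hQ
  obtain ⟨σ, hσ⟩ := H55D.DQA_sigma c hc
  let E : Ideal (𝓞 K) ≃ Ideal (𝓞 K) :=
    { toFun := fun a => a.map (σ : 𝓞 K →+* 𝓞 K)
      invFun := fun a => a.map (σ.symm : 𝓞 K →+* 𝓞 K)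
      left_inv := fun a => Ideal.map_of_equiv σ
      right_inv := fun a => Ideal.map_of_equiv σ.symm }
  ext n
  show (if n = 0 then 0 else ∑ᶠ (a : Ideal (𝓞 K)) (_ : Ideal.absNorm a = n),
      (starRingEnd ℂ) (Psi K a * chd d K a)) =
    if n = 0 then 0 else ∑ᶠ (a : Ideal (𝓞 K)) (_ : Ideal.absNorm a = n), Psi K a * chd d K a
  by_cases hn : n = 0
  · rw [if_pos hn, if_pos hn]
  · rw [if_neg hn, if_neg hn,
      ← finsum_comp_equiv E
        (f := fun b : Ideal (𝓞 K) => ∑ᶠ (_ : Ideal.absNorm b = n), Psi K b * chd d K b)]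
    refine finsum_congr fun a => ?_
    show _ = ∑ᶠ (_ : Ideal.absNorm (a.map (σ : 𝓞 K →+* 𝓞 K)) = n),
      Psi K (a.map (σ : 𝓞 K →+* 𝓞 K)) * chd d K (a.map (σ : 𝓞 K →+* 𝓞 K))
    rw [H55D.DQA_absNorm, H55D.DQA_Psi σ hσ, Q4_chd, map_mul, Q4_conj_chd]

theorem Q4_LEF_one (d : ℤ) (L : Type) [Field L] [NumberField L] (w : HeightOneSpectrum (𝓞 L)) :
    LEFd d L w 1 = 1 := by
  unfold LEFd WeierstrassCurve.localEulerFactor
  rw [ArithmeticFunction.intCoe_apply]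
  simp [WeierstrassCurve.localPowerSeries]

theorem Q4_LFun_one (d : ℤ) (L : Type) [Field L] [NumberField L] :
    ((((Ed d).baseChange L).LFunction 1 : ℤ) : ℂ) = 1 := by
  obtain ⟨s, hs⟩ := (Q3_ev d L 1).exists
  rw [← hs]
  exact H55D.DQA_prod_one s _ fun w _ => Q4_LEF_one d L w

omit [Algebra F K] in
theorem Q4_AI_one (χ : Ideal (𝓞 K) →*₀ ℂ) : AI χ 1 = 1 := by
  show (if (1 : ℕ) = 0 then (0 : ℂ) else
    ∑ᶠ (a : Ideal (𝓞 K)) (_ : Ideal.absNorm a = 1), χ a) = 1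
  rw [if_neg one_ne_zero, finsum_eq_single _ (1 : Ideal (𝓞 K))]
  · rw [finsum_eq_if, if_pos (map_one _), map_one]
  · intro x hx
    rw [finsum_eq_if, if_neg]
    intro hn
    exact hx (by rw [Ideal.absNorm_eq_one_iff] at hn; rw [hn, Ideal.one_eq_top])

theorem LFund0 (hQ : H13E.Quad K₀ K) (hU : UnrOut K) (d : ℤ) (hd : AdmD d) (hA : UnrAt d K₀)
    (n : ℕ) :
    ((((Ed d).baseChange K₀).LFunction n : ℤ) : ℂ) =
      AI (Psi K * chd d K : Ideal (𝓞 K) →*₀ ℂ) n := by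
  have hf1 : ((((Ed d).baseChange K₀).LFunction : ArithmeticFunction ℤ) : ArithmeticFunction ℂ) 1 =
      1 := by
    rw [ArithmeticFunction.intCoe_apply]
    exact Q4_LFun_one d K₀
  have hsq : ∀ m, (((((Ed d).baseChange K₀).LFunction : ArithmeticFunction ℤ) :
        ArithmeticFunction ℂ) *
      ((((Ed d).baseChange K₀).LFunction : ArithmeticFunction ℤ) : ArithmeticFunction ℂ)) m =
      (AI (Psi K * chd d K : Ideal (𝓞 K) →*₀ ℂ) * AI (Psi K * chd d K : Ideal (𝓞 K) →*₀ ℂ)) m := by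
    intro m
    rw [← LFund_sq hQ hU d hd hA m, LFunctiond K hU d hd (UnrAt_up hQ d hd hA) m, AId_real hQ]
  have hfg := H13E.sqrt_unique hf1 (g := AI (Psi K * chd d K : Ideal (𝓞 K) →*₀ ℂ))
    (Q4_AI_one _) hsq
  rw [← hfg, ArithmeticFunction.intCoe_apply]

end H55E
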