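import Mathlib
import Pool.Agent.Lib.H55C.B9
import Pool.Agent.Lib.H55E.Q4
import Pool.Agent.Lib.H55N.H3
import Pool.Agent.Lib.H55N.H6

open NumberField IsDedekindDomain

namespace H55E

open H55B H55C H55N

variable {K₀ K : Type} [Field K₀] [NumberField K₀] [Field K] [NumberField K] [Algebra F K] [Algebra K₀ K]

/-! Chunk Q5 (S): COPY of H55D/V with Psi K replaced by Psi K * chd d K and LFun0 by LFund0. -/

theorem Q5_norm_le (d : ℤ) (a : Ideal (𝓞 K)) :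
    ‖(Psi K * chd d K : Ideal (𝓞 K) →*₀ ℂ) a‖ ^ 2 ≤ Ideal.absNorm a := by
  have h1 : ‖chd d K a‖ ≤ 1 := by
    show ‖(if a = ⊥ then (0 : ℂ) else (jacobiSym (Ideal.absNorm a) d.natAbs : ℂ))‖ ≤ 1
    by_cases ha : a = ⊥
    · rw [if_pos ha, norm_zero]
      exact zero_le_one
    · rw [if_neg ha]
      rcases jacobiSym.trichotomy (Ideal.absNorm a : ℤ) d.natAbs with h | h | h <;> rw [h] <;> simp
  refine le_trans ?_ (Psi_norm_le a)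
  show ‖Psi K a * chd d K a‖ ^ 2 ≤ _
  rw [norm_mul]
  have h2 : ‖Psi K a‖ * ‖chd d K a‖ ≤ ‖Psi K a‖ := by
    calc ‖Psi K a‖ * ‖chd d K a‖ ≤ ‖Psi K a‖ * 1 := by gcongr
      _ = ‖Psi K a‖ := mul_one _
  gcongr

theorem L_val0d (hQ : H13E.Quad K₀ K) (hU : UnrOut K) (d : ℤ) (hd : AdmD d) (hA : UnrAt d K₀)
    (h : LV (Psi K * chd d K : Ideal (𝓞 K) →*₀ ℂ)) :
    ∃ Λ : ℂ → ℂ, AnalyticOnNhd ℂ Λ {s | 1 / 2 < s.re} ∧
      (∀ s : ℂ, 3 / 2 < s.re →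
        LSeriesSummable (fun n => ((((Ed d).baseChange K₀).LFunction n : ℤ) : ℂ)) s ∧
        Λ s = ((Ed d).baseChange K₀).LSeries s) ∧ Λ 1 ≠ 0 ∧
      Unit2 (Λ 1 / R0 ^ Module.finrank F K) := by
  obtain ⟨Λ, hA', hsum, hval⟩ := h
  refine ⟨Λ, hA', ?_, (div_ne_zero_iff.1 hval.ne_zero).1, hval⟩
  intro s hs
  have h0 : (Psi K * chd d K : Ideal (𝓞 K) →*₀ ℂ) ⊥ = 0 :=
    (Psi K * chd d K : Ideal (𝓞 K) →*₀ ℂ).map_zero
  have h1 := AI_LSeries (fun a => (Psi K * chd d K : Ideal (𝓞 K) →*₀ ℂ) a) h0 s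
    (tm_summable (fun a => (Psi K * chd d K : Ideal (𝓞 K) →*₀ ℂ) a) (Q5_norm_le d) s hs)
  have h2 : ∑' a : Ideal (𝓞 K), tm (fun a => (Psi K * chd d K : Ideal (𝓞 K) →*₀ ℂ) a) s a = Λ s :=
    (hsum s hs).tsum_eq
  rw [h2] at h1
  have key : LSeriesHasSum (fun n => ((((Ed d).baseChange K₀).LFunction n : ℤ) : ℂ)) s (Λ s) := by
    have e1 : (fun n => ((((Ed d).baseChange K₀).LFunction n : ℤ) : ℂ)) =
        fun n => AI (fun a => (Psi K * chd d K : Ideal (𝓞 K) →*₀ ℂ) a) n := by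
      funext n
      exact LFund0 hQ hU d hd hA n
    rw [e1]
    exact h1
  exact ⟨key.LSeriesSummable, key.LSeries_eq.symm⟩

end H55E
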