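import Mathlib
import Pool.Agent.Lib.H55B.K2
import Pool.Agent.Lib.H55E.Defs

open NumberField IsDedekindDomain

namespace H55E

open H55B H55C

/-! Chunk A1 (M): the twist isomorphism E_d -> E27 over a field k containing δ, δ^2 = d: (x, y) -> (x/d, y'), 2y' + 1 = (2y + 1)/δ^3.
(2y+1)^2 = 4x^3 + d^3 becomes (2y'+1)^2 = 4(x/d)^3 + 1. Additivity: zero to zero; negation y -> -y-1 corresponds; the slope of E27 through the images is the slope of E_d divided by
δ: l' = (y1' - y2')/(x1' - x2') = (d/δ^3)(y1 - y2)/(x1 - x2) = l/δ, and tangents 3x'^2/(2y'+1) = (3x^2/d^2) δ^3/(2y+1) = (3x^2/(2y+1))/δ. x3 = l^2 - x1 - x2 scales by d = δ^2. Use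
WeierstrassCurve.Affine.Point.add_some, slope_of_X_ne, slope_of_Y_ne, add_of_Y_eq (as in K2, W11, DT1_add). -/

theorem A1_coeffs (k : Type) [Field k] [CharZero k] (d : ℤ) :
    ((Ed d).baseChange k).toAffine.a₁ = 0 ∧ ((Ed d).baseChange k).toAffine.a₂ = 0 ∧
    ((Ed d).baseChange k).toAffine.a₃ = 1 ∧ ((Ed d).baseChange k).toAffine.a₄ = 0 ∧
    ((Ed d).baseChange k).toAffine.a₆ = ((d : k) ^ 3 - 1) / 4 := by
  refine ⟨?_, ?_, ?_, ?_, ?_⟩ <;>
  simp [Ed, WeierstrassCurve.baseChange, WeierstrassCurve.toAffine, WeierstrassCurve.map]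

theorem A1_eqn (k : Type) [Field k] [CharZero k] (d : ℤ) (x y : k)
    (h : ((Ed d).baseChange k).toAffine.Nonsingular x y) :
    (2 * y + 1) ^ 2 = 4 * x ^ 3 + (d : k) ^ 3 := by
  obtain ⟨h1, h2, h3, h4, h6⟩ := A1_coeffs k d
  have h0 := h.1
  rw [WeierstrassCurve.Affine.equation_iff, h1, h2, h3, h4, h6] at h0
  have h5 : ((d : k) ^ 3 - 1) / 4 * 4 = (d : k) ^ 3 - 1 := div_mul_cancel₀ _ (by norm_num)
  linear_combination 4 * h0 + h5

/-- the second coordinate -/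
noncomputable def A1_Y {k : Type} [Field k] (δ y : k) : k := ((2 * y + 1) / δ ^ 3 - 1) / 2

theorem A1_Y2 {k : Type} [Field k] [CharZero k] (δ y : k) :
    2 * A1_Y δ y + 1 = (2 * y + 1) / δ ^ 3 := by
  unfold A1_Y
  rw [mul_div_cancel₀ _ (two_ne_zero : (2 : k) ≠ 0), sub_add_cancel]

theorem A1_Yinj {k : Type} [Field k] [CharZero k] {δ : k} (h0 : δ ≠ 0) {y z : k}
    (h : A1_Y δ y = A1_Y δ z) : y = z := by
  have h1 := A1_Y2 δ y
  rw [h, A1_Y2, div_left_inj' (pow_ne_zero 3 h0)] at h1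
  have h2 : (2 : k) * (y - z) = 0 := by linear_combination -h1
  exact sub_eq_zero.1 ((mul_eq_zero.1 h2).resolve_left two_ne_zero)

theorem A1_Yneg {k : Type} [Field k] [CharZero k] (δ y : k) :
    A1_Y δ (-y - 1) = -A1_Y δ y - 1 := by
  have h1 := A1_Y2 δ y
  have h2 := A1_Y2 δ (-y - 1)
  have h3 : (2 * (-y - 1) + 1) / δ ^ 3 = -((2 * y + 1) / δ ^ 3) := by ring
  rw [h3, ← h1] at h2
  have h4 : (2 : k) * (A1_Y δ (-y - 1) - (-A1_Y δ y - 1)) = 0 := by linear_combination h2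
  exact sub_eq_zero.1 ((mul_eq_zero.1 h4).resolve_left two_ne_zero)

theorem A1_ns (k : Type) [Field k] [CharZero k] (d : ℤ) (hd : d ≠ 0) (δ : k)
    (hδ : δ ^ 2 = (d : k)) {x y : k} (h : ((Ed d).baseChange k).toAffine.Nonsingular x y) :
    (E27.baseChange k).toAffine.Nonsingular (x / d) (A1_Y δ y) := by
  rw [nonsing_iff]
  have hd0 : (d : k) ≠ 0 := Int.cast_ne_zero.2 hd
  have h1 : (2 * A1_Y δ y + 1) ^ 2 = 4 * (x / (d : k)) ^ 3 + 1 := by
    rw [A1_Y2, div_pow, ← pow_mul, div_pow]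
    have h2 : δ ^ (3 * 2) = (d : k) ^ 3 := by
      rw [← hδ]
      ring
    rw [h2, A1_eqn k d x y h]
    field_simp
  have h2 : (4 : k) * (A1_Y δ y ^ 2 + A1_Y δ y) = 4 * (x / (d : k)) ^ 3 := by
    linear_combination h1
  exact mul_left_cancel₀ (by norm_num) h2

/-- the map -/
noncomputable def A1_fun (k : Type) [Field k] [CharZero k] (d : ℤ) (hd : d ≠ 0) (δ : k)
    (hδ : δ ^ 2 = (d : k)) :
    ((Ed d).baseChange k).toAffine.Point → (E27.baseChange k).toAffine.Point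
  | WeierstrassCurve.Affine.Point.zero => 0
  | WeierstrassCurve.Affine.Point.some _ _ h =>
    WeierstrassCurve.Affine.Point.some _ _ (A1_ns k d hd δ hδ h)

theorem A1_congr {k : Type} [Field k] {W : WeierstrassCurve.Affine k} {x x' y y' : k}
    (h : W.Nonsingular x y) (h' : W.Nonsingular x' y') (hx : x = x') (hy : y = y') :
    WeierstrassCurve.Affine.Point.some x y h = WeierstrassCurve.Affine.Point.some x' y' h' := by
  subst hx
  subst hy
  rfl

theorem A1_negY (k : Type) [Field k] [CharZero k] (d : ℤ) (x y : k) :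
    ((Ed d).baseChange k).toAffine.negY x y = -y - 1 := by
  obtain ⟨h1, h2, h3, h4, h6⟩ := A1_coeffs k d
  rw [WeierstrassCurve.Affine.negY, h1, h3]
  ring

theorem A1_negY' (k : Type) [Field k] [CharZero k] (x y : k) :
    (E27.baseChange k).toAffine.negY x y = -y - 1 := by
  obtain ⟨h1, h2, h3, h4, h6⟩ := K2_coeffs k
  rw [WeierstrassCurve.Affine.negY, h1, h3]
  ring

theorem A1_slope (k : Type) [Field k] [CharZero k] [DecidableEq k] (d : ℤ) (hd : d ≠ 0) (δ : k)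
    (hδ : δ ^ 2 = (d : k)) (x₁ x₂ y₁ y₂ : k) :
    (E27.baseChange k).toAffine.slope (x₁ / d) (x₂ / d) (A1_Y δ y₁) (A1_Y δ y₂) =
      ((Ed d).baseChange k).toAffine.slope x₁ x₂ y₁ y₂ / δ := by
  have hd0 : (d : k) ≠ 0 := Int.cast_ne_zero.2 hd
  have hδ0 : δ ≠ 0 := by
    rintro rfl
    rw [zero_pow two_ne_zero] at hδ
    exact hd0 hδ.symm
  obtain ⟨h1, h2, h3, h4, h6⟩ := A1_coeffs k d
  obtain ⟨g1, g2, g3, g4, g6⟩ := K2_coeffs k
  have hY1 := A1_Y2 δ y₁
  have hY2 := A1_Y2 δ y₂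
  by_cases hx : x₁ = x₂
  · have hx' : x₁ / (d : k) = x₂ / d := by rw [hx]
    by_cases hy : y₁ = ((Ed d).baseChange k).toAffine.negY x₂ y₂
    · have hy' : A1_Y δ y₁ = (E27.baseChange k).toAffine.negY (x₂ / d) (A1_Y δ y₂) := by
        rw [A1_negY', hy, A1_negY, A1_Yneg]
      rw [WeierstrassCurve.Affine.slope_of_Y_eq hx hy, WeierstrassCurve.Affine.slope_of_Y_eq hx' hy',
        zero_div]
    · have hy' : A1_Y δ y₁ ≠ (E27.baseChange k).toAffine.negY (x₂ / d) (A1_Y δ y₂) := by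
        rw [A1_negY', ← A1_Yneg]
        intro h
        apply hy
        rw [A1_negY]
        exact A1_Yinj hδ0 h
      rw [WeierstrassCurve.Affine.slope_of_Y_ne hx hy, WeierstrassCurve.Affine.slope_of_Y_ne hx' hy',
        A1_negY', A1_negY, h1, h2, h4, g1, g2, g4]
      have e1 : A1_Y δ y₁ - (-A1_Y δ y₁ - 1) = (2 * y₁ + 1) / δ ^ 3 := by
        rw [← hY1]
        ring
      have e2 : y₁ - (-y₁ - 1) = 2 * y₁ + 1 := by ring
      rw [e1, e2]
      have e3 : (3 * (x₁ / (d : k)) ^ 2 + 2 * 0 * (x₁ / (d : k)) + 0 - 0 * A1_Y δ y₁) =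
          3 * x₁ ^ 2 / δ ^ 4 := by
        have : δ ^ 4 = (d : k) ^ 2 := by rw [← hδ]; ring
        rw [this, div_pow]
        ring
      have e4 : 3 * x₁ ^ 2 + 2 * 0 * x₁ + 0 - 0 * y₁ = 3 * x₁ ^ 2 := by ring
      rw [e3, e4, div_div_div_eq, div_div]
      have e5 : δ ^ 4 * (2 * y₁ + 1) = δ ^ 3 * ((2 * y₁ + 1) * δ) := by ring
      rw [e5, mul_comm (3 * x₁ ^ 2) (δ ^ 3), mul_div_mul_left _ _ (pow_ne_zero 3 hδ0)]
  · have hx' : x₁ / (d : k) ≠ x₂ / d := fun h => hx ((div_left_inj' hd0).1 h)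
    rw [WeierstrassCurve.Affine.slope_of_X_ne hx, WeierstrassCurve.Affine.slope_of_X_ne hx']
    have e1 : A1_Y δ y₁ - A1_Y δ y₂ = (y₁ - y₂) / δ ^ 3 := by
      have : (2 : k) * (A1_Y δ y₁ - A1_Y δ y₂ - (y₁ - y₂) / δ ^ 3) = 0 := by
        linear_combination hY1 - hY2
      exact sub_eq_zero.1 ((mul_eq_zero.1 this).resolve_left two_ne_zero)
    rw [e1, ← hδ]
    have hx0 : x₁ - x₂ ≠ 0 := sub_ne_zero.2 hx
    field_simp

theorem A1_add (k : Type) [Field k] [CharZero k] [DecidableEq k] (d : ℤ) (hd : d ≠ 0) (δ : k)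
    (hδ : δ ^ 2 = (d : k)) (P Q : ((Ed d).baseChange k).toAffine.Point) :
    A1_fun k d hd δ hδ (P + Q) = A1_fun k d hd δ hδ P + A1_fun k d hd δ hδ Q := by
  have hd0 : (d : k) ≠ 0 := Int.cast_ne_zero.2 hd
  have hδ0 : δ ≠ 0 := by
    rintro rfl
    rw [zero_pow two_ne_zero] at hδ
    exact hd0 hδ.symm
  obtain ⟨h1, h2, h3, h4, h6⟩ := A1_coeffs k d
  obtain ⟨g1, g2, g3, g4, g6⟩ := K2_coeffs k
  rcases P with _ | ⟨x₁, y₁, hP⟩
  · have e : (WeierstrassCurve.Affine.Point.zero : ((Ed d).baseChange k).toAffine.Point) = 0 := rfl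
    rw [e, zero_add]
    exact (zero_add _).symm
  rcases Q with _ | ⟨x₂, y₂, hQ⟩
  · have e : (WeierstrassCurve.Affine.Point.zero : ((Ed d).baseChange k).toAffine.Point) = 0 := rfl
    rw [e, add_zero]
    exact (add_zero _).symm
  by_cases hxy : x₁ = x₂ ∧ y₁ = ((Ed d).baseChange k).toAffine.negY x₂ y₂
  · rw [WeierstrassCurve.Affine.Point.add_of_Y_eq hxy.1 hxy.2]
    symm
    refine WeierstrassCurve.Affine.Point.add_of_Y_eq (by rw [hxy.1]) ?_
    rw [A1_negY', hxy.2, A1_negY, A1_Yneg]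
  · have hxy' : ¬(x₁ / (d : k) = x₂ / d ∧
        A1_Y δ y₁ = (E27.baseChange k).toAffine.negY (x₂ / d) (A1_Y δ y₂)) := by
      rintro ⟨ha, hb⟩
      apply hxy
      refine ⟨(div_left_inj' hd0).1 ha, ?_⟩
      rw [A1_negY]
      rw [A1_negY', ← A1_Yneg] at hb
      exact A1_Yinj hδ0 hb
    rw [WeierstrassCurve.Affine.Point.add_some hxy]
    have hsum : A1_fun k d hd δ hδ (WeierstrassCurve.Affine.Point.some x₁ y₁ hP) +
        A1_fun k d hd δ hδ (WeierstrassCurve.Affine.Point.some x₂ y₂ hQ) =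
        WeierstrassCurve.Affine.Point.some _ _ (WeierstrassCurve.Affine.nonsingular_add
          (A1_ns k d hd δ hδ hP) (A1_ns k d hd δ hδ hQ) hxy') :=
      WeierstrassCurve.Affine.Point.add_some hxy'
    rw [hsum]
    have hX : (E27.baseChange k).toAffine.addX (x₁ / d) (x₂ / d)
        ((E27.baseChange k).toAffine.slope (x₁ / d) (x₂ / d) (A1_Y δ y₁) (A1_Y δ y₂)) =
        ((Ed d).baseChange k).toAffine.addX x₁ x₂
          (((Ed d).baseChange k).toAffine.slope x₁ x₂ y₁ y₂) / d := by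
      rw [A1_slope k d hd δ hδ, WeierstrassCurve.Affine.addX, WeierstrassCurve.Affine.addX,
        h1, h2, g1, g2, div_pow, hδ]
      ring
    refine A1_congr _ _ hX.symm ?_
    rw [WeierstrassCurve.Affine.addY, WeierstrassCurve.Affine.negAddY, A1_negY]
    rw [WeierstrassCurve.Affine.addY, WeierstrassCurve.Affine.negAddY, A1_negY', hX,
      A1_slope k d hd δ hδ]
    set l := ((Ed d).baseChange k).toAffine.slope x₁ x₂ y₁ y₂
    set X3 := ((Ed d).baseChange k).toAffine.addX x₁ x₂ l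
    have hY1 := A1_Y2 δ y₁
    have hY2 := A1_Y2 δ (-(l * (X3 - x₁) + y₁) - 1)
    have e1 : (2 * (-(l * (X3 - x₁) + y₁) - 1) + 1) / δ ^ 3 =
        -(2 * (l / δ * (X3 / (d : k) - x₁ / (d : k)))) - (2 * y₁ + 1) / δ ^ 3 := by
      rw [← hδ]
      field_simp
      ring
    rw [e1] at hY2
    have e2 : (2 : k) * (A1_Y δ (-(l * (X3 - x₁) + y₁) - 1) -
        (-(l / δ * (X3 / (d : k) - x₁ / (d : k)) + A1_Y δ y₁) - 1)) = 0 := by
      linear_combination hY2 + hY1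
    exact sub_eq_zero.1 ((mul_eq_zero.1 e2).resolve_left two_ne_zero)

open Classical in
theorem exists_twist (k : Type) [Field k] [CharZero k] (d : ℤ) (hd : d ≠ 0) (δ : k)
    (hδ : δ ^ 2 = (d : k)) :
    ∃ f : ((Ed d).baseChange k).toAffine.Point →+ (E27.baseChange k).toAffine.Point,
      Function.Injective f ∧
      ∀ (x y : k) (h : ((Ed d).baseChange k).toAffine.Nonsingular x y),
        ∃ h' : (E27.baseChange k).toAffine.Nonsingular (x / d) (((2 * y + 1) / δ ^ 3 - 1) / 2),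
        f (WeierstrassCurve.Affine.Point.some x y h) =
          WeierstrassCurve.Affine.Point.some (x / d) (((2 * y + 1) / δ ^ 3 - 1) / 2) h' := by
  have hd0 : (d : k) ≠ 0 := Int.cast_ne_zero.2 hd
  have hδ0 : δ ≠ 0 := by
    rintro rfl
    rw [zero_pow two_ne_zero] at hδ
    exact hd0 hδ.symm
  refine ⟨AddMonoidHom.mk' (A1_fun k d hd δ hδ) (A1_add k d hd δ hδ), ?_, ?_⟩
  · intro P Q hPQ
    have hPQ' : A1_fun k d hd δ hδ P = A1_fun k d hd δ hδ Q := hPQ
    rcases P with _ | ⟨x₁, y₁, hP⟩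
    · rcases Q with _ | ⟨x₂, y₂, hQ⟩
      · rfl
      · exact absurd hPQ'.symm (WeierstrassCurve.Affine.Point.some_ne_zero _)
    · rcases Q with _ | ⟨x₂, y₂, hQ⟩
      · exact absurd hPQ' (WeierstrassCurve.Affine.Point.some_ne_zero _)
      · have h1 := WeierstrassCurve.Affine.Point.some.inj hPQ'
        exact A1_congr _ _ ((div_left_inj' hd0).1 h1.1) (A1_Yinj hδ0 h1.2)
  · intro x y h
    exact ⟨A1_ns k d hd δ hδ h, rfl⟩

end H55E
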