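import Mathlib
import Pool.Agent.Lib.H55D.T2
import Pool.Agent.Lib.H55E.A1
import Pool.Agent.Lib.H55E.X2
import Pool.Agent.Lib.H55N.B1

open NumberField IsDedekindDomain

namespace H55E

open H55B H55C H55N

variable {K₀ : Type} [Field K₀] [NumberField K₀]

/-! Chunk T2 (M): w above 3: as tam0_three (H55D/T2). W a prime of K' above w, the map of completions iota (H55C.exists_iota, with 1 <= v(x) iff 1 <= v(iota x)); the homomorphism E_d(K₀_w) -> E_d(K'_W) -> E27(K'_W) (Point.map, exists_twist with the image of δ, and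
AddMonoidHom.comp) is injective and (x, y) -> (x/d, y'), 2y'+1 = (2y+1)/δ^3, d and δ are units at W: the preimage of E0 is E0d. The set E0 (W11_S) of E27 is closed under addition (DT1_add) and odd index: H55C.tam_odd; index_dvd as in tam0_three. -/

/-- points of nonsingular reduction on the twist -/
def ET2_S (d : ℤ) {k : Type} [Field k] [Algebra ℚ k] (v : Valuation k (WithZero (Multiplicative ℤ))) :
    Set ((Ed d).baseChange k).toAffine.Point :=
  {P | P = 0 ∨ ∃ (x y : k) (h : ((Ed d).baseChange k).toAffine.Nonsingular x y),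
    P = WeierstrassCurve.Affine.Point.some x y h ∧ (1 ≤ v (3 * x ^ 2) ∨ 1 ≤ v (2 * y + 1))}

theorem ET2_int {k : Type} [Field k] (v : Valuation k (WithZero (Multiplicative ℤ))) (n : ℤ) :
    v (n : k) ≤ 1 := by
  have hn : ∀ n : ℕ, v (n : k) ≤ 1 := by
    intro n
    induction n with
    | zero => rw [Nat.cast_zero, map_zero]; exact zero_le
    | succ n ih =>
      rw [Nat.cast_succ]
      exact (v.map_add _ _).trans (max_le ih (by rw [map_one]))
  rcases Int.eq_nat_or_neg n with ⟨m, rfl | rfl⟩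
  · rw [Int.cast_natCast]
    exact hn m
  · rw [Int.cast_neg, Int.cast_natCast, Valuation.map_neg]
    exact hn m

theorem ET2_unit {k : Type} [Field k] (v : Valuation k (WithZero (Multiplicative ℤ))) (h3 : v 3 < 1)
    (d : ℤ) (hd : IsCoprime d 6) : v (d : k) = 1 := by
  obtain ⟨a, b, hab⟩ := hd
  have h6 : v (((b * 6 : ℤ)) : k) < 1 := by
    have e : (((b * 6 : ℤ)) : k) = ((b * 2 : ℤ) : k) * 3 := by
      push_cast
      ring
    rw [e, map_mul]
    exact lt_of_le_of_lt (mul_le_of_le_one_left' (ET2_int v _)) h3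
  have h1 : (a : k) * (d : k) = 1 - ((b * 6 : ℤ) : k) := by
    have : ((a * d + b * 6 : ℤ) : k) = 1 := by rw [hab, Int.cast_one]
    push_cast at this ⊢
    linear_combination this
  have h2 : v ((a : k) * (d : k)) = 1 := by
    rw [h1]
    have e : (1 : k) - ((b * 6 : ℤ) : k) = 1 + -((b * 6 : ℤ) : k) := by ring
    rw [e, Valuation.map_add_eq_of_lt_left v (by rw [Valuation.map_neg, map_one]; exact h6), map_one]
  rw [map_mul] at h2
  refine le_antisymm (ET2_int v d) ?_
  calc (1 : WithZero (Multiplicative ℤ)) = v (a : k) * v (d : k) := h2.symm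
    _ ≤ v (d : k) := mul_le_of_le_one_left' (ET2_int v a)

open H55D in
theorem ET2_index {k k' : Type} [Field k] [Field k'] [CharZero k] [CharZero k'] [DecidableEq k]
    [DecidableEq k'] (v : Valuation k (WithZero (Multiplicative ℤ)))
    (v' : Valuation k' (WithZero (Multiplicative ℤ))) (h3' : v' 3 < 1)
    (ι : k →+* k') (e : ℕ) (he : 0 < e) (hv : ∀ z, v' (ι z) = v z ^ e)
    (d : ℤ) (hd : d ≠ 0) (hdv : v' (d : k') = 1) (δ : k') (hδ : δ ^ 2 = (d : k')) :
    (AddSubgroup.closure (ET2_S d v : Set ((Ed d).baseChange k).toAffine.Point)).index ∣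
      (AddSubgroup.closure (W11_S v' : Set (E27.baseChange k').toAffine.Point)).index := by
  let f0 := WeierstrassCurve.Affine.Point.map (W' := Ed d) ι.toRatAlgHom
  let f1 : ((Ed d).baseChange k').toAffine.Point →+ (E27.baseChange k').toAffine.Point :=
    AddMonoidHom.mk' (A1_fun k' d hd δ hδ) (A1_add k' d hd δ hδ)
  let f := f1.comp f0
  have hδv : v' δ = 1 := by
    have h1 : v' δ ^ 2 = 1 := by rw [← map_pow, hδ, hdv]
    exact (pow_eq_one_iff_of_nonneg zero_le two_ne_zero).1 h1
  have hmem : ∀ P, P ∈ ET2_S d v ↔ f P ∈ W11_S v' := by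
    intro P
    rcases P with _ | ⟨x, y, h⟩
    · exact ⟨fun _ => Or.inl rfl, fun _ => Or.inl rfl⟩
    · obtain ⟨h', hf⟩ : ∃ h' : (E27.baseChange k').toAffine.Nonsingular (ι x / d) (A1_Y δ (ι y)),
          f (WeierstrassCurve.Affine.Point.some x y h) =
          WeierstrassCurve.Affine.Point.some (ι x / d) (A1_Y δ (ι y)) h' := ⟨_, rfl⟩
      rw [hf]
      have e1 : v' (3 * (ι x / d) ^ 2) = v (3 * x ^ 2) ^ e := by
        have a : ι (3 * x ^ 2) = 3 * (ι x) ^ 2 := by rw [map_mul, map_pow, map_ofNat]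
        rw [← hv, a, div_pow, map_mul v', map_div₀ v', map_pow v' (d : k'), hdv,
          one_pow, div_one, map_mul v']
      have e2 : v' (2 * A1_Y δ (ι y) + 1) = v (2 * y + 1) ^ e := by
        have a : ι (2 * y + 1) = 2 * ι y + 1 := by rw [map_add, map_mul, map_ofNat, map_one]
        rw [← hv, a, A1_Y2, map_div₀ v', map_pow v', hδv, one_pow, div_one]
      constructor
      · rintro (h0 | ⟨x', y', h'', he', hv'⟩)
        · exact absurd h0 (by intro h; cases h)
        · obtain ⟨rfl, rfl⟩ := WeierstrassCurve.Affine.Point.some.inj he'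
          refine Or.inr ⟨_, _, h', rfl, ?_⟩
          rw [e1, e2, one_le_pow_iff he.ne', one_le_pow_iff he.ne']
          exact hv'
      · rintro (h0 | ⟨x', y', h'', he', hv'⟩)
        · exact absurd h0 (by intro h; cases h)
        · obtain ⟨rfl, rfl⟩ := WeierstrassCurve.Affine.Point.some.inj he'
          refine Or.inr ⟨x, y, h, rfl, ?_⟩
          rw [e1, e2, one_le_pow_iff he.ne', one_le_pow_iff he.ne'] at hv'
          exact hv'
  have hcomap : AddSubgroup.closure (ET2_S d v : Set ((Ed d).baseChange k).toAffine.Point) =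
      (AddSubgroup.closure (W11_S v' : Set (E27.baseChange k').toAffine.Point)).comap f := by
    apply le_antisymm
    · rw [AddSubgroup.closure_le]
      intro P hP
      exact AddSubgroup.subset_closure ((hmem P).1 hP)
    · intro P hP
      rw [AddSubgroup.mem_comap, closure_S v' h3'] at hP
      exact AddSubgroup.subset_closure ((hmem P).2 hP)
  rw [hcomap, AddSubgroup.index_comap]
  exact AddSubgroup.relIndex_dvd_index_of_normal _ _

theorem ET2_index' {k k' : Type} [Field k] [Field k'] [inst : Algebra ℚ k] [inst' : Algebra ℚ k']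
    [DecidableEq k]
    [DecidableEq k'] (v : Valuation k (WithZero (Multiplicative ℤ)))
    (v' : Valuation k' (WithZero (Multiplicative ℤ))) (h3' : v' 3 < 1)
    (ι : k →+* k') (e : ℕ) (he : 0 < e) (hv : ∀ z, v' (ι z) = v z ^ e)
    (d : ℤ) (hd : d ≠ 0) (hdv : v' (d : k') = 1) (δ : k') (hδ : δ ^ 2 = (d : k')) :
    (AddSubgroup.closure (ET2_S d v : Set ((Ed d).baseChange k).toAffine.Point)).index ∣
      (AddSubgroup.closure (W11_S v' : Set (E27.baseChange k').toAffine.Point)).index := by
  have hc : CharZero k := charZero_of_injective_algebraMap (algebraMap ℚ k).injective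
  have hc' : CharZero k' := charZero_of_injective_algebraMap (algebraMap ℚ k').injective
  obtain rfl : inst = DivisionRing.toRatAlgebra := Subsingleton.elim _ _
  obtain rfl : inst' = DivisionRing.toRatAlgebra := Subsingleton.elim _ _
  exact ET2_index v v' h3' ι e he hv d hd hdv δ hδ

theorem tamd_three (K' : Type) [Field K'] [NumberField K'] [Algebra F K'] [Algebra K₀ K']
    (hU : UnrOut K') (d : ℤ) (hd : AdmD d) (δ : K') (hδ : δ ^ 2 = (d : K'))
    (w : HeightOneSpectrum (𝓞 K₀)) (h : (3 : 𝓞 K₀) ∈ w.asIdeal) : Odd (tamd d K₀ w) := by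
  classical
  obtain ⟨Q, hQ, hQl⟩ := Ideal.exists_maximal_ideal_liesOver_of_isIntegral (S := 𝓞 K') w.asIdeal
  have hunder : w.asIdeal = Q.under (𝓞 K₀) := hQl.over
  have hQ0 : Q ≠ ⊥ := by
    rintro rfl
    apply w.ne_bot
    rw [hunder]
    exact Ideal.under_bot (𝓞 K₀) (𝓞 K')
  obtain ⟨W, hW⟩ : ∃ W : HeightOneSpectrum (𝓞 K'), W.asIdeal = Q := ⟨⟨Q, hQ.isPrime, hQ0⟩, rfl⟩
  rw [← hW] at hunder
  have h3w : (3 : 𝓞 K') ∈ W.asIdeal := by
    have h1 : (3 : 𝓞 K₀) ∈ W.asIdeal.under (𝓞 K₀) := hunder ▸ h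
    rw [Ideal.mem_under] at h1
    rwa [map_ofNat] at h1
  obtain ⟨ι, e, he, -, hv⟩ := H55C.exists_iota K₀ K' W w hunder
  have hv3 := H55D.DT2_val3 K' W h3w
  have hdv := ET2_unit (Valued.v (R := W.adicCompletion K')) hv3 d hd.coprime_six
  have hδ' : (algebraMap K' (W.adicCompletion K') δ) ^ 2 = (d : W.adicCompletion K') := by
    rw [← map_pow, hδ, map_intCast]
  refine Odd.of_dvd_nat (tam_odd K' hU W h3w) ?_
  exact ET2_index' (Valued.v (R := w.adicCompletion K₀)) (Valued.v (R := W.adicCompletion K'))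
    hv3 ι e he hv d hd.ne_zero hdv _ hδ'

end H55E
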