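import Mathlib
import Pool.Agent.Lib.H55E.Defs
import Pool.Agent.Lib.H55N.H0

open NumberField IsDedekindDomain

namespace H55E

open H55B H55C H55N

/-! Chunk X1 (L): adjoining the square root of d. Sub2 K gives L over K, TwoExt L, UnrOut L. L' = a splitting field of X^2 - d over L (or L if d is a square in L); L' is Galois over F (the compositum of
L and F(sqrt d)), of 2-power degree. UnrOut L': let W be a prime of L', v = W under O not good. d is prime to v: the prime factors l of d are good (a prime v of O above l = 1 mod 3, 2 not a cube mod l, is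
good: O/v = Z/l, see H55D/X3). An element g of the inertia group of W restricts to the inertia group of W|L, which is trivial (order = ramification index = 1), so g fixes L; and it fixes δ
= sqrt d: η = (1+δ)/2 is an integer (η^2 - η = (d-1)/4), g η - η in W; if g δ = -δ then δ in W, d in W, contradiction. So the inertia group is trivial and e(W) = 1. Compare H55D/X3, H55C/Y23.
K' = the subfield K(δ) of L', of degree 2 over K because d is not a square in K. -/

open Polynomial in
/-- degree of the minimal polynomial of a square root -/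
theorem X1_rank (K₀ L : Type) [Field K₀] [Field L] [Algebra K₀ L] (d : K₀) (δ : L)
    (hδ : δ ^ 2 = algebraMap K₀ L d) :
    Module.finrank K₀ (IntermediateField.adjoin K₀ {δ}) = 1 ∨
    Module.finrank K₀ (IntermediateField.adjoin K₀ {δ}) = 2 := by
  have hq3 : Polynomial.aeval δ (X ^ 2 - C d : K₀[X]) = 0 := by
    simp only [map_sub, map_pow, aeval_X, aeval_C]
    rw [hδ, sub_self]
  have hq1 : (X ^ 2 - C d : K₀[X]).Monic := monic_X_pow_sub_C d two_ne_zero
  have h6 : IsIntegral K₀ δ := ⟨_, hq1, hq3⟩
  rw [IntermediateField.adjoin.finrank h6]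
  have h1 := minpoly.natDegree_pos h6
  have h2 : (minpoly K₀ δ).natDegree ≤ 2 := by
    have h3 := Polynomial.natDegree_le_of_dvd (minpoly.dvd K₀ δ hq3) hq1.ne_zero
    rwa [natDegree_X_pow_sub_C] at h3
  omega

open Polynomial in
theorem X1_rank_two (K₀ L : Type) [Field K₀] [Field L] [Algebra K₀ L] (d : K₀) (δ : L)
    (hδ : δ ^ 2 = algebraMap K₀ L d) (hns : ¬ IsSquare d) :
    Module.finrank K₀ (IntermediateField.adjoin K₀ {δ}) = 2 := by
  rcases X1_rank K₀ L d δ hδ with h | h
  · exfalso
    rw [IntermediateField.finrank_eq_one_iff, IntermediateField.adjoin_simple_eq_bot_iff,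
      IntermediateField.mem_bot] at h
    obtain ⟨r, hr⟩ := h
    apply hns
    refine ⟨r, ?_⟩
    apply (algebraMap K₀ L).injective
    rw [← hδ, map_mul, hr, sq]
  · exact h

theorem X1_normal (L : Type) [Field L] [Algebra F L] [FiniteDimensional F L] (hG : IsGalois F L)
    (d : ℤ) (δ : AlgebraicClosure L) (hδ : δ ^ 2 = (d : AlgebraicClosure L)) :
    Normal F (IntermediateField.adjoin L {δ}) := by
  have halg : Algebra.IsAlgebraic F (AlgebraicClosure L) :=
    Algebra.IsAlgebraic.trans F L (AlgebraicClosure L)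
  have hac : IsAlgClosure F (AlgebraicClosure L) := ⟨inferInstance, halg⟩
  have hnorm : Normal F (AlgebraicClosure L) := IsAlgClosure.normal F _
  let E := IntermediateField.adjoin L {δ}
  have hmem : δ ∈ E := IntermediateField.mem_adjoin_simple_self L δ
  have hE0 : ∀ (σ : AlgebraicClosure L →ₐ[F] AlgebraicClosure L) (x : AlgebraicClosure L),
      x ∈ E → σ x ∈ E := by
    intro σ x hx
    refine IntermediateField.adjoin_induction L (p := fun x _ => σ x ∈ E) ?_ ?_ ?_ ?_ ?_ hx
    · rintro x rfl
      have h1 : σ x ^ 2 = (d : AlgebraicClosure L) := by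
        rw [← map_pow, hδ, map_intCast]
      have h2 : (σ x - x) * (σ x + x) = 0 := by linear_combination h1 - hδ
      rcases mul_eq_zero.1 h2 with h | h
      · rw [sub_eq_zero.1 h]
        exact hmem
      · have h3 : σ x = -x := by linear_combination h
        rw [h3]
        exact E.neg_mem hmem
    · intro x
      rw [← AlgHom.restrictNormal_commutes σ L x]
      exact E.algebraMap_mem _
    · intro x y _ _ h1 h2
      rw [map_add]
      exact add_mem h1 h2
    · intro x _ h1
      rw [map_inv₀]
      exact inv_mem h1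
    · intro x y _ _ h1 h2
      rw [map_mul]
      exact mul_mem h1 h2
  have hE : @Normal F (E.restrictScalars F) _ _
      (IntermediateField.algebra' (E.restrictScalars F)) := by
    rw [IntermediateField.normal_iff_forall_map_le]
    intro σ
    rintro _ ⟨x, hx, rfl⟩
    exact hE0 σ x hx
  exact hE

theorem X1_unr (L E : Type) [Field L] [NumberField L] [Algebra F L] (hG : IsGalois F L)
    (hU : UnrOut L) [Field E] [NumberField E] [Algebra F E] [Algebra L E] [IsScalarTower F L E]
    (hGE : IsGalois F E) (d : ℤ) (hd : AdmD d) (δ : E) (hδ : δ ^ 2 = (d : E))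
    (htop : IntermediateField.adjoin L {δ} = ⊤) : UnrOut E := by
  intro w v hv hbad
  rw [inertia_iff w]
  intro g hg
  let g₀ : L ≃ₐ[F] L := g.restrictNormal L
  have hg₀ : ∀ x : L, algebraMap L E (g₀ x) = g (algebraMap L E x) := fun x =>
    AlgEquiv.restrictNormal_commutes g L x
  have hwp := w.isPrime
  have hvp := v.isPrime
  have hp : (w.asIdeal.under (𝓞 L)).IsPrime := inferInstance
  have hne : w.asIdeal.under (𝓞 L) ≠ ⊥ := by
    intro h
    exact w.ne_bot (Ideal.eq_bot_of_comap_eq_bot (R := 𝓞 L) (I := w.asIdeal) h)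
  let w₀ : HeightOneSpectrum (𝓞 L) := ⟨w.asIdeal.under (𝓞 L), hp, hne⟩
  have h1 : ∀ y : 𝓞 L, g₀ • y - y ∈ w₀.asIdeal := by
    intro y
    show algebraMap (𝓞 L) (𝓞 E) (g₀ • y - y) ∈ w.asIdeal
    have h2 : algebraMap (𝓞 L) (𝓞 E) (g₀ • y) = g • algebraMap (𝓞 L) (𝓞 E) y := by
      apply NumberField.RingOfIntegers.ext
      exact hg₀ _
    rw [map_sub, h2]
    exact hg _
  have hv₀ : v.asIdeal = w₀.asIdeal.under O := by
    rw [hv]
    ext x
    show algebraMap O (𝓞 E) x ∈ w.asIdeal ↔ algebraMap (𝓞 L) (𝓞 E) (algebraMap O (𝓞 L) x) ∈ w.asIdeal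
    rw [← IsScalarTower.algebraMap_apply O (𝓞 L) (𝓞 E) x]
  have hg1 : g₀ = 1 := (inertia_iff w₀).1 (hU w₀ v hv₀ hbad) g₀ h1
  have hfix : ∀ x : L, g (algebraMap L E x) = algebraMap L E x := by
    intro x
    rw [← hg₀, hg1]
    rfl
  -- the square root is fixed
  have hdv : (d : O) ∉ v.asIdeal := by
    intro hdv
    have hdv' : ((d.natAbs : ℕ) : O) ∈ v.asIdeal := by
      rcases Int.natAbs_eq d with h | h
      · have h1 : (d : O) = ((d.natAbs : ℕ) : O) := by
          conv_lhs => rw [h]
          rw [Int.cast_natCast]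
        rwa [← h1]
      · have h1 : (d : O) = -((d.natAbs : ℕ) : O) := by
          conv_lhs => rw [h]
          rw [Int.cast_neg, Int.cast_natCast]
        have h2 := v.asIdeal.neg_mem hdv
        rwa [h1, neg_neg] at h2
    have hd0 : d ≠ 0 := by
      rintro rfl
      have := hd.four
      omega
    obtain ⟨l, hl, hlv⟩ := H55D.X3_prime v.asIdeal d.natAbs (Int.natAbs_ne_zero.2 hd0) hdv'
    have hld : (l : ℤ) ∣ d := (H1_int_mem hl hlv d).1 hdv
    obtain ⟨h3, h4⟩ := hd.good l hl hld
    exact hbad (H55D.X3_good v l hl hlv h3 h4)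
  have hint : IsIntegral ℤ ((1 + δ) / 2) := by
    refine ⟨Polynomial.X ^ 2 - Polynomial.X - Polynomial.C ((d - 1) / 4), ?_, ?_⟩
    · monicity!
    · have h4 : (4 : E) * (((d - 1) / 4 : ℤ) : E) + 1 = (d : E) := by
        have h5 : 4 * ((d - 1) / 4) + 1 = d := by
          have := hd.four
          omega
        have h6 := congrArg (fun z : ℤ => (z : E)) h5
        push_cast at h6
        exact h6
      simp only [Polynomial.eval₂_sub, Polynomial.eval₂_pow, Polynomial.eval₂_X,
        Polynomial.eval₂_C]
      rw [← h4] at hδ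
      have h7 : algebraMap ℤ E ((d - 1) / 4) = (((d - 1) / 4 : ℤ) : E) := by simp
      rw [h7]
      linear_combination (1 / 4 : E) * hδ
  have hgδ : g δ = δ := by
    have h2 : (g δ) ^ 2 = (d : E) := by rw [← map_pow, hδ, map_intCast]
    have h3 : (g δ - δ) * (g δ + δ) = 0 := by linear_combination h2 - hδ
    rcases mul_eq_zero.1 h3 with h | h
    · exact sub_eq_zero.1 h
    · exfalso
      have h4 : g δ = -δ := by linear_combination h
      let η : 𝓞 E := ⟨(1 + δ) / 2, hint⟩
      have h5 : g • η - η = 1 - 2 * η := by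
        apply NumberField.RingOfIntegers.ext
        show g ((1 + δ) / 2) - (1 + δ) / 2 = 1 - 2 * ((1 + δ) / 2)
        rw [map_div₀, map_add, map_one, h4, map_ofNat]
        ring
      have h6 : 1 - 2 * η ∈ w.asIdeal := by
        rw [← h5]
        exact hg η
      have h7 : (d : 𝓞 E) = (1 - 2 * η) * (1 - 2 * η) := by
        apply NumberField.RingOfIntegers.ext
        show ((d : 𝓞 E) : E) = (1 - 2 * ((1 + δ) / 2)) * (1 - 2 * ((1 + δ) / 2))
        have h8 : ((d : 𝓞 E) : E) = (d : E) := by simp
        rw [h8, ← hδ]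
        ring
      have h9 : (d : 𝓞 E) ∈ w.asIdeal := by
        rw [h7]
        exact w.asIdeal.mul_mem_left _ h6
      apply hdv
      rw [hv]
      show algebraMap O (𝓞 E) (d : O) ∈ w.asIdeal
      rwa [map_intCast]
  ext x
  have hx : x ∈ IntermediateField.adjoin L {δ} := by
    rw [htop]
    exact IntermediateField.mem_top
  show g x = x
  refine IntermediateField.adjoin_induction L (p := fun x _ => g x = x) ?_ hfix ?_ ?_ ?_ hx
  · rintro x rfl
    exact hgδ
  · intro x y _ _ h1 h2
    rw [map_add, h1, h2]
  · intro x _ h1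
    rw [map_inv₀, h1]
  · intro x y _ _ h1 h2
    rw [map_mul, h1, h2]

theorem X1_top (L : Type) [Field L] [NumberField L] [Algebra F L] (hT : TwoExt L) (hU : UnrOut L)
    (d : ℤ) (hd : AdmD d) :
    ∃ (E : Type) (_ : Field E) (_ : NumberField E) (_ : Algebra F E) (_ : Algebra L E)
      (_ : IsScalarTower F L E) (δ : E), δ ^ 2 = (d : E) ∧ TwoExt E ∧ UnrOut E := by
  classical
  obtain ⟨hG, k, hk⟩ := hT
  have hfd : FiniteDimensional F L := FiniteDimensional.of_finrank_pos (by
    rw [hk]
    positivity)
  obtain ⟨δ, hδ⟩ := IsAlgClosed.exists_pow_nat_eq (d : AlgebraicClosure L) (n := 2) (by norm_num)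
  let E : IntermediateField L (AlgebraicClosure L) := IntermediateField.adjoin L {δ}
  have hmem : δ ∈ E := IntermediateField.mem_adjoin_simple_self L δ
  have hint : ∀ x ∈ ({δ} : Set (AlgebraicClosure L)), IsIntegral L x := by
    intro x _
    exact (Algebra.IsAlgebraic.isAlgebraic x).isIntegral
  have hEfin : FiniteDimensional L E := IntermediateField.finiteDimensional_adjoin hint
  have hnf : NumberField E := NumberField.of_module_finite L E
  have hN : Normal F E := X1_normal L hG d δ hδ
  have hGE : IsGalois F E := { to_normal := hN }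
  have hδE : (⟨δ, hmem⟩ : E) ^ 2 = (d : E) := by
    apply Subtype.ext
    show δ ^ 2 = ((d : E) : AlgebraicClosure L)
    rw [hδ]
    simp
  have htop : IntermediateField.adjoin L {(⟨δ, hmem⟩ : E)} = ⊤ := by
    have h1 : IntermediateField.map E.val (IntermediateField.adjoin L {(⟨δ, hmem⟩ : E)}) =
        IntermediateField.map E.val ⊤ := by
      rw [IntermediateField.adjoin_map, Set.image_singleton]
      show IntermediateField.adjoin L {δ} = _
      rw [← AlgHom.fieldRange_eq_map, IntermediateField.fieldRange_val]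
    exact IntermediateField.map_injective E.val h1
  refine ⟨E, inferInstance, hnf, inferInstance, inferInstance, inferInstance, ⟨δ, hmem⟩, hδE,
    ⟨hGE, ?_⟩, X1_unr L E hG hU hGE d hd _ hδE htop⟩
  have h2 := Module.finrank_mul_finrank F L E
  rw [hk] at h2
  rcases X1_rank L (AlgebraicClosure L) (d : L) δ (by rw [hδ, map_intCast]) with h | h
  · have h' : Module.finrank L E = 1 := h
    refine ⟨k, ?_⟩
    rw [← h2, h', mul_one]
  · have h' : Module.finrank L E = 2 := h
    refine ⟨k + 1, ?_⟩
    rw [← h2, h', pow_succ]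

theorem exists_sqrt (K : Type) [Field K] [NumberField K] [Algebra F K] (hS : Sub2 K) (d : ℤ)
    (hd : AdmD d) (hns : ¬ IsSquare (d : K)) :
    ∃ (K' : Type) (_ : Field K') (_ : NumberField K') (_ : Algebra F K') (_ : Algebra K K')
      (_ : IsScalarTower F K K'), Module.finrank K K' = 2 ∧ (∃ δ : K', δ ^ 2 = (d : K')) ∧
        Sub2 K' := by
  classical
  obtain ⟨L, hL1, hL2, hL3, hL4, hL5, hT, hU⟩ := hS
  obtain ⟨L', h1, h2, h3, h4, h5, δ, hδ, hT', hU'⟩ := X1_top L hT hU d hd
  let hKL : Algebra K L' := ((algebraMap L L').comp (algebraMap K L)).toAlgebra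
  let E : IntermediateField K L' := IntermediateField.adjoin K {δ}
  have hmem : δ ∈ E := IntermediateField.mem_adjoin_simple_self K δ
  have hδK : δ ^ 2 = algebraMap K L' (d : K) := by rw [hδ, map_intCast]
  have hrank : Module.finrank K E = 2 := X1_rank_two K L' (d : K) δ hδK hns
  have hEfin : FiniteDimensional K E := FiniteDimensional.of_finrank_pos (by
    rw [hrank]
    norm_num)
  have hnf : NumberField E := NumberField.of_module_finite K E
  let hFE : Algebra F E := ((algebraMap K E).comp (algebraMap F K)).toAlgebra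
  have htow : IsScalarTower F K E := IsScalarTower.of_algebraMap_eq (fun x => rfl)
  have htow' : IsScalarTower F E L' := IsScalarTower.of_algebraMap_eq (fun x => by
    have e1 : algebraMap F L' x = algebraMap L L' (algebraMap F L x) :=
      IsScalarTower.algebraMap_apply F L L' x
    have e2 : algebraMap F L x = algebraMap K L (algebraMap F K x) :=
      IsScalarTower.algebraMap_apply F K L x
    rw [e1, e2]
    rfl)
  refine ⟨E, inferInstance, hnf, hFE, inferInstance, htow, hrank, ⟨⟨δ, hmem⟩, ?_⟩,
    L', h1, h2, h3, inferInstance, htow', hT', hU'⟩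
  apply Subtype.ext
  show δ ^ 2 = ((d : E) : L')
  rw [hδ]
  simp

end H55E
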