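import Mathlib
import Pool.Agent.Lib.H55D.T4
import Pool.Agent.Lib.H55E.Defs

open NumberField IsDedekindDomain

namespace H55E

open H55B H55C H55N

/-! Chunk P1 (M): periods. Let c in C, c^2 = d (c = sqrt d or i sqrt(-d)). If L has g2 = 0, g3 = -d^3, the lattice c L (periods c ω₁, c ω₂) has g3 = c^(-6) g3(L) = -1, g2 = 0; conversely c^(-1) L for existence (period_exists, W8). Om(cL) = |c|^2 Om(L) = |d| Om(L),
d odd so |d| is a 2-adic unit. Real period: T4_lattice and T4_aux of H55D describe c L: x in cL iff x = m(r i 3) + n (r i 3 om), r > 0 real, Omr (cL) = 3 sqrt3 r. d > 0: Omr L = Omr(cL)/sqrt d. d < 0: the elements of L are x/(i sqrt|d|), real iff x is purely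
imaginary: the smallest positive is 3r/sqrt|d| (x = m 3ri + n 3ri om, om = -1/2 + s i, s^2 = 3/4: real part of x = -+ 3 r n s = 0 iff n = 0), so Omr L = 3r/sqrt|d| = Omr(cL)/(sqrt3 sqrt|d|). In both cases Omr L / Omr(cL) is a 2-adic unit
(sqrt3, sqrt|d|: T4_of_pow, squares 3 and |d| odd). R0_Omr of H55D for the lattice cL. -/

theorem P1_g2 (L : PeriodPair) (c : ℂ) (hc : c ≠ 0) (h2 : L.g₂ = 0) : (W1_L L c hc).g₂ = 0 := by
  unfold PeriodPair.g₂ at h2 ⊢
  rw [W1_G]
  linear_combination ((c ^ 4)⁻¹) * h2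

theorem P1_g3 (L : PeriodPair) (c : ℂ) (hc : c ≠ 0) : (W1_L L c hc).g₃ = (c ^ 6)⁻¹ * L.g₃ := by
  unfold PeriodPair.g₃
  rw [W1_G]
  ring

theorem P1_Om (L : PeriodPair) (c : ℂ) (hc : c ≠ 0) : Om (W1_L L c hc) = ‖c‖ ^ 2 * Om L := by
  unfold Om
  show 2 * |(c * L.ω₁).re * (c * L.ω₂).im - (c * L.ω₁).im * (c * L.ω₂).re| = _
  have e : (c * L.ω₁).re * (c * L.ω₂).im - (c * L.ω₁).im * (c * L.ω₂).re =
      ‖c‖ ^ 2 * (L.ω₁.re * L.ω₂.im - L.ω₁.im * L.ω₂.re) := by
    rw [← Complex.normSq_eq_norm_sq, Complex.normSq_apply]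
    simp only [Complex.mul_re, Complex.mul_im]
    ring
  rw [e, abs_mul, abs_of_nonneg (by positivity : (0 : ℝ) ≤ ‖c‖ ^ 2)]
  ring

theorem P1_mem (L : PeriodPair) (c : ℂ) (hc : c ≠ 0) (x : ℂ) :
    x ∈ L.lattice ↔ c * x ∈ (W1_L L c hc).lattice := by
  constructor
  · exact W1_mem L c hc x
  · intro h
    have h1 := W1_mem' L c hc _ h
    rwa [inv_mul_cancel_left₀ hc] at h1

theorem P1_ne (d : ℤ) (hd : AdmD d) : d ≠ 0 := by
  intro h
  have h1 := hd.four
  rw [h] at h1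
  norm_num at h1

theorem period_existsd (d : ℤ) (hd : AdmD d) : ∃ L : PeriodPair, L.g₂ = 0 ∧ L.g₃ = -(d : ℂ) ^ 3 := by
  obtain ⟨L, h2, h3⟩ := period_exists
  obtain ⟨c, hc⟩ := IsAlgClosed.exists_pow_nat_eq (d : ℂ) (n := 2) (by norm_num)
  have hd0 : (d : ℂ) ≠ 0 := by exact_mod_cast P1_ne d hd
  have hc0 : c ≠ 0 := by
    intro h
    rw [h] at hc
    apply hd0
    rw [← hc]
    norm_num
  refine ⟨W1_L L c⁻¹ (inv_ne_zero hc0), P1_g2 L _ _ h2, ?_⟩
  rw [P1_g3, h3, ← hc]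
  field_simp

theorem P1_nat (n : ℕ) (hn : Odd n) : Unit2 (n : ℂ) := fun A hA => val_odd A hA n hn

theorem P1_sqrt (n : ℕ) (hn : Odd n) : Unit2 ((Real.sqrt n : ℝ) : ℂ) := by
  refine H55D.T4_of_pow (n := 2) (by norm_num) ?_
  have h : ((Real.sqrt n : ℝ) : ℂ) ^ 2 = (n : ℂ) := by
    rw [← Complex.ofReal_pow, Real.sq_sqrt (Nat.cast_nonneg n), Complex.ofReal_natCast]
  rw [h]
  exact P1_nat n hn

theorem P1_neg (L : PeriodPair) (s : ℝ) (hs : 0 < s)
    (h : ∀ x : ℂ, x ∈ L.lattice ↔ ∃ m n : ℤ, (m : ℂ) * (s : ℂ) + n * ((s : ℂ) * e om) = x) :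
    H55D.Omr L = s := by
  have him2 : (e om).im ^ 2 = 3 / 4 := A0_im
  have him0 : (e om).im ≠ 0 := by
    intro h0
    rw [h0] at him2
    norm_num at him2
  have hset : {x : ℝ | 0 < x ∧ (x : ℂ) ∈ L.lattice} = {x : ℝ | ∃ m : ℤ, 0 < m ∧ x = s * m} := by
    ext x
    simp only [Set.mem_ofPred_eq]
    constructor
    · rintro ⟨hx, hm⟩
      obtain ⟨m, n, hmn⟩ := (h _).1 hm
      have him := congrArg Complex.im hmn
      have hre := congrArg Complex.re hmn
      simp [Complex.mul_re, Complex.mul_im] at him hre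
      have hn : (n : ℝ) = 0 := by
        rcases him with h1 | h1
        · exact_mod_cast h1
        · rcases h1 with h2 | h2
          · exact absurd h2 hs.ne'
          · exact absurd h2 him0
      rw [hn] at hre
      refine ⟨m, ?_, by linarith⟩
      have h1 : (0 : ℝ) < m := by
        by_contra hcon
        push Not at hcon
        have : (m : ℝ) * s ≤ 0 := mul_nonpos_of_nonpos_of_nonneg hcon hs.le
        linarith
      exact_mod_cast h1
    · rintro ⟨m, hm, rfl⟩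
      have hm' : (0 : ℝ) < m := by exact_mod_cast hm
      refine ⟨by positivity, (h _).2 ⟨m, 0, ?_⟩⟩
      push_cast
      ring
  unfold H55D.Omr
  rw [hset]
  apply le_antisymm
  · apply csInf_le
    · refine ⟨0, ?_⟩
      rintro x ⟨m, hm, rfl⟩
      have hm' : (0 : ℝ) < m := by exact_mod_cast hm
      positivity
    · exact ⟨1, by norm_num, by push_cast; ring⟩
  · apply le_csInf
    · exact ⟨s, 1, by norm_num, by push_cast; ring⟩
    · rintro x ⟨m, hm, rfl⟩
      have hm' : (1 : ℝ) ≤ m := by exact_mod_cast hm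
      nlinarith

theorem R0_Omrd (d : ℤ) (hd : AdmD d) (L : PeriodPair) (h2 : L.g₂ = 0) (h3 : L.g₃ = -(d : ℂ) ^ 3) :
    Unit2 (R0 / (H55D.Omr L : ℂ)) ∧ Unit2 (R0 ^ 2 / (Om L : ℂ)) := by
  have hd0 := P1_ne d hd
  have hd0c : (d : ℂ) ≠ 0 := by exact_mod_cast hd0
  set N : ℕ := d.natAbs with hN
  have hNodd : Odd N := by
    have h4 := hd.four
    rw [Nat.odd_iff]
    omega
  have hNpos : 0 < N := Int.natAbs_pos.2 hd0
  have hNr : (0 : ℝ) < N := by exact_mod_cast hNpos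
  set t : ℝ := Real.sqrt N with ht
  have ht0 : 0 < t := Real.sqrt_pos.2 hNr
  have ht2 : t ^ 2 = N := Real.sq_sqrt hNr.le
  have ht2c : (t : ℂ) ^ 2 = (N : ℂ) := by exact_mod_cast congrArg (fun z : ℝ => (z : ℂ)) ht2
  have htc : (t : ℂ) ≠ 0 := by exact_mod_cast ht0.ne'
  have hut : Unit2 (t : ℂ) := P1_sqrt N hNodd
  have huN : Unit2 (N : ℂ) := P1_nat N hNodd
  have hu3 : Unit2 ((Real.sqrt 3 : ℝ) : ℂ) := by
    have := P1_sqrt 3 (by decide)
    exact_mod_cast this
  have hs3 : (0 : ℝ) < Real.sqrt 3 := Real.sqrt_pos.2 (by norm_num)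
  have hs3c : ((Real.sqrt 3 : ℝ) : ℂ) ≠ 0 := by exact_mod_cast hs3.ne'
  rcases lt_or_gt_of_ne hd0 with hneg | hpos
  · have hdN : (d : ℂ) = -(N : ℂ) := by
      have h1 : d = -(N : ℤ) := by rw [hN]; omega
      rw [h1]
      push_cast
      ring
    have hc : (t : ℂ) * Complex.I ≠ 0 := mul_ne_zero htc Complex.I_ne_zero
    have hcsq : ((t : ℂ) * Complex.I) ^ 2 = d := by
      rw [mul_pow, ht2c, Complex.I_sq, hdN]
      ring
    have hc6 : ((t : ℂ) * Complex.I) ^ 6 = (d : ℂ) ^ 3 := by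
      rw [← hcsq]
      ring
    set L1 := W1_L L ((t : ℂ) * Complex.I) hc with hL1
    have g2 : L1.g₂ = 0 := P1_g2 L _ hc h2
    have g3 : L1.g₃ = -1 := by
      rw [hL1, P1_g3, h3, hc6]
      field_simp
    obtain ⟨r, hr, -, hlat⟩ := H55D.T4_lattice L1 g2 g3
    have hO1 : H55D.Omr L1 = 3 * Real.sqrt 3 * r := H55D.T4_aux L1 r hr hlat
    have hO : H55D.Omr L = 3 * r / t := by
      refine P1_neg L (3 * r / t) (by positivity) ?_
      intro x
      rw [P1_mem L _ hc x, ← hL1, hlat]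
      constructor
      · rintro ⟨m, n, hmn⟩
        refine ⟨m, n, ?_⟩
        have hI := Complex.I_ne_zero
        have h5 : Complex.I * (t : ℂ) * ((m : ℂ) * ((3 * r / t : ℝ) : ℂ) +
            n * (((3 * r / t : ℝ) : ℂ) * e om)) = Complex.I * (t : ℂ) * x := by
          push_cast
          have h6 : Complex.I * (t : ℂ) * x = (t : ℂ) * Complex.I * x := by ring
          rw [h6, ← hmn]
          field_simp
        exact mul_left_cancel₀ (mul_ne_zero hI htc) h5
      · rintro ⟨m, n, hmn⟩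
        refine ⟨m, n, ?_⟩
        rw [← hmn]
        push_cast
        field_simp
    have hOm : Om L1 = N * Om L := by
      rw [hL1, P1_Om, norm_mul, Complex.norm_I, mul_one, Complex.norm_real, Real.norm_eq_abs, sq_abs,
        ht2]
    obtain ⟨u1, u2⟩ := H55D.R0_Omr L1 g2 g3
    have hrc : (r : ℂ) ≠ 0 := by exact_mod_cast hr.ne'
    constructor
    · have e1 : R0 / (H55D.Omr L : ℂ) = R0 / (H55D.Omr L1 : ℂ) * (((Real.sqrt 3 : ℝ) : ℂ) * t) := by
        rw [hO, hO1]
        push_cast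
        field_simp
      rw [e1]
      exact u1.mul (hu3.mul hut)
    · have hOmL0 : (Om L1 : ℂ) ≠ 0 := by
        intro h0
        rw [h0, div_zero] at u2
        exact u2.ne_zero rfl
      have hOmc : (Om L1 : ℂ) = (N : ℂ) * (Om L : ℂ) := by
        rw [hOm]
        push_cast
        ring
      have e1 : R0 ^ 2 / (Om L : ℂ) = R0 ^ 2 / (Om L1 : ℂ) * (N : ℂ) := by
        rw [hOmc] at hOmL0 ⊢
        have h7 := left_ne_zero_of_mul hOmL0
        have h8 := right_ne_zero_of_mul hOmL0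
        field_simp
      rw [e1]
      exact u2.mul huN
  · have hdN : (d : ℂ) = (N : ℂ) := by
      have h1 : d = (N : ℤ) := by rw [hN]; omega
      rw [h1]
      push_cast
      ring
    have hcsq : (t : ℂ) ^ 2 = d := by
      rw [ht2c, hdN]
    have hc6 : (t : ℂ) ^ 6 = (d : ℂ) ^ 3 := by
      rw [← hcsq]
      ring
    set L1 := W1_L L (t : ℂ) htc with hL1
    have g2 : L1.g₂ = 0 := P1_g2 L _ htc h2
    have g3 : L1.g₃ = -1 := by
      rw [hL1, P1_g3, h3, hc6]
      field_simp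
    obtain ⟨r, hr, -, hlat⟩ := H55D.T4_lattice L1 g2 g3
    have hO1 : H55D.Omr L1 = 3 * Real.sqrt 3 * r := H55D.T4_aux L1 r hr hlat
    have hO : H55D.Omr L = 3 * Real.sqrt 3 * (r / t) := by
      refine H55D.T4_aux L (r / t) (by positivity) ?_
      intro x
      rw [P1_mem L _ htc x, ← hL1, hlat]
      constructor
      · rintro ⟨m, n, hmn⟩
        refine ⟨m, n, ?_⟩
        apply mul_left_cancel₀ htc
        rw [← hmn]
        push_cast
        field_simp
      · rintro ⟨m, n, hmn⟩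
        refine ⟨m, n, ?_⟩
        rw [← hmn]
        push_cast
        field_simp
    have hOm : Om L1 = N * Om L := by
      rw [hL1, P1_Om, Complex.norm_real, Real.norm_eq_abs, sq_abs, ht2]
    obtain ⟨u1, u2⟩ := H55D.R0_Omr L1 g2 g3
    have hrc : (r : ℂ) ≠ 0 := by exact_mod_cast hr.ne'
    constructor
    · have e1 : R0 / (H55D.Omr L : ℂ) = R0 / (H55D.Omr L1 : ℂ) * (t : ℂ) := by
        rw [hO, hO1]
        push_cast
        field_simp
      rw [e1]
      exact u1.mul hut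
    · have hOmL0 : (Om L1 : ℂ) ≠ 0 := by
        intro h0
        rw [h0, div_zero] at u2
        exact u2.ne_zero rfl
      have hOmc : (Om L1 : ℂ) = (N : ℂ) * (Om L : ℂ) := by
        rw [hOm]
        push_cast
        ring
      have e1 : R0 ^ 2 / (Om L : ℂ) = R0 ^ 2 / (Om L1 : ℂ) * (N : ℂ) := by
        rw [hOmc] at hOmL0 ⊢
        have h7 := left_ne_zero_of_mul hOmL0
        have h8 := right_ne_zero_of_mul hOmL0
        field_simp
      rw [e1]
      exact u2.mul huN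

end H55E
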