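import Mathlib
import Pool.Agent.Lib.H55E.A1

open NumberField IsDedekindDomain

namespace H55E

open H55B H55C

/-! Chunk A2 (S): as H55D.points_sub: the composition E_d(K) -> E_d(K') (WeierstrassCurve.Affine.Point.map, injective) -> E27(K') (exists_twist) is an injective homomorphism; the order of a
subgroup divides. -/

theorem points_d (K K' : Type) [Field K] [NumberField K] [Field K'] [NumberField K'] [Algebra K K']
    (d : ℤ) (hd : d ≠ 0) (δ : K') (hδ : δ ^ 2 = (d : K'))
    (h1 : Finite (E27.baseChange K').toAffine.Point)
    (h2 : Odd (Nat.card (E27.baseChange K').toAffine.Point)) :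
    Finite ((Ed d).baseChange K).toAffine.Point ∧
      Odd (Nat.card ((Ed d).baseChange K).toAffine.Point) := by
  classical
  let f : K →ₐ[ℚ] K' := (algebraMap K K').toRatAlgHom
  let g : ((Ed d).baseChange K).toAffine.Point →+ ((Ed d).baseChange K').toAffine.Point :=
    WeierstrassCurve.Affine.Point.map (W' := Ed d) f
  have hg : Function.Injective g := WeierstrassCurve.Affine.Point.map_injective (W' := Ed d) f
  obtain ⟨t, ht, -⟩ := exists_twist K' d hd δ hδ
  have hinj : Function.Injective (t.comp g) := by
    rw [AddMonoidHom.coe_comp]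
    exact ht.comp hg
  refine ⟨Finite.of_injective _ hinj, ?_⟩
  exact Odd.of_dvd_nat h2 (AddSubgroup.card_dvd_of_injective _ hinj)

end H55E
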