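import Mathlib
import Pool.Agent.Lib.H55E.P1
import Pool.Agent.Lib.H55D.Fin1

open NumberField IsDedekindDomain

namespace H55E

open H55B H55C H55N

/-! Chunk F1: compare H55D.shaAn0_unit, H55N.shaAn_unitN. shaAnd = (L1/R0^(r1 + 2 r2)) (R0/Omr)^r1 (R0^2/Om)^r2 sqrt|D| E^2/prod tam; all factors are
2-adic units. -/

theorem shaAnd_unit (K : Type) [Field K] [NumberField K] (d : ℤ) (hd : AdmD d)
    (hD : Odd (NumberField.discr K)) (hE : Odd (Nat.card ((Ed d).baseChange K).toAffine.Point))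
    (ht : ∀ w : HeightOneSpectrum (𝓞 K), Odd (tamd d K w)) (L1 : ℂ)
    (hL : Unit2 (L1 / R0 ^ (InfinitePlace.nrRealPlaces K + 2 * InfinitePlace.nrComplexPlaces K)))
    (L : PeriodPair) (h2 : L.g₂ = 0) (h3 : L.g₃ = -(d : ℂ) ^ 3) : Unit2 (shaAnd d K L L1) := by
  obtain ⟨X, hR0, -⟩ := exists_X
  have hr : R0 ≠ 0 := hR0
  obtain ⟨hv, hw⟩ := R0_Omrd d hd L h2 h3
  have htt : Unit2 (∏ᶠ w : HeightOneSpectrum (𝓞 K), (tamd d K w : ℂ)) := by
    refine finprod_induction Unit2 ?_ (fun x y hx hy => hx.mul hy) fun w => W13_nat (ht w)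
    have h := W13_nat odd_one
    rwa [Nat.cast_one] at h
  have hE' := (W13_nat hE).pow 2
  have hs := W13_sqrt _ hD
  unfold shaAnd
  rw [H55D.Fin1_alg L1 _ _ _ _ _ R0 _ _ hr]
  exact W13_div ((((hL.mul (hv.pow _)).mul (hw.pow _)).mul hs).mul hE') htt

theorem rank0 (K₀ K : Type) [Field K₀] [NumberField K₀] [Field K] [NumberField K] [Algebra F K]
    [Algebra K₀ K] (hQ : H13E.Quad K₀ K) :
    InfinitePlace.nrRealPlaces K₀ + 2 * InfinitePlace.nrComplexPlaces K₀ = Module.finrank F K :=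
  (H55D.Fin1_rank hQ).symm

theorem rankF (K : Type) [Field K] [NumberField K] [Algebra F K] :
    InfinitePlace.nrRealPlaces K + 2 * InfinitePlace.nrComplexPlaces K =
      2 * Module.finrank F K := by
  have h1 := InfinitePlace.card_add_two_mul_card_eq_rank K
  have h3 := Module.finrank_mul_finrank ℚ F K
  rw [H55D.Fin1_finrank_F] at h3
  omega

end H55E
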