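import Mathlib
import Pool.Agent.Lib.H55E.Defs
import Pool.Agent.Lib.H55D.S2

open NumberField IsDedekindDomain

namespace H55E

open H55B H55C

/-! Chunk S1 (M): the local condition. LocImd_map: functoriality (apply cmap f; cmap is a ring homomorphism, cmap (of x) = of (f x), cmap root = root). LocImd_twist: if
δ^2 = d, x' = x/d, 2y' + 1 = (2y + 1)/δ^3, then 2(2x + dT) = δ^2 * 2(2x' + T), so m * (2(2x' + T)) = (b/δ)^2. -/

theorem LocImd_map {k k' : Type} [Field k] [Field k'] (f : k →+* k') (d : ℤ) (m : Cub k)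
    (h : LocImd d k m) : LocImd d k' (cmap f m) := by
  obtain ⟨x, y, hxy, hx, b, hb⟩ := h
  refine ⟨f x, f y, ?_, ?_, cmap f b, ?_⟩
  · have h1 := congrArg f hxy
    simp only [map_mul, map_add, map_sub, map_pow, map_one, map_ofNat, map_intCast] at h1
    exact h1
  · have h1 : f (2 * y + 1) = 2 * f y + 1 := by
      rw [map_add, map_mul, map_one, map_ofNat]
    rw [← h1]
    exact (map_ne_zero f).2 hx
  · have h1 : cmap f (2 * (2 * AdjoinRoot.of _ x + (d : Cub k) * AdjoinRoot.root _)) =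
        2 * (2 * AdjoinRoot.of _ (f x) + (d : Cub k') * AdjoinRoot.root _) := by
      rw [map_mul, map_add, map_mul, map_mul, map_ofNat (cmap f), H55D.DS2_of, H55D.DS2_root,
        map_intCast]
    rw [← map_pow, ← hb, map_mul, h1]

theorem LocImd_twist {k : Type} [Field k] [CharZero k] (d : ℤ) (hd : d ≠ 0) (δ : k)
    (hδ : δ ^ 2 = (d : k)) (m : Cub k) (h : LocImd d k m) : LocIm k m := by
  obtain ⟨x, y, hxy, hx, b, hb⟩ := h
  have hd0 : (d : k) ≠ 0 := Int.cast_ne_zero.2 hd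
  have hδ0 : δ ≠ 0 := by
    rintro rfl
    rw [zero_pow two_ne_zero] at hδ
    exact hd0 hδ.symm
  have h20 : (2 : k) ≠ 0 := two_ne_zero
  have h40 : (4 : k) ≠ 0 := by norm_num
  have hY : 2 * (((2 * y + 1) / δ ^ 3 - 1) / 2) + 1 = (2 * y + 1) / δ ^ 3 := by
    rw [mul_div_cancel₀ _ h20, sub_add_cancel]
  refine ⟨x / d, ((2 * y + 1) / δ ^ 3 - 1) / 2, ?_, ?_, b * AdjoinRoot.of _ δ⁻¹, ?_⟩
  · have h1 : (2 * (((2 * y + 1) / δ ^ 3 - 1) / 2) + 1) ^ 2 = 4 * (x / (d : k)) ^ 3 + 1 := by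
      rw [hY, div_pow, ← pow_mul, div_pow]
      have h2 : δ ^ (3 * 2) = (d : k) ^ 3 := by
        rw [← hδ]
        ring
      rw [h2]
      have h3 : (2 * y + 1) ^ 2 = 4 * x ^ 3 + (d : k) ^ 3 := by linear_combination hxy
      rw [h3]
      field_simp
    have h2 : (4 : k) * ((((2 * y + 1) / δ ^ 3 - 1) / 2) ^ 2 + ((2 * y + 1) / δ ^ 3 - 1) / 2) =
        4 * (x / (d : k)) ^ 3 := by linear_combination h1
    exact mul_left_cancel₀ h40 h2
  · rw [hY]
    exact div_ne_zero hx (pow_ne_zero 3 hδ0)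
  · have h1 : (AdjoinRoot.of (Polynomial.X ^ 3 - Polynomial.C 2 : Polynomial k) x) =
        (AdjoinRoot.of _ δ) ^ 2 * AdjoinRoot.of _ (x / d) := by
      rw [← map_pow, ← map_mul, hδ, mul_div_cancel₀ _ hd0]
    have h2 : ((d : ℤ) : Cub k) = (AdjoinRoot.of _ δ) ^ 2 := by
      rw [← map_pow, hδ, map_intCast]
    have h3 : (AdjoinRoot.of (Polynomial.X ^ 3 - Polynomial.C 2 : Polynomial k) δ) *
        AdjoinRoot.of _ δ⁻¹ = 1 := by
      rw [← map_mul, mul_inv_cancel₀ hδ0, map_one]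
    rw [h1, h2] at hb
    have h4 : (AdjoinRoot.of (Polynomial.X ^ 3 - Polynomial.C 2 : Polynomial k) δ) ^ 2 *
        (AdjoinRoot.of _ δ⁻¹) ^ 2 = 1 := by
      rw [← mul_pow, h3, one_pow]
    rw [mul_pow]
    calc m * (2 * (2 * AdjoinRoot.of _ (x / d) + AdjoinRoot.root _))
        = m * (2 * (2 * AdjoinRoot.of _ (x / d) + AdjoinRoot.root _)) *
          ((AdjoinRoot.of _ δ) ^ 2 * (AdjoinRoot.of _ δ⁻¹) ^ 2) := by rw [h4, mul_one]
      _ = m * (2 * (2 * (AdjoinRoot.of _ δ ^ 2 * AdjoinRoot.of _ (x / d)) +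
          AdjoinRoot.of _ δ ^ 2 * AdjoinRoot.root _)) * (AdjoinRoot.of _ δ⁻¹) ^ 2 := by ring
      _ = _ := by rw [hb]

end H55E
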