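import Mathlib
import Pool.Agent.Lib.H55E.S1

open NumberField IsDedekindDomain

namespace H55E

open H55B H55C

/-! Chunk S3 (M): the Selmer conditions go up. As in H55D/S2 part (1) (and H13E/S2, H55N/DS0): unit, norm (norm of a + b T + c T^2 is a^3 + 2b^3 + 4c^3 - 6abc over both fields), local conditions with
exists_iota (A17: the map of completions K_w -> K'_W, w = W under O_K) and LocImd_map. Seld_twist: LocImd_twist with the image of δ in the completion. -/

theorem Seld_up (K K' : Type) [Field K] [NumberField K] [Field K'] [NumberField K'] [Algebra K K']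
    (d : ℤ) (m : Cub K) (hm : m ∈ Seld d K) : cmap (algebraMap K K') m ∈ Seld d K' := by
  obtain ⟨hu, ⟨n, hn⟩, hloc⟩ := hm
  refine ⟨hu.map _, ⟨algebraMap K K' n, ?_⟩, ?_⟩
  · rw [H55D.DS2_norm, hn, map_pow]
  · intro w
    obtain ⟨w', hw'⟩ := H13E.S2_below K K' w
    obtain ⟨ι, e, he, hι, -⟩ := H55C.exists_iota K K' w w' hw'
    have h := LocImd_map ι d _ (hloc w')
    rw [H55D.DS2_comp (algebraMap K (w'.adicCompletion K)) ι
        (ι.comp (algebraMap K (w'.adicCompletion K))) (fun _ => rfl)] at h
    rw [H55D.DS2_comp (algebraMap K K') (algebraMap K' (w.adicCompletion K'))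
        (ι.comp (algebraMap K (w'.adicCompletion K))) (fun x => (hι x).symm)]
    exact h

theorem Seld_twist (K : Type) [Field K] [NumberField K] (d : ℤ) (hd : d ≠ 0) (δ : K)
    (hδ : δ ^ 2 = (d : K)) (m : Cub K) (hm : m ∈ Seld d K) : m ∈ Sel K := by
  obtain ⟨hu, hn, hloc⟩ := hm
  refine ⟨hu, hn, ?_⟩
  intro w
  have h1 : (algebraMap K (w.adicCompletion K) δ) ^ 2 = ((d : ℤ) : w.adicCompletion K) := by
    rw [← map_pow, hδ, map_intCast]
  have : CharZero (w.adicCompletion K) :=
    charZero_of_injective_algebraMap (algebraMap K (w.adicCompletion K)).injective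
  exact LocImd_twist d hd _ h1 _ (hloc w)

end H55E
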