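import Mathlib
import Pool.Agent.Lib.H55E.Defs
import Pool.Agent.Lib.H55N.H0

open NumberField IsDedekindDomain

namespace H55E

open H55B H55C H55N

/-! Chunk X3 (M): the class. L over K and F. If K contains a root ζ of x^2 + x + 1: the images of ζ and of the generator of F in L are roots of X^2 + X + 1 in L, so the image of F is contained in the image of
K, which gives Algebra F K with IsScalarTower F K L: Sub2 K. Otherwise K1 = K(om) in L as in H55D/X5 (copy). Cls_of_SubQ: H55D.of_rat for the Galois field L gives K' with TwoExt K', UnrOut K' and Algebra L K'; compose with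
K -> L. -/

theorem X3_case1 (K L : Type) [Field K] [NumberField K] [Field L] [NumberField L]
    [Algebra F L] [Algebra K L] (hT : TwoExt L) (hU : UnrOut L) (ζ : K)
    (hζ : ζ ^ 2 + ζ + 1 = 0) : ∃ _ : Algebra F K, Sub2 K := by
  have hz := H55D.X3_z_root L
  have hmem : H55D.X3_z L ∈ (⊥ : IntermediateField K L) := by
    have h1 : (algebraMap K L ζ) ^ 2 + algebraMap K L ζ + 1 = 0 := by
      have h := congrArg (algebraMap K L) hζ
      simpa only [map_add, map_pow, map_one, map_zero] using h
    have h2 : (H55D.X3_z L - algebraMap K L ζ) * (H55D.X3_z L + algebraMap K L ζ + 1) = 0 := by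
      linear_combination hz - h1
    rw [IntermediateField.mem_bot]
    rcases mul_eq_zero.1 h2 with h | h
    · exact ⟨ζ, (sub_eq_zero.1 h).symm⟩
    · refine ⟨-ζ - 1, ?_⟩
      rw [map_sub, map_neg, map_one]
      linear_combination -h
  let ψ : F →+* (⊥ : IntermediateField K L) :=
    (algebraMap F L).codRestrict (⊥ : IntermediateField K L)
      (H55D.X3_range K L (⊥ : IntermediateField K L) hmem)
  let φ : F →+* K := ((IntermediateField.botEquiv K L : (⊥ : IntermediateField K L) →+* K)).comp ψ
  let hFK : Algebra F K := φ.toAlgebra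
  have hcomp : ∀ x : F, algebraMap F L x = algebraMap K L (algebraMap F K x) := by
    intro x
    have h1 : algebraMap K L (IntermediateField.botEquiv K L (ψ x)) = algebraMap F L x := by
      have h2 := (IntermediateField.botEquiv K L).symm_apply_apply (ψ x)
      have h3 := IntermediateField.botEquiv_symm (F := K) (E := L)
        (IntermediateField.botEquiv K L (ψ x))
      rw [h2] at h3
      have h4 := congrArg (fun z : (⊥ : IntermediateField K L) => (z : L)) h3
      exact h4.symm
    exact h1.symm
  have htow : IsScalarTower F K L := IsScalarTower.of_algebraMap_eq hcomp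
  exact ⟨hFK, L, inferInstance, inferInstance, inferInstance, inferInstance, htow, hT, hU⟩

theorem Cls_cases (K : Type) [Field K] [NumberField K] (h : Cls K) :
    (∃ _ : Algebra F K, Sub2 K) ∨
    ∃ (K₁ : Type) (_ : Field K₁) (_ : NumberField K₁) (_ : Algebra F K₁) (_ : Algebra K K₁),
      H13E.Quad K K₁ ∧ Sub2 K₁ := by
  classical
  obtain ⟨L, hL1, hL2, hL3, hL4, hT, hUL⟩ := h
  by_cases hnr : ∀ x : K, x ^ 2 + x + 1 ≠ 0
  · right
    have hz := H55D.X3_z_root L
    let E : IntermediateField K L := IntermediateField.adjoin K {H55D.X3_z L}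
    have hmem : H55D.X3_z L ∈ E := IntermediateField.mem_adjoin_simple_self K _
    have hint : ∀ x ∈ ({H55D.X3_z L} : Set L), IsIntegral K x := by
      rintro x rfl
      refine ⟨Polynomial.X ^ 2 + Polynomial.X + 1, by monicity!, ?_⟩
      simp only [Polynomial.eval₂_add, Polynomial.eval₂_pow, Polynomial.eval₂_X,
        Polynomial.eval₂_one]
      exact hz
    have hEfin : FiniteDimensional K E := IntermediateField.finiteDimensional_adjoin hint
    have hnf : NumberField E := NumberField.of_module_finite K E
    let ψ : F →+* E := (algebraMap F L).codRestrict E (H55D.X3_range K L E hmem)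
    let hFE : Algebra F E := ψ.toAlgebra
    have hFEL : IsScalarTower F E L := IsScalarTower.of_algebraMap_eq (fun x => rfl)
    exact ⟨E, inferInstance, hnf, hFE, inferInstance, ⟨H55D.X3_rank K L _ hz hnr, hnr⟩,
      L, hL1, hL2, hL3, inferInstance, hFEL, hT, hUL⟩
  · left
    push Not at hnr
    obtain ⟨ζ, hζ⟩ := hnr
    exact X3_case1 K L hT hUL ζ hζ

theorem Cls_of_SubQ (K : Type) [Field K] [NumberField K] (h : SubQ K) : Cls K := by
  obtain ⟨L, hL1, hL2, hL3, hG, ⟨k, hk⟩, hU⟩ := h
  obtain ⟨K', h1, h2, h3, h4, -, hT, hU'⟩ := H55D.of_rat L hG k hk hU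
  exact ⟨K', h1, h2, h3, ((algebraMap L K').comp (algebraMap K L)).toAlgebra, hT, hU'⟩

end H55E
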