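import Mathlib
import Pool.Agent.Lib.H55E.A2
import Pool.Agent.Lib.H55E.F1
import Pool.Agent.Lib.H55E.L7
import Pool.Agent.Lib.H55E.Q5
import Pool.Agent.Lib.H55E.S2
import Pool.Agent.Lib.H55E.S3
import Pool.Agent.Lib.H55E.T1
import Pool.Agent.Lib.H55E.T2
import Pool.Agent.Lib.H55E.X1
import Pool.Agent.Lib.H55E.X3
import Pool.Agent.Lib.H55N.Fin

open NumberField IsDedekindDomain

namespace H55E

open H55B H55C H55N

/-- The Selmer group of E_d over K is trivial and E_d(K) is finite of odd order, K containing F. -/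
theorem selTwod_F (K : Type) [Field K] [NumberField K] [Algebra F K] (hS : Sub2 K) (d : ℤ)
    (hd : AdmD d) : SelTwod d K := by
  by_cases hsq : IsSquare (d : K)
  · obtain ⟨δ, hδ'⟩ := hsq
    have hδ : δ ^ 2 = (d : K) := by rw [hδ', sq]
    obtain ⟨s1, s2, s3⟩ := selTwo_sub K hS
    refine ⟨fun m hm => s1 m (Seld_twist K d hd.ne_zero δ hδ m hm), ?_⟩
    exact points_d K K d hd.ne_zero δ hδ s2 s3
  · obtain ⟨K', i1, i2, i3, i4, i5, h2, ⟨δ, hδ⟩, hS'⟩ := exists_sqrt K hS d hd hsq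
    obtain ⟨s1, s2, s3⟩ := selTwo_sub K' hS'
    obtain ⟨k, hk⟩ := hS'.degree
    refine ⟨fun m hm => ?_, points_d K K' d hd.ne_zero δ hδ s2 s3⟩
    obtain ⟨b, hb⟩ := s1 _ (Seld_twist K' d hd.ne_zero δ hδ _ (Seld_up K K' d m hm))
    obtain ⟨n, hn⟩ := hm.2.1
    exact sq_descent K K' h2 (no_cube K' k hk) m hm.1 n hn b hb

/-- A field over K containing the square root of d. -/
theorem exists_sqrt_any (K : Type) [Field K] [NumberField K] [Algebra F K] (hS : Sub2 K) (d : ℤ)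
    (hd : AdmD d) : ∃ (K' : Type) (_ : Field K') (_ : NumberField K') (_ : Algebra F K')
      (_ : Algebra K K'), (∃ δ : K', δ ^ 2 = (d : K')) ∧ Sub2 K' := by
  by_cases hsq : IsSquare (d : K)
  · obtain ⟨δ, hδ'⟩ := hsq
    exact ⟨K, inferInstance, inferInstance, inferInstance, Algebra.id K, ⟨δ, by rw [hδ', sq]⟩, hS⟩
  · obtain ⟨K', i1, i2, i3, i4, i5, h2, hδ, hS'⟩ := exists_sqrt K hS d hd hsq
    exact ⟨K', i1, i2, i3, i4, hδ, hS'⟩

/-- The Tamagawa numbers are odd. -/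
theorem tamd_odd (K₀ K : Type) [Field K₀] [NumberField K₀] [Field K] [NumberField K] [Algebra F K]
    [Algebra K₀ K] (hS : Sub2 K) (d : ℤ) (hd : AdmD d) (hA : UnrAt d K₀)
    (w : HeightOneSpectrum (𝓞 K₀)) : Odd (tamd d K₀ w) := by
  by_cases h3 : (3 : 𝓞 K₀) ∈ w.asIdeal
  · obtain ⟨K', i1, i2, i3, i4, ⟨δ, hδ⟩, hS'⟩ := exists_sqrt_any K hS d hd
    letI : Algebra K₀ K' := ((algebraMap K K').comp (algebraMap K₀ K)).toAlgebra
    exact tamd_three K' hS'.unr d hd δ hδ w h3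
  · rw [tamd_one K hS d hd hA w h3]
    exact odd_one

/-- The twisted Hecke L-function. -/
theorem LV_d (K : Type) [Field K] [NumberField K] [Algebra F K] (hS : Sub2 K) (d : ℤ)
    (hd : AdmD d) : LV (Psi K * chd d K : Ideal (𝓞 K) →*₀ ℂ) := by
  obtain ⟨k, hk⟩ := hS.degree
  exact LV_twist hS _ _ (chd_qchr K d hd) (LV_all k K hS hk)

/-- Fields containing the cube roots of unity. -/
theorem mainF (K : Type) [Field K] [NumberField K] [Algebra F K] (hS : Sub2 K) (d : ℤ)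
    (hd : AdmD d) (hA : UnrAt d K) : BSD2d d K := by
  have hsel := selTwod_F K hS d hd
  obtain ⟨Λ, a1, a2, a3, a4⟩ := L_vald K hS.unr d hd hA (LV_d K hS d hd)
  refine ⟨hsel, period_existsd d hd, Λ, a1, a2, a3, fun L g2 g3 => ?_⟩
  exact shaAnd_unit K d hd (odd_discr K hS.unr) hsel.2.2 (tamd_odd K K hS d hd hA) (Λ 1)
    (by rw [rankF K]; exact a4) L g2 g3

/-- Fields not containing the cube roots of unity. -/
theorem main0 (K₀ K : Type) [Field K₀] [NumberField K₀] [Field K] [NumberField K] [Algebra F K]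
    [Algebra K₀ K] (hQ : H13E.Quad K₀ K) (hS : Sub2 K) (d : ℤ) (hd : AdmD d) (hA : UnrAt d K₀) :
    BSD2d d K₀ := by
  obtain ⟨K', i1, i2, i3, i4, ⟨δ, hδ⟩, hS'⟩ := exists_sqrt_any K hS d hd
  obtain ⟨s1, s2, s3⟩ := selTwo_sub K' hS'
  obtain ⟨k, hk⟩ := hS.degree
  letI : Algebra K₀ K' := ((algebraMap K K').comp (algebraMap K₀ K)).toAlgebra
  have hpts := points_d K₀ K' d hd.ne_zero δ hδ s2 s3
  have hsel : SelTwod d K₀ := by
    refine ⟨fun m hm => ?_, hpts⟩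
    obtain ⟨b, hb⟩ := (selTwod_F K hS d hd).1 _ (Seld_up K₀ K d m hm)
    obtain ⟨n, hn⟩ := hm.2.1
    exact sq_descent K₀ K hQ.rank (no_cube K k hk) m hm.1 n hn b hb
  obtain ⟨Λ, a1, a2, a3, a4⟩ := L_val0d hQ hS.unr d hd hA (LV_d K hS d hd)
  refine ⟨hsel, period_existsd d hd, Λ, a1, a2, a3, fun L g2 g3 => ?_⟩
  exact shaAnd_unit K₀ d hd (H55D.odd_discr0 K hS.unr) hsel.2.2 (tamd_odd K₀ K hS d hd hA) (Λ 1)
    (by rw [rank0 K₀ K hQ]; exact a4) L g2 g3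

/-- THEOREM. -/
theorem main (K : Type) [Field K] [NumberField K] (hK : Cls K) (d : ℤ) (hd : AdmD d)
    (hA : UnrAt d K) : BSD2d d K := by
  rcases Cls_cases K hK with ⟨i1, hS⟩ | ⟨K₁, i1, i2, i3, i4, hQ, hS⟩
  · exact mainF K hS d hd hA
  · exact main0 K K₁ hQ hS d hd hA

end H55E
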