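import Mathlib
import Pool.Agent.Lib.H55C.Y10
import Pool.Agent.Lib.H55E.Defs

open NumberField IsDedekindDomain

namespace H55E

open H55B H55C

theorem X4_mod3 (v : HeightOneSpectrum O) (hl : (Nm (gen v)).Prime) (h3 : 3 < Nm (gen v)) :
    Nm (gen v) % 3 = 1 := by
  obtain ⟨a, b, hab⟩ := exists_repr (gen v)
  have h1 := Nm_repr a b
  rw [← hab] at h1
  set l := Nm (gen v) with hldef
  have h4 : ¬ 3 ∣ l := by
    intro h
    have := (Nat.prime_dvd_prime_iff_eq Nat.prime_three hl).1 h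
    omega
  have h6 : (a + b) % 3 = 0 ∨ (a + b) % 3 = 1 ∨ (a + b) % 3 = 2 := by omega
  obtain ⟨q, hq⟩ : ∃ q : ℤ, a + b = 3 * q ∨ a + b = 3 * q + 1 ∨ a + b = 3 * q + 2 :=
    ⟨(a + b) / 3, by omega⟩
  have h2 : (l : ℤ) = (a + b) ^ 2 - 3 * (a * b) := by rw [h1]; ring
  rcases hq with h | h | h
  · exfalso
    apply h4
    have h5 : (3 : ℤ) ∣ l := ⟨3 * q ^ 2 - a * b, by rw [h2, h]; ring⟩
    exact_mod_cast h5
  · have h5 : (l : ℤ) = 3 * (3 * q ^ 2 + 2 * q - a * b) + 1 := by rw [h2, h]; ring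
    omega
  · have h5 : (l : ℤ) = 3 * (3 * q ^ 2 + 4 * q + 1 - a * b) + 1 := by rw [h2, h]; ring
    omega

/-- There are infinitely many admissible primes. -/
theorem X4_prime (N : ℕ) : ∃ l : ℕ, l.Prime ∧ N < l ∧ AdmD l := by
  obtain ⟨v, hg, hl, hN, h4⟩ := exists_good_prime 2 (N + 3)
  have hlv : ((Nm (gen v) : ℕ) : O) ∈ v.asIdeal := by
    have h1 := Ideal.absNorm_mem v.asIdeal
    rwa [absNorm_gen v hg.2.1] at h1
  refine ⟨Nm (gen v), hl, by omega, ?_, ?_, ?_⟩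
  · exact (Nat.prime_iff_prime_int.1 hl).squarefree
  · have h2 := hl.two_le
    norm_num at h4
    omega
  · intro p hp hpl
    have hpe : p = Nm (gen v) := (Nat.prime_dvd_prime_iff_eq hp hl).1 (by exact_mod_cast hpl)
    subst hpe
    refine ⟨X4_mod3 v hl (by omega), ?_⟩
    rintro ⟨x, hx⟩
    have : NeZero (Nm (gen v)) := ⟨hl.ne_zero⟩
    apply hg.2.2
    refine ⟨((x.val : ℤ) : O), ?_⟩
    have h5 : (((x.val : ℤ) ^ 3 - 2 : ℤ) : O) ∈ v.asIdeal := by
      rw [H1_int_mem hl hlv, ← ZMod.intCast_zmod_eq_zero_iff_dvd]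
      push_cast
      rw [ZMod.natCast_zmod_val, hx, sub_self]
    simpa using h5

/-- For every number field there are infinitely many twists covered by the theorem. -/
theorem X4_twist (K : Type) [Field K] [NumberField K] (B : ℕ) :
    ∃ d : ℤ, AdmD d ∧ UnrAt d K ∧ B < d.natAbs := by
  obtain ⟨l, hl, hN, hd⟩ := X4_prime (B + (discr K).natAbs)
  refine ⟨l, hd, ?_, ?_⟩
  · intro w hw
    have hp : Prime (l : ℤ) := Nat.prime_iff_prime_int.1 hl
    have h1 : ¬ (l : ℤ) ∣ discr K := by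
      intro h
      have h2 := Int.natAbs_dvd_natAbs.2 h
      have h3 := Nat.le_of_dvd (Int.natAbs_pos.2 (discr_ne_zero K)) h2
      rw [Int.natAbs_natCast] at h3
      omega
    have h2 := (not_dvd_discr_iff_forall_mem K (𝓞 K) hp).1 h1 w.asIdeal w.isPrime
      (by exact_mod_cast hw)
    have := w.isPrime
    exact Ideal.ramificationIdx_eq_one w.asIdeal ℤ
  · rw [Int.natAbs_natCast]
    omega

end H55E
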