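import Mathlib
import Pool.Agent.Lib.H55E.Fin
import Pool.Agent.Lib.H55E.X4
import Pool.Agent.Lib.H55N.Final

open NumberField IsDedekindDomain

namespace H55E

open H55B H55C H55N

theorem final :
    (∀ (K : Type) [Field K] [NumberField K], InTwo K → ∀ d : ℤ, AdmD d → UnrAt d K →
      BSD2d d K) ∧
    (∀ (K : Type) [Field K] [NumberField K] (B : ℕ), ∃ d : ℤ, AdmD d ∧ UnrAt d K ∧
      B < d.natAbs) ∧
    (∀ (K : Type) [Field K] [NumberField K], TwoQ K → InTwo K) ∧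
    (∃ (K : Type) (_ : Field K) (_ : NumberField K), RealNonab K) ∧
    (∀ (K : Type) [Field K] [NumberField K] [Algebra F K], Explicit K →
      (∃ k : ℕ, Module.finrank F K = 2 ^ k) → TwoExt K ∧ UnrOut K) ∧
    (∀ n : ℕ, ∃ (K : Type) (_ : Field K) (_ : NumberField K) (_ : Algebra F K),
      Two K 0 ∧ n ≤ Module.finrank ℚ K ∧ ¬ IsGalois ℚ K) ∧
    (∀ (A : Type) [CommGroup A] [Finite A] (k : ℕ), Nat.card A = 2 ^ k → ∀ B : ℕ,
      ∃ (K : Type) (_ : Field K) (_ : NumberField K) (_ : Algebra F K), Two K B ∧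
        GalIs K A) ∧
    (∀ (K : Type) [Field K] [NumberField K] [Algebra F K] (B : ℕ), Two K B →
      ∃ (K' : Type) (_ : Field K') (_ : NumberField K') (_ : Algebra F K') (_ : Algebra K K')
        (_ : IsScalarTower F K K'), Two K' B ∧
        GalIs K' (C2 ≀ᵣ (K ≃ₐ[F] K))) ∧
    (∀ (H : Type) [Group H] [Finite H] (k : ℕ), Nat.card H = 2 ^ k → ∀ B : ℕ,
      ∃ (K : Type) (_ : Field K) (_ : NumberField K) (_ : Algebra F K), Two K B ∧
        GalSub K H) := by
  obtain ⟨-, h2, h3, h4, h5, h6, h7, h8⟩ := H55N.final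
  exact ⟨fun K _ _ hK d hd hA => main K hK d hd hA, fun K _ _ B => X4_twist K B, h2, h3, h4, h8,
    h5, h6, h7⟩

end H55E
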